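import Pool.Agent.Q145.GQ.Mcd
import Pool.Agent.Q178.GC.Th

set_option autoImplicit false
set_option maxHeartbeats 4000000

/-! # Cramér's random set has no correlations -/

namespace Pool.Agent.Q145.GQ

open Finset MeasureTheory ProbabilityTheory Filter Topology

open scoped Classical

/-- the number of the shifts -/
noncomputable def cf (Y n m l : ℕ) (A : Finset ℕ) : ℝ :=
  (((Icc 1 Y).filter (fun s => n + s ∈ A ∧ m + s ∈ A ∧ l + s ∈ A)).card : ℝ)

theorem cf_bd (Y n m l : ℕ) (A : Finset ℕ) (x : ℕ) : |cf Y n m l (insert x A) - cf Y n m l A| ≤ 3 := by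
  have h1 : (Icc 1 Y).filter (fun s => n + s ∈ A ∧ m + s ∈ A ∧ l + s ∈ A) ⊆
      (Icc 1 Y).filter (fun s => n + s ∈ insert x A ∧ m + s ∈ insert x A ∧ l + s ∈ insert x A) := by
    intro s hs
    rw [mem_filter] at hs ⊢
    exact ⟨hs.1, mem_insert_of_mem hs.2.1, mem_insert_of_mem hs.2.2.1, mem_insert_of_mem hs.2.2.2⟩
  have h2 : (Icc 1 Y).filter (fun s => n + s ∈ insert x A ∧ m + s ∈ insert x A ∧ l + s ∈ insert x A) ⊆
      (Icc 1 Y).filter (fun s => n + s ∈ A ∧ m + s ∈ A ∧ l + s ∈ A) ∪ {x - n, x - m, x - l} := by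
    intro s hs
    rw [mem_filter] at hs
    rw [mem_union, mem_filter]
    obtain ⟨h0, ha, hb, hc⟩ := hs
    rw [mem_insert] at ha hb hc
    by_cases g1 : n + s = x
    · right
      have : s = x - n := by omega
      simp [this]
    by_cases g2 : m + s = x
    · right
      have : s = x - m := by omega
      simp [this]
    by_cases g3 : l + s = x
    · right
      have : s = x - l := by omega
      simp [this]
    left
    exact ⟨h0, ha.resolve_left g1, hb.resolve_left g2, hc.resolve_left g3⟩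
  have h3 := card_le_card h1
  have h4 := (card_le_card h2).trans (card_union_le _ _)
  have h5 : ({x - n, x - m, x - l} : Finset ℕ).card ≤ 3 := card_le_three
  have h6 : ((Icc 1 Y).filter (fun s => n + s ∈ insert x A ∧ m + s ∈ insert x A ∧ l + s ∈ insert x A)).card ≤
      ((Icc 1 Y).filter (fun s => n + s ∈ A ∧ m + s ∈ A ∧ l + s ∈ A)).card + 3 := h4.trans (by omega)
  unfold cf
  have h7 : (((Icc 1 Y).filter (fun s => n + s ∈ A ∧ m + s ∈ A ∧ l + s ∈ A)).card : ℝ) ≤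
      (((Icc 1 Y).filter (fun s => n + s ∈ insert x A ∧ m + s ∈ insert x A ∧ l + s ∈ insert x A)).card : ℝ) := by exact_mod_cast h3
  have h8 : (((Icc 1 Y).filter (fun s => n + s ∈ insert x A ∧ m + s ∈ insert x A ∧ l + s ∈ insert x A)).card : ℝ) ≤
      (((Icc 1 Y).filter (fun s => n + s ∈ A ∧ m + s ∈ A ∧ l + s ∈ A)).card : ℝ) + 3 := by exact_mod_cast h6
  rw [abs_le]
  constructor <;> linarith

variable {Ω : Type} [MeasurableSpace Ω] {P : Measure Ω} [IsProbabilityMeasure P] {E : ℕ → Set Ω}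

omit [MeasurableSpace Ω] in
theorem cf_rs (Y n m l : ℕ) (hn : n ≤ Y) (hm : m ≤ Y) (hl : l ≤ Y) (ω : Ω) :
    cf Y n m l (rs E (Icc 1 (2 * Y)) ω) =
      (((Icc 1 Y).filter (fun s => ω ∈ E (n + s) ∧ ω ∈ E (m + s) ∧ ω ∈ E (l + s))).card : ℝ) := by
  unfold cf rs
  congr 2
  apply filter_congr
  intro s hs
  rw [mem_Icc] at hs
  have e : ∀ j : ℕ, j ≤ Y → (j + s ∈ (Icc 1 (2 * Y)).filter (fun n => ω ∈ E n) ↔ ω ∈ E (j + s)) := by
    intro j hj
    rw [mem_filter, mem_Icc]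
    exact ⟨fun h => h.2, fun h => ⟨⟨by omega, by omega⟩, h⟩⟩
  rw [e n hn, e m hm, e l hl]

/-- the probabilities of the intersections -/
noncomputable def jt (P : Measure Ω) (E : ℕ → Set Ω) (n m l s : ℕ) : ℝ := P.real (E (n + s) ∩ (E (m + s) ∩ E (l + s)))

theorem cf_exp (hE : ∀ n, MeasurableSet (E n)) (Y n m l : ℕ) (hn : n ≤ Y) (hm : m ≤ Y) (hl : l ≤ Y) :
    ∫ ω, cf Y n m l (rs E (Icc 1 (2 * Y)) ω) ∂P = ∑ s ∈ Icc 1 Y, jt P E n m l s := by
  have h1 : ∀ ω, cf Y n m l (rs E (Icc 1 (2 * Y)) ω) =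
      ∑ s ∈ Icc 1 Y, (1 : ℝ) * (E (n + s) ∩ (E (m + s) ∩ E (l + s))).indicator 1 ω := by
    intro ω
    rw [cf_rs Y n m l hn hm hl, card_filter]
    push_cast
    apply sum_congr rfl
    intro s _
    by_cases h : ω ∈ E (n + s) ∧ ω ∈ E (m + s) ∧ ω ∈ E (l + s)
    · rw [if_pos h, Set.indicator_of_mem (show ω ∈ E (n + s) ∩ (E (m + s) ∩ E (l + s)) from h)]
      simp
    · rw [if_neg h, Set.indicator_of_notMem (show ω ∉ E (n + s) ∩ (E (m + s) ∩ E (l + s)) from h)]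
      simp
  have hms : ∀ s, MeasurableSet (E (n + s) ∩ (E (m + s) ∩ E (l + s))) := fun s => (hE _).inter ((hE _).inter (hE _))
  simp_rw [h1]
  rw [integral_finsetSum _ fun s _ => ind_int (hms s) 1]
  apply sum_congr rfl
  intro s _
  rw [integral_const_mul, integral_indicator_one (hms s), one_mul]
  rfl

theorem jt_one (P : Measure Ω) (E : ℕ → Set Ω) (n s : ℕ) : jt P E n n n s = P.real (E (n + s)) := by
  unfold jt
  rw [Set.inter_self, Set.inter_self]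

theorem ind_fin (hi : iIndepSet E P) (S : Finset ℕ) : P.real (⋂ i ∈ S, E i) = ∏ i ∈ S, P.real (E i) := by
  have h := (iIndepSet_iff E P).1 hi S (f := E) (fun n _ => MeasurableSpace.measurableSet_generateFrom (Set.mem_singleton _))
  unfold Measure.real
  rw [h, ENNReal.toReal_prod]

theorem jt_two (hi : iIndepSet E P) (n m s : ℕ) (h : n ≠ m) : jt P E n m m s = P.real (E (n + s)) * P.real (E (m + s)) := by
  unfold jt
  rw [Set.inter_self]
  have h1 := ind_fin hi {n + s, m + s}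
  rw [prod_pair (by omega), set_biInter_insert, set_biInter_singleton] at h1
  exact h1

theorem jt_three (hi : iIndepSet E P) (n m l s : ℕ) (h : n ≠ m) (h' : n ≠ l) (h'' : m ≠ l) :
    jt P E n m l s = P.real (E (n + s)) * (P.real (E (m + s)) * P.real (E (l + s))) := by
  unfold jt
  have h1 := ind_fin hi {n + s, m + s, l + s}
  rw [prod_insert (by simp; omega), prod_pair (by omega), set_biInter_insert, set_biInter_insert, set_biInter_singleton] at h1
  exact h1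

/-! ## Sums of `1 / log` -/

theorem growthQ : ∀ᶠ Y : ℕ in atTop, 3 ≤ Real.log Y ∧ √(Y : ℝ) ≤ Y / Real.log Y ^ 3 ∧ 9 ≤ Y ∧ 2 ≤ Y / Real.log Y ^ 3 ∧
    45 * Real.log Y ^ 7 ≤ Y := by
  have hL : Tendsto (fun Y : ℕ => Real.log Y) atTop atTop := Real.tendsto_log_atTop.comp tendsto_natCast_atTop_atTop
  have h1 : ∀ᶠ Y : ℕ in atTop, 45 * Real.log Y ^ 7 ≤ Y := by
    have h2 : Tendsto (fun x : ℝ => Real.log x ^ 7 / x) atTop (𝓝 0) := Real.isLittleO_pow_log_id_atTop.tendsto_div_nhds_zero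
    have h3 := h2.comp (tendsto_natCast_atTop_atTop (R := ℝ))
    filter_upwards [h3.eventually (gt_mem_nhds (show (0 : ℝ) < 1 / 45 by norm_num)), eventually_ge_atTop 1] with Y h4 h5
    have hY : (0 : ℝ) < Y := by exact_mod_cast h5
    simp only [Function.comp] at h4
    rw [div_lt_iff₀ hY] at h4
    linarith
  filter_upwards [h1, hL.eventually_ge_atTop 3, eventually_ge_atTop 9] with Y h2 h3 h4
  have hL0 : 0 < Real.log (Y : ℝ) := by linarith
  have hY : (0 : ℝ) < Y := by exact_mod_cast (by omega : 0 < Y)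
  have h5 : Real.log (Y : ℝ) ^ 6 ≤ Y := by
    have : Real.log (Y : ℝ) ^ 6 * 1 ≤ 45 * Real.log Y ^ 7 := by
      have e : 45 * Real.log (Y : ℝ) ^ 7 = Real.log (Y : ℝ) ^ 6 * (45 * Real.log Y) := by ring
      rw [e]
      apply mul_le_mul_of_nonneg_left _ (by positivity)
      linarith
    linarith
  have h6 : Real.log (Y : ℝ) ^ 3 ≤ √(Y : ℝ) := by
    apply Real.le_sqrt_of_sq_le
    have e : (Real.log (Y : ℝ) ^ 3) ^ 2 = Real.log (Y : ℝ) ^ 6 := by ring
    rw [e]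
    exact h5
  have h7 : √(Y : ℝ) ≤ Y / Real.log Y ^ 3 := by
    rw [le_div_iff₀ (by positivity)]
    calc √(Y : ℝ) * Real.log Y ^ 3 ≤ √(Y : ℝ) * √(Y : ℝ) := mul_le_mul_of_nonneg_left h6 (Real.sqrt_nonneg _)
      _ = Y := Real.mul_self_sqrt hY.le
  have h8 : (2 : ℝ) ≤ √(Y : ℝ) := by
    apply Real.le_sqrt_of_sq_le
    have : (9 : ℝ) ≤ Y := by exact_mod_cast h4
    linarith
  exact ⟨h3, h7, h4, h8.trans h7, h2⟩

/-- the weight -/
noncomputable def wg (Y s : ℕ) : ℝ := Real.log Y - Real.log s + 1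

theorem sum_wg (Y : ℕ) (hY : 1 ≤ Y) : ∑ s ∈ Icc 1 Y, wg Y s ≤ 2 * Y := by
  have h1 : (Y : ℝ) * Real.log Y - Y ≤ ∑ s ∈ Icc 1 Y, Real.log s := by
    obtain ⟨N, rfl⟩ : ∃ N, Y = 1 + N := ⟨Y - 1, by omega⟩
    have h2 := (Pool.Agent.Q178.GC.sum_log (n := 1) (Y := N) le_rfl).1
    have h3 : ∑ m ∈ Ioc 1 (1 + N), Real.log m ≤ ∑ s ∈ Icc 1 (1 + N), Real.log s := by
      apply sum_le_sum_of_subset_of_nonneg
      · intro m hm
        rw [mem_Ioc] at hm
        rw [mem_Icc]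
        omega
      · intro m _ _
        exact Real.log_natCast_nonneg m
    simp only [Nat.cast_one, Real.log_one, mul_zero] at h2
    linarith
  unfold wg
  rw [sum_add_distrib, sum_sub_distrib, sum_const, sum_const, Nat.card_Icc, Nat.add_sub_cancel, nsmul_eq_mul, nsmul_eq_mul]
  linarith

theorem q_close (q : ℕ → ℝ) (h0 : ∀ j, 0 ≤ q j) (h1 : ∀ j, q j ≤ 1) (hq : ∀ j : ℕ, 3 ≤ j → q j = 1 / Real.log j)
    (Y : ℕ) (hY : 9 ≤ Y) (hL : 3 ≤ Real.log Y) (n s : ℕ) (hn : n ≤ Y) (hs1 : 1 ≤ s) (hs : s ≤ Y) (hn1 : 1 ≤ n) (hsY : √(Y : ℝ) ≤ s) :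
    |q (n + s) - 1 / Real.log Y| ≤ 2 * wg Y s / Real.log Y ^ 2 ∧ q (n + s) ≤ 2 / Real.log Y := by
  have hYr : (9 : ℝ) ≤ Y := by exact_mod_cast hY
  have hY0 : (0 : ℝ) < Y := by linarith
  set L := Real.log (Y : ℝ) with hLd
  have hL0 : 0 < L := by linarith
  have hsq3 : (3 : ℝ) ≤ √(Y : ℝ) := by
    apply Real.le_sqrt_of_sq_le
    linarith
  have hs3 : 3 ≤ s := by
    have : (3 : ℝ) ≤ s := hsq3.trans hsY
    exact_mod_cast this
  have hs0 : (0 : ℝ) < s := by exact_mod_cast (by omega : 0 < s)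
  have hj0 : (0 : ℝ) < ((n + s : ℕ) : ℝ) := by exact_mod_cast (by omega : 0 < n + s)
  have hsq0 : 0 < √(Y : ℝ) := by linarith
  have hls : L / 2 ≤ Real.log s := by
    rw [hLd, ← Real.log_sqrt hY0.le]
    exact Real.log_le_log hsq0 hsY
  have hlj : Real.log s ≤ Real.log ((n + s : ℕ) : ℝ) := by
    apply Real.log_le_log hs0
    push_cast
    have : (0 : ℝ) ≤ n := Nat.cast_nonneg _
    linarith
  have hlj2 : Real.log ((n + s : ℕ) : ℝ) ≤ L + 1 := by
    have e1 : ((n + s : ℕ) : ℝ) ≤ 2 * Y := by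
      push_cast
      have e2 : (n : ℝ) ≤ Y := by exact_mod_cast hn
      have e3 : (s : ℝ) ≤ Y := by exact_mod_cast hs
      linarith
    have e2 := Real.log_le_log hj0 e1
    rw [Real.log_mul (by norm_num) hY0.ne'] at e2
    have e3 : Real.log 2 ≤ 1 := by
      have := Real.log_two_lt_d9
      linarith
    linarith
  have hlsY : Real.log s ≤ L := Real.log_le_log hs0 (by exact_mod_cast hs)
  rw [hq (n + s) (by omega)]
  set lj := Real.log ((n + s : ℕ) : ℝ) with hljd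
  have hlj0 : 0 < lj := by linarith
  constructor
  · have e1 : 1 / lj - 1 / L = (L - lj) / (L * lj) := by
      field_simp
    rw [e1, abs_div, abs_of_pos (show 0 < L * lj by positivity), div_le_div_iff₀ (by positivity) (by positivity)]
    have e2 : |L - lj| ≤ wg Y s := by
      unfold wg
      rw [abs_le]
      constructor <;> linarith
    have e3 : 0 ≤ wg Y s := (abs_nonneg _).trans e2
    calc |L - lj| * L ^ 2 ≤ wg Y s * L ^ 2 := mul_le_mul_of_nonneg_right e2 (by positivity)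
      _ = wg Y s * L * L := by ring
      _ ≤ wg Y s * L * (2 * lj) := by
          apply mul_le_mul_of_nonneg_left _ (by positivity)
          linarith
      _ = _ := by ring
  · rw [div_le_div_iff₀ hlj0 hL0]
    linarith

theorem card_small (Y : ℕ) : (((Icc 1 Y).filter (fun s : ℕ => (s : ℝ) < √(Y : ℝ))).card : ℝ) ≤ √(Y : ℝ) := by
  have h6 : (Icc 1 Y).filter (fun m : ℕ => (m : ℝ) < √(Y : ℝ)) ⊆ Icc 1 ⌊√(Y : ℝ)⌋₊ := by
    intro m hm
    rw [mem_filter, mem_Icc] at hm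
    rw [mem_Icc]
    exact ⟨hm.1.1, Nat.le_floor hm.2.le⟩
  have h7 := card_le_card h6
  rw [Nat.card_Icc, Nat.add_sub_cancel] at h7
  calc (((Icc 1 Y).filter (fun m : ℕ => (m : ℝ) < √(Y : ℝ))).card : ℝ) ≤ ⌊√(Y : ℝ)⌋₊ := by exact_mod_cast h7
    _ ≤ _ := Nat.floor_le (Real.sqrt_nonneg _)

theorem sum_two (q : ℕ → ℝ) (h0 : ∀ j, 0 ≤ q j) (h1 : ∀ j, q j ≤ 1) (hq : ∀ j : ℕ, 3 ≤ j → q j = 1 / Real.log j)
    (Y : ℕ) (hY : 9 ≤ Y) (hL : 3 ≤ Real.log Y) (hsY : √(Y : ℝ) ≤ Y / Real.log Y ^ 3) (n m : ℕ)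
    (hn1 : 1 ≤ n) (hn : n ≤ Y) (hm1 : 1 ≤ m) (hm : m ≤ Y) :
    |∑ s ∈ Icc 1 Y, q (n + s) * q (m + s) - Y / Real.log Y ^ 2| ≤ 13 * (Y / Real.log Y ^ 3) := by
  set L := Real.log (Y : ℝ) with hLd
  have hL0 : 0 < L := by linarith
  have e0 : (Y : ℝ) / L ^ 2 = ∑ s ∈ Icc 1 Y, 1 / L ^ 2 := by
    rw [sum_const, Nat.card_Icc, Nat.add_sub_cancel, nsmul_eq_mul]
    ring
  rw [e0, ← sum_sub_distrib]
  have e1 : ∀ s ∈ Icc 1 Y, |q (n + s) * q (m + s) - 1 / L ^ 2| ≤ 6 / L ^ 3 * wg Y s + (if (s : ℝ) < √(Y : ℝ) then 1 else 0) := by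
    intro s hs
    obtain ⟨hs1, hs2⟩ := mem_Icc.1 hs
    have hw : 0 ≤ wg Y s := by
      unfold wg
      have : Real.log s ≤ Real.log Y := Real.log_le_log (by exact_mod_cast hs1) (by exact_mod_cast hs2)
      linarith
    split_ifs with h
    · have f1 : q (n + s) * q (m + s) ≤ 1 := mul_le_one₀ (h1 _) (h0 _) (h1 _)
      have f0 : 0 ≤ q (n + s) * q (m + s) := mul_nonneg (h0 _) (h0 _)
      have f2 : 1 / L ^ 2 ≤ 1 := by
        rw [div_le_one (by positivity)]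
        nlinarith
      have f3 : 0 ≤ 1 / L ^ 2 := by positivity
      have f4 : 0 ≤ 6 / L ^ 3 * wg Y s := by positivity
      rw [abs_le]
      constructor <;> linarith
    · rw [not_lt] at h
      obtain ⟨a1, a2⟩ := q_close q h0 h1 hq Y hY hL n s hn hs1 hs2 hn1 h
      obtain ⟨b1, b2⟩ := q_close q h0 h1 hq Y hY hL m s hm hs1 hs2 hm1 h
      rw [← hLd] at a1 a2 b1 b2
      have e : q (n + s) * q (m + s) - 1 / L ^ 2 = (q (n + s) - 1 / L) * q (m + s) + 1 / L * (q (m + s) - 1 / L) := by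
        field_simp
        ring
      rw [e, add_zero]
      refine (abs_add_le _ _).trans ?_
      rw [abs_mul, abs_mul, abs_of_nonneg (h0 (m + s)), abs_of_pos (show 0 < 1 / L by positivity)]
      calc |q (n + s) - 1 / L| * q (m + s) + 1 / L * |q (m + s) - 1 / L| ≤
            2 * wg Y s / L ^ 2 * (2 / L) + 1 / L * (2 * wg Y s / L ^ 2) := by
            apply add_le_add
            · exact mul_le_mul a1 b2 (h0 _) (by positivity)
            · exact mul_le_mul_of_nonneg_left b1 (by positivity)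
        _ = _ := by
            field_simp
            ring
  refine (abs_sum_le_sum_abs _ _).trans ((sum_le_sum e1).trans ?_)
  rw [sum_add_distrib, ← mul_sum, ← sum_filter, sum_const, nsmul_eq_mul, mul_one]
  have e2 := sum_wg Y (by omega)
  have e3 := card_small Y
  have e4 : 6 / L ^ 3 * ∑ s ∈ Icc 1 Y, wg Y s ≤ 6 / L ^ 3 * (2 * Y) := mul_le_mul_of_nonneg_left e2 (by positivity)
  have e5 : 6 / L ^ 3 * (2 * (Y : ℝ)) = 12 * (Y / L ^ 3) := by ring
  linarith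

theorem sum_three (q : ℕ → ℝ) (h0 : ∀ j, 0 ≤ q j) (h1 : ∀ j, q j ≤ 1) (hq : ∀ j : ℕ, 3 ≤ j → q j = 1 / Real.log j)
    (Y : ℕ) (hY : 9 ≤ Y) (hL : 3 ≤ Real.log Y) (hsY : √(Y : ℝ) ≤ Y / Real.log Y ^ 3) (n m l : ℕ)
    (hn1 : 1 ≤ n) (hn : n ≤ Y) (hm1 : 1 ≤ m) (hm : m ≤ Y) (hl1 : 1 ≤ l) (hl : l ≤ Y) :
    ∑ s ∈ Icc 1 Y, q (n + s) * (q (m + s) * q (l + s)) ≤ 9 * (Y / Real.log Y ^ 3) := by
  set L := Real.log (Y : ℝ) with hLd
  have hL0 : 0 < L := by linarith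
  have e1 : ∀ s ∈ Icc 1 Y, q (n + s) * (q (m + s) * q (l + s)) ≤ 8 / L ^ 3 + (if (s : ℝ) < √(Y : ℝ) then 1 else 0) := by
    intro s hs
    obtain ⟨hs1, hs2⟩ := mem_Icc.1 hs
    split_ifs with h
    · have f1 : q (m + s) * q (l + s) ≤ 1 := mul_le_one₀ (h1 _) (h0 _) (h1 _)
      have f0 : 0 ≤ q (m + s) * q (l + s) := mul_nonneg (h0 _) (h0 _)
      have f2 : q (n + s) * (q (m + s) * q (l + s)) ≤ 1 := mul_le_one₀ (h1 _) f0 f1
      have f4 : 0 ≤ 8 / L ^ 3 := by positivity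
      linarith
    · rw [not_lt] at h
      have a2 := (q_close q h0 h1 hq Y hY hL n s hn hs1 hs2 hn1 h).2
      have b2 := (q_close q h0 h1 hq Y hY hL m s hm hs1 hs2 hm1 h).2
      have c2 := (q_close q h0 h1 hq Y hY hL l s hl hs1 hs2 hl1 h).2
      rw [← hLd] at a2 b2 c2
      rw [add_zero]
      calc q (n + s) * (q (m + s) * q (l + s)) ≤ 2 / L * (2 / L * (2 / L)) := by
            apply mul_le_mul a2 _ (mul_nonneg (h0 _) (h0 _)) (by positivity)
            exact mul_le_mul b2 c2 (h0 _) (by positivity)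
        _ = _ := by
            field_simp
            norm_num
  refine (sum_le_sum e1).trans ?_
  rw [sum_add_distrib, ← sum_filter, sum_const, sum_const, nsmul_eq_mul, nsmul_eq_mul, mul_one, Nat.card_Icc, Nat.add_sub_cancel]
  have e3 := card_small Y
  have e5 : (Y : ℝ) * (8 / L ^ 3) = 8 * (Y / L ^ 3) := by ring
  linarith

theorem sum_one' (q : ℕ → ℝ) (h0 : ∀ j, 0 ≤ q j) (h1 : ∀ j, q j ≤ 1) (hq : ∀ j : ℕ, 3 ≤ j → q j = 1 / Real.log j)
    (Y n : ℕ) (hY : 1 ≤ Y) (hn1 : 1 ≤ n) : |∑ s ∈ Icc 1 Y, q (n + s) - ∑ m ∈ Ioc n (n + Y), 1 / Real.log m| ≤ 2 := by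
  have e0 : ∑ m ∈ Ioc n (n + Y), 1 / Real.log m = ∑ s ∈ Icc 1 Y, 1 / Real.log ((n + s : ℕ) : ℝ) := by
    apply sum_nbij' (fun m => m - n) (fun s => n + s)
    · intro m hm
      rw [mem_Ioc] at hm
      rw [mem_Icc]
      omega
    · intro s hs
      rw [mem_Icc] at hs
      rw [mem_Ioc]
      omega
    · intro m hm
      rw [mem_Ioc] at hm
      show n + (m - n) = m
      omega
    · intro s hs
      show n + s - n = s
      omega
    · intro m hm
      rw [mem_Ioc] at hm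
      have : n + (m - n) = m := by omega
      rw [this]
  rw [e0, ← sum_sub_distrib]
  have e1 : ∀ s ∈ Icc 1 Y, |q (n + s) - 1 / Real.log ((n + s : ℕ) : ℝ)| ≤ if s = 1 then 2 else 0 := by
    intro s hs
    obtain ⟨hs1, hs2⟩ := mem_Icc.1 hs
    by_cases h3 : 3 ≤ n + s
    · rw [hq _ h3, sub_self, abs_zero]
      split_ifs <;> norm_num
    · have h4 : s = 1 := by omega
      have h5 : n = 1 := by omega
      subst h4 h5
      rw [if_pos rfl]
      have f1 : 0 ≤ 1 / Real.log ((1 + 1 : ℕ) : ℝ) := by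
        have := Real.log_natCast_nonneg (1 + 1)
        positivity
      have f2 : 1 / Real.log ((1 + 1 : ℕ) : ℝ) ≤ 2 := by
        have := Real.log_two_gt_d9
        norm_num
        rw [inv_le_comm₀ (by linarith) (by norm_num)]
        linarith
      have := h0 (1 + 1)
      have := h1 (1 + 1)
      rw [abs_le]
      constructor <;> linarith
  refine (abs_sum_le_sum_abs _ _).trans ((sum_le_sum e1).trans ?_)
  rw [← sum_filter, sum_const, nsmul_eq_mul]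
  have : (Icc 1 Y).filter (fun s => s = 1) ⊆ {1} := by
    intro s hs
    rw [mem_filter] at hs
    rw [mem_singleton]
    exact hs.2
  have h2 := card_le_card this
  rw [card_singleton] at h2
  have h3 : (((Icc 1 Y).filter (fun s => s = 1)).card : ℝ) ≤ 1 := by exact_mod_cast h2
  linarith

/-! ## The exceptional events -/

/-- the exceptional event -/
noncomputable def ev (P : Measure Ω) (E : ℕ → Set Ω) (Y : ℕ) : Set Ω :=
  ⋃ x ∈ (Icc 1 Y) ×ˢ (Icc 1 Y) ×ˢ (Icc 1 Y), {ω | Y / Real.log Y ^ 3 ≤ |cf Y x.1 x.2.1 x.2.2 (rs E (Icc 1 (2 * Y)) ω) -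
    ∫ ω', cf Y x.1 x.2.1 x.2.2 (rs E (Icc 1 (2 * Y)) ω') ∂P|}

theorem ev_prob (hE : ∀ n, MeasurableSet (E n)) (hi : iIndepSet E P) : ∀ᶠ Y : ℕ in atTop, P.real (ev P E Y) ≤ 2 * (1 / (Y : ℝ) ^ 2) := by
  filter_upwards [growthQ] with Y hY
  obtain ⟨hL3, hsq, hY9, h2, h45⟩ := hY
  set L := Real.log (Y : ℝ) with hL
  have hL0 : 0 < L := by linarith
  have hY0 : (0 : ℝ) < Y := by exact_mod_cast (by omega : 0 < Y)
  have h1 : ∀ x ∈ (Icc 1 Y) ×ˢ (Icc 1 Y) ×ˢ (Icc 1 Y), P.real {ω | Y / L ^ 3 ≤ |cf Y x.1 x.2.1 x.2.2 (rs E (Icc 1 (2 * Y)) ω) -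
      ∫ ω', cf Y x.1 x.2.1 x.2.2 (rs E (Icc 1 (2 * Y)) ω') ∂P|} ≤ 2 * (1 / (Y : ℝ) ^ 5) := by
    intro x _
    have h3 := (mcd Ω P E hE hi (2 * Y) 3 (cf Y x.1 x.2.1 x.2.2) (by norm_num) (fun A z => cf_bd _ _ _ _ A z)).2 (Y / L ^ 3)
      (by positivity)
    refine h3.trans ?_
    apply mul_le_mul_of_nonneg_left _ (by norm_num)
    have e1 : 1 / (Y : ℝ) ^ 5 = Real.exp (-(5 * L)) := by
      rw [Real.exp_neg, one_div, hL, show (5 : ℝ) * Real.log Y = ((5 : ℕ) : ℝ) * Real.log Y by norm_num, Real.exp_nat_mul, Real.exp_log hY0]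
    rw [e1]
    apply Real.exp_le_exp.2
    apply neg_le_neg
    have e2 : 2 * ((Y : ℝ) / L ^ 3) ^ 2 / (((2 * Y : ℕ) : ℝ) * 3 ^ 2) = Y / (9 * L ^ 6) := by
      push_cast
      field_simp
      norm_num
    rw [e2, le_div_iff₀ (by positivity)]
    have e3 : 5 * L * (9 * L ^ 6) = 45 * L ^ 7 := by ring
    rw [e3]
    exact h45
  refine (measureReal_biUnion_finset_le _ _).trans ((sum_le_sum h1).trans ?_)
  rw [sum_const, card_product, card_product, Nat.card_Icc, Nat.add_sub_cancel, nsmul_eq_mul]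
  refine le_of_eq ?_
  push_cast
  field_simp

theorem ev_ae (hE : ∀ n, MeasurableSet (E n)) (hi : iIndepSet E P) : ∀ᵐ ω ∂P, ∀ᶠ Y : ℕ in atTop, ω ∉ ev P E Y := by
  apply ae_eventually_notMem
  obtain ⟨Y₀, hY₀⟩ := eventually_atTop.1 (ev_prob (P := P) hE hi)
  have h1 : ∀ Y : ℕ, P (ev P E Y) ≤ ENNReal.ofReal (2 * (1 / (Y : ℝ) ^ 2) + (if Y ∈ range Y₀ then 1 else 0)) := by
    intro Y
    rw [← ENNReal.ofReal_toReal (measure_ne_top P (ev P E Y))]
    apply ENNReal.ofReal_le_ofReal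
    show P.real (ev P E Y) ≤ _
    split_ifs with h
    · have : P.real (ev P E Y) ≤ 1 := measureReal_le_one
      have h2 : 0 ≤ 2 * (1 / (Y : ℝ) ^ 2) := by positivity
      linarith
    · rw [mem_range, not_lt] at h
      rw [add_zero]
      exact hY₀ Y h
  refine ne_top_of_le_ne_top ?_ (ENNReal.tsum_le_tsum h1)
  apply Summable.tsum_ofReal_ne_top
  apply Summable.add
  · exact (Real.summable_one_div_nat_pow.2 (by norm_num)).mul_left 2
  · refine summable_of_ne_finset_zero (s := range Y₀) (fun Y hY => ?_)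
    rw [if_neg hY]

/-- **Cramér's random set has no correlations.** -/
theorem cra : S_Cra := by
  intro Ω _ P _ E hE hi hp
  set q : ℕ → ℝ := fun j => P.real (E j) with hq
  have h0 : ∀ j, 0 ≤ q j := fun j => measureReal_nonneg
  have h1 : ∀ j, q j ≤ 1 := fun j => measureReal_le_one
  filter_upwards [ev_ae (P := P) hE hi] with ω hω
  obtain ⟨Y₀, hY₀⟩ := eventually_atTop.1 (hω.and growthQ)
  have key : ∀ Y : ℕ, Y₀ ≤ Y → ∀ n m l : ℕ, 1 ≤ n → n ≤ Y → 1 ≤ m → m ≤ Y → 1 ≤ l → l ≤ Y →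
      |(((Icc 1 Y).filter (fun s => ω ∈ E (n + s) ∧ ω ∈ E (m + s) ∧ ω ∈ E (l + s))).card : ℝ) -
        ∑ s ∈ Icc 1 Y, jt P E n m l s| ≤ Y / Real.log Y ^ 3 := by
    intro Y hY n m l hn1 hn hm1 hm hl1 hl
    have h2 := (hY₀ Y hY).1
    unfold ev at h2
    rw [Set.mem_iUnion₂] at h2
    push Not at h2
    have h3 := h2 (n, m, l) (by
      rw [mem_product, mem_product, mem_Icc, mem_Icc, mem_Icc]
      exact ⟨⟨hn1, hn⟩, ⟨hm1, hm⟩, ⟨hl1, hl⟩⟩)
    rw [Set.mem_ofPred_eq, not_le] at h3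
    simp only at h3
    rw [cf_exp hE Y n m l hn hm hl, cf_rs Y n m l hn hm hl] at h3
    exact h3.le
  refine ⟨⟨2, Y₀, by norm_num, fun Y hY n hn1 hn => ?_⟩, ⟨14, Y₀, by norm_num, fun Y hY n m hn1 hnm hm => ?_⟩,
    ⟨10, Y₀, by norm_num, fun Y hY n m l hn1 hnm hml hl => ?_⟩⟩
  · obtain ⟨hL3, hsq, hY9, h2, h45⟩ := (hY₀ Y hY).2
    have g1 := key Y hY n n n hn1 hn hn1 hn hn1 hn
    have g2 := sum_one' q h0 h1 hp Y n (by omega) hn1
    have e1 : ∑ s ∈ Icc 1 Y, jt P E n n n s = ∑ s ∈ Icc 1 Y, q (n + s) := sum_congr rfl fun s _ => jt_one P E n s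
    have e2 : (Icc 1 Y).filter (fun s => ω ∈ E (n + s) ∧ ω ∈ E (n + s) ∧ ω ∈ E (n + s)) = (Icc 1 Y).filter (fun s => ω ∈ E (n + s)) :=
      filter_congr fun s _ => by tauto
    rw [e1, e2] at g1
    have g3 := abs_add_le ((((Icc 1 Y).filter (fun s => ω ∈ E (n + s))).card : ℝ) - ∑ s ∈ Icc 1 Y, q (n + s))
      (∑ s ∈ Icc 1 Y, q (n + s) - ∑ m ∈ Ioc n (n + Y), 1 / Real.log m)
    rw [sub_add_sub_cancel] at g3
    linarith
  · obtain ⟨hL3, hsq, hY9, h2, h45⟩ := (hY₀ Y hY).2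
    have g1 := key Y hY n m m hn1 (by omega) (by omega) hm (by omega) hm
    have g2 := sum_two q h0 h1 hp Y hY9 hL3 hsq n m hn1 (by omega) (by omega) hm
    have e1 : ∑ s ∈ Icc 1 Y, jt P E n m m s = ∑ s ∈ Icc 1 Y, q (n + s) * q (m + s) :=
      sum_congr rfl fun s _ => jt_two hi n m s (by omega)
    have e2 : (Icc 1 Y).filter (fun s => ω ∈ E (n + s) ∧ ω ∈ E (m + s) ∧ ω ∈ E (m + s)) =
        (Icc 1 Y).filter (fun s => ω ∈ E (n + s) ∧ ω ∈ E (m + s)) := filter_congr fun s _ => by tauto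
    rw [e1, e2] at g1
    have g3 := abs_add_le ((((Icc 1 Y).filter (fun s => ω ∈ E (n + s) ∧ ω ∈ E (m + s))).card : ℝ) - ∑ s ∈ Icc 1 Y, q (n + s) * q (m + s))
      (∑ s ∈ Icc 1 Y, q (n + s) * q (m + s) - Y / Real.log Y ^ 2)
    rw [sub_add_sub_cancel] at g3
    linarith
  · obtain ⟨hL3, hsq, hY9, h2, h45⟩ := (hY₀ Y hY).2
    have g1 := (abs_le.1 (key Y hY n m l hn1 (by omega) (by omega) (by omega) (by omega) hl)).2
    have g2 := sum_three q h0 h1 hp Y hY9 hL3 hsq n m l hn1 (by omega) (by omega) (by omega) (by omega) hl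
    have e1 : ∑ s ∈ Icc 1 Y, jt P E n m l s = ∑ s ∈ Icc 1 Y, q (n + s) * (q (m + s) * q (l + s)) :=
      sum_congr rfl fun s _ => jt_three hi n m l s (by omega) (by omega) (by omega)
    rw [e1] at g1
    linarith

end Pool.Agent.Q145.GQ
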