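import Pool.Agent.Q145.GQ.Mean
import Pool.Agent.Q145.GC.Fin

set_option autoImplicit false
set_option maxHeartbeats 4000000

/-! # Equidistributed sets of positive density -/

namespace Pool.Agent.Q145.GQ

open Finset MeasureTheory ProbabilityTheory Filter Topology
open Pool.Agent.Q178.GC (psi0 psi0_cont riemann growth3 pc_err3 count_eq lis_eq)
open Pool.Agent.Q145.GC (cst)

open scoped Classical

/-- Equidistribution of the sets `V i ⊆ [1, Y i]` of `X i` elements, in initial segments and residue classes. -/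
def Eqd (V : ℕ → Finset ℕ) (X Y : ℕ → ℕ) : Prop := ∀ (W c : ℕ) (x : ℝ), 0 < W → 0 < x → x ≤ 1 →
  Tendsto (fun i => (((V i).filter (fun n : ℕ => (n : ℝ) ≤ x * Y i ∧ n % W = c % W)).card : ℝ) / X i) atTop (𝓝 (x / W))

theorem eqd_cont (V : ℕ → Finset ℕ) (X Y : ℕ → ℕ) (hV : ∀ i, V i ⊆ Icc 1 (Y i)) (hX : ∀ i, (V i).card = X i) (hE : Eqd V X Y)
    (hXt : Tendsto X atTop atTop) (G : ℝ → ℝ) (hG : Continuous G) (W c : ℕ) (hW : 0 < W) :
    Tendsto (fun i => (∑ n ∈ (V i).filter (fun n : ℕ => n % W = c % W), G ((n : ℝ) / Y i)) / X i) atTop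
      (𝓝 ((∫ x in (0:ℝ)..1, G x) / W)) := by
  have hW0 : (0 : ℝ) < W := by exact_mod_cast hW
  rw [Metric.tendsto_atTop]
  intro ε hε
  have huc : UniformContinuousOn G (Set.Icc 0 1) :=
    isCompact_Icc.uniformContinuousOn_of_continuous hG.continuousOn
  rw [Metric.uniformContinuousOn_iff] at huc
  obtain ⟨δ, hδ, hd⟩ := huc (ε / 4) (by positivity)
  have hR := (riemann hG).const_mul (1 / (W : ℝ))
  rw [Metric.tendsto_atTop] at hR
  obtain ⟨N1, hN1⟩ := hR (ε / 4) (by positivity)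
  obtain ⟨N0, hN0⟩ := exists_nat_gt (1 / δ)
  obtain ⟨N, hN⟩ : ∃ N : ℕ, N = max (N0 + 1) N1 := ⟨_, rfl⟩
  have hNN0 : N0 + 1 ≤ N := by rw [hN]; exact le_max_left _ _
  have hNN1 : N1 ≤ N := by rw [hN]; exact le_max_right _ _
  have hNp : (0 : ℝ) < N := by exact_mod_cast (by omega : 0 < N)
  have hNδ : 1 / (N : ℝ) < δ := by
    have h1 : (N0 : ℝ) ≤ N := by exact_mod_cast (by omega : N0 ≤ N)
    rw [div_lt_iff₀ hNp]
    rw [div_lt_iff₀ hδ] at hN0
    nlinarith
  have hR' := hN1 N hNN1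
  -- the step function
  set F : ℕ → ℕ → ℝ := fun i m => (((V i).filter (fun n : ℕ => (n : ℝ) ≤ ((m : ℝ) / N) * Y i ∧ n % W = c % W)).card : ℝ) / X i with hF
  have hFt : ∀ m ∈ range (N + 1), Tendsto (fun i => F i m) atTop (𝓝 (((m : ℝ) / N) / W)) := by
    intro m hm
    rcases Nat.eq_zero_or_pos m with h0 | h0
    · subst h0
      have : ∀ i, F i 0 = 0 := by
        intro i
        rw [hF]
        simp only
        rw [card_eq_zero.2, Nat.cast_zero, zero_div]
        rw [filter_eq_empty_iff]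
        rintro n hn ⟨h1, _⟩
        have h2 := (mem_Icc.1 (hV i hn)).1
        have h3 : (1 : ℝ) ≤ n := by exact_mod_cast h2
        simp only [Nat.cast_zero, zero_div, zero_mul] at h1
        linarith
      simp_rw [this]
      simp
    · have h1 : (m : ℝ) ≤ N := by exact_mod_cast Nat.lt_succ_iff.1 (mem_range.1 hm)
      have h2 : (0 : ℝ) < m := by exact_mod_cast h0
      exact hE W c ((m : ℝ) / N) hW (by positivity) (by rw [div_le_one hNp]; exact h1)
  have hD : Tendsto (fun i => ∑ m ∈ range N, G (((m + 1 : ℕ) : ℝ) / N) * (F i (m + 1) - F i m)) atTop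
      (𝓝 (∑ m ∈ range N, G (((m + 1 : ℕ) : ℝ) / N) * ((((m + 1 : ℕ) : ℝ) / N) / W - ((m : ℝ) / N) / W))) := by
    apply tendsto_finsetSum
    intro m hm
    have hm' := mem_range.1 hm
    exact ((hFt (m + 1) (mem_range.2 (by omega))).sub (hFt m (mem_range.2 (by omega)))).const_mul _
  have hDe : ∑ m ∈ range N, G (((m + 1 : ℕ) : ℝ) / N) * ((((m + 1 : ℕ) : ℝ) / N) / W - ((m : ℝ) / N) / W) =
      1 / (W : ℝ) * ((∑ n ∈ Icc 1 N, G ((n : ℝ) / N)) / N) := by
    have e1 : ∑ n ∈ Icc 1 N, G ((n : ℝ) / N) = ∑ i ∈ range N, G (((i + 1 : ℕ) : ℝ) / N) := by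
      have hs := sum_Ico_add' (fun n : ℕ => G ((n : ℝ) / N)) 0 N 1
      have hI : Icc 1 N = Ico (0 + 1) (N + 1) := by
        ext i
        simp only [mem_Icc, mem_Ico]
        omega
      rw [range_eq_Ico, hI]
      exact hs.symm
    rw [e1, sum_div, mul_sum]
    apply sum_congr rfl
    intro m _
    push_cast
    field_simp
    ring
  rw [hDe, Metric.tendsto_atTop] at hD
  obtain ⟨I1, hI1⟩ := hD (ε / 4) (by positivity)
  obtain ⟨I2, hI2⟩ := eventually_atTop.1 (hXt.eventually_ge_atTop 1)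
  refine ⟨max I1 I2, fun i hi => ?_⟩
  have g1 := hI1 i ((le_max_left _ _).trans hi)
  have g2 := hI2 i ((le_max_right _ _).trans hi)
  have hXi : (0 : ℝ) < X i := by exact_mod_cast g2
  have hYi : (0 : ℝ) < Y i := by
    have h1 : (V i).Nonempty := card_pos.1 (by rw [hX i]; omega)
    obtain ⟨n, hn⟩ := h1
    have h2 := mem_Icc.1 (hV i hn)
    exact_mod_cast (by omega : 0 < Y i)
  -- comparison
  set A : ℕ → Finset ℕ := fun m => (V i).filter (fun n : ℕ => (n : ℝ) ≤ ((m : ℝ) / N) * Y i ∧ n % W = c % W) with hA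
  have hAmono : ∀ m, A m ⊆ A (m + 1) := by
    intro m n hn
    rw [hA] at hn ⊢
    simp only [mem_filter] at hn ⊢
    refine ⟨hn.1, hn.2.1.trans ?_, hn.2.2⟩
    apply mul_le_mul_of_nonneg_right _ hYi.le
    apply div_le_div_of_nonneg_right _ hNp.le
    push_cast
    linarith
  have hA0 : A 0 = ∅ := by
    rw [hA]
    simp only
    rw [filter_eq_empty_iff]
    rintro n hn ⟨h1, _⟩
    have h2 := (mem_Icc.1 (hV i hn)).1
    have h3 : (1 : ℝ) ≤ n := by exact_mod_cast h2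
    simp only [Nat.cast_zero, zero_div, zero_mul] at h1
    linarith
  have hAN : A N = (V i).filter (fun n : ℕ => n % W = c % W) := by
    rw [hA]
    simp only
    apply filter_congr
    intro n hn
    have h2 := (mem_Icc.1 (hV i hn)).2
    have h3 : (n : ℝ) ≤ Y i := by exact_mod_cast h2
    rw [div_self hNp.ne', one_mul]
    exact ⟨fun h => h.2, fun h => ⟨h3, h⟩⟩
  have hstep : ∀ m ∈ range N, |(∑ n ∈ A (m + 1), G ((n : ℝ) / Y i) - ∑ n ∈ A m, G ((n : ℝ) / Y i)) -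
      G (((m + 1 : ℕ) : ℝ) / N) * (((A (m + 1)).card : ℝ) - (A m).card)| ≤ ε / 4 * (((A (m + 1)).card : ℝ) - (A m).card) := by
    intro m hm
    have hm' := mem_range.1 hm
    have e1 : ∑ n ∈ A (m + 1), G ((n : ℝ) / Y i) - ∑ n ∈ A m, G ((n : ℝ) / Y i) = ∑ n ∈ A (m + 1) \ A m, G ((n : ℝ) / Y i) := by
      rw [← sum_sdiff (hAmono m)]
      ring
    have e2 : ((A (m + 1)).card : ℝ) - (A m).card = ((A (m + 1) \ A m).card : ℝ) := by
      rw [card_sdiff_of_subset (hAmono m), Nat.cast_sub (card_le_card (hAmono m))]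
    rw [e1, e2]
    have e3 : G (((m + 1 : ℕ) : ℝ) / N) * ((A (m + 1) \ A m).card : ℝ) = ∑ n ∈ A (m + 1) \ A m, G (((m + 1 : ℕ) : ℝ) / N) := by
      rw [sum_const, nsmul_eq_mul]
      ring
    rw [e3, ← sum_sub_distrib]
    refine (abs_sum_le_sum_abs _ _).trans ?_
    have e4 : ∀ n ∈ A (m + 1) \ A m, |G ((n : ℝ) / Y i) - G (((m + 1 : ℕ) : ℝ) / N)| ≤ ε / 4 := by
      intro n hn
      rw [Finset.mem_sdiff] at hn
      obtain ⟨h1, h2⟩ := hn
      rw [hA] at h1 h2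
      simp only [mem_filter] at h1 h2
      have h3 : ((m : ℝ) / N) * Y i < n := by
        by_contra h4
        rw [not_lt] at h4
        exact h2 ⟨h1.1, h4, h1.2.2⟩
      have h5 : (n : ℝ) / Y i ≤ ((m + 1 : ℕ) : ℝ) / N := by
        rw [div_le_iff₀ hYi]
        exact h1.2.1
      have h6 : (m : ℝ) / N < (n : ℝ) / Y i := by
        rw [lt_div_iff₀ hYi]
        exact h3
      have h7 : ((m + 1 : ℕ) : ℝ) / N ≤ 1 := by
        rw [div_le_one hNp]
        exact_mod_cast hm'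
      have h8 : (0 : ℝ) ≤ (m : ℝ) / N := by positivity
      have h9 : ((m + 1 : ℕ) : ℝ) / N = (m : ℝ) / N + 1 / N := by
        push_cast
        ring
      have h10 := hd ((n : ℝ) / Y i) ⟨by linarith, by linarith⟩ (((m + 1 : ℕ) : ℝ) / N) ⟨by positivity, h7⟩ (by
        rw [Real.dist_eq, abs_sub_comm, abs_of_nonneg (by linarith)]
        linarith)
      rw [Real.dist_eq] at h10
      exact h10.le
    refine (sum_le_sum e4).trans (le_of_eq ?_)
    rw [sum_const, nsmul_eq_mul]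
    ring
  have hcomp : |(∑ n ∈ (V i).filter (fun n : ℕ => n % W = c % W), G ((n : ℝ) / Y i)) / X i -
      ∑ m ∈ range N, G (((m + 1 : ℕ) : ℝ) / N) * (F i (m + 1) - F i m)| ≤ ε / 4 := by
    have e1 : (∑ n ∈ (V i).filter (fun n : ℕ => n % W = c % W), G ((n : ℝ) / Y i)) / X i -
        ∑ m ∈ range N, G (((m + 1 : ℕ) : ℝ) / N) * (F i (m + 1) - F i m) =
        (∑ m ∈ range N, ((∑ n ∈ A (m + 1), G ((n : ℝ) / Y i) - ∑ n ∈ A m, G ((n : ℝ) / Y i)) -
      G (((m + 1 : ℕ) : ℝ) / N) * (((A (m + 1)).card : ℝ) - (A m).card))) / X i := by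
      rw [sum_sub_distrib, sum_range_sub (fun m => ∑ n ∈ A m, G ((n : ℝ) / Y i)), hA0, hAN, sum_empty, sub_zero, sub_div]
      congr 1
      rw [sum_div]
      apply sum_congr rfl
      intro m _
      rw [hF, hA]
      simp only
      ring
    rw [e1, abs_div, abs_of_pos hXi, div_le_iff₀ hXi]
    refine (abs_sum_le_sum_abs _ _).trans ((sum_le_sum hstep).trans ?_)
    rw [← mul_sum, sum_range_sub (fun m => ((A m).card : ℝ)), hA0, card_empty, Nat.cast_zero, sub_zero]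
    apply mul_le_mul_of_nonneg_left _ (by positivity)
    rw [← hX i, hAN]
    exact_mod_cast card_le_card (filter_subset _ _)
  rw [Real.dist_eq] at g1 hR' ⊢
  have e5 : (∫ x in (0:ℝ)..1, G x) / W = 1 / (W : ℝ) * ∫ x in (0:ℝ)..1, G x := by ring
  rw [e5]
  have h1 := abs_add_le ((∑ n ∈ (V i).filter (fun n : ℕ => n % W = c % W), G ((n : ℝ) / Y i)) / X i -
      ∑ m ∈ range N, G (((m + 1 : ℕ) : ℝ) / N) * (F i (m + 1) - F i m))
    (∑ m ∈ range N, G (((m + 1 : ℕ) : ℝ) / N) * (F i (m + 1) - F i m) - 1 / (W : ℝ) * ((∑ n ∈ Icc 1 N, G ((n : ℝ) / N)) / N))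
  rw [sub_add_sub_cancel] at h1
  have h2 := abs_add_le ((∑ n ∈ (V i).filter (fun n : ℕ => n % W = c % W), G ((n : ℝ) / Y i)) / X i -
      1 / (W : ℝ) * ((∑ n ∈ Icc 1 N, G ((n : ℝ) / N)) / N))
    (1 / (W : ℝ) * ((∑ n ∈ Icc 1 N, G ((n : ℝ) / N)) / N) - 1 / (W : ℝ) * ∫ x in (0:ℝ)..1, G x)
  rw [sub_add_sub_cancel] at h2
  linarith

/-- the class sums -/
theorem eqd_sum (Q : ℕ → Prop) (hQ : Cnt Q) (ρ u : ℝ) (X Y k : ℕ → ℕ) (hρ : 0 ≤ ρ) (hX : Tendsto X atTop atTop)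
    (hXY : ∀ i, X i ≤ Y i) (hrho : Tendsto (fun i => Real.log (X i) / Real.log (Y i)) atTop (𝓝 ρ))
    (hk : Tendsto (fun i => ((k i : ℝ) - Real.log (X i) * Real.log (Y i)) / Real.log (Y i)) atTop (𝓝 u))
    (V : ℕ → Finset ℕ) (hV : ∀ i, V i ⊆ Icc 1 (Y i)) (hVX : ∀ i, (V i).card = X i) (hE : Eqd V X Y)
    (W : ℕ) [NeZero W] (c : ZMod W) :
    Tendsto (fun i => ∑ n ∈ (V i).filter (fun n : ℕ => (n : ZMod W) = c), (1 - th Q (Y i) n) ^ (k i)) atTop
      (𝓝 (cst ρ * Real.exp (-u) / W)) := by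
  obtain ⟨_, M, _, ⟨δ, hδ, hkey⟩, _⟩ := point_key Q hQ ρ u X Y k hρ hX hXY hrho hk
  have hW : 0 < W := Nat.pos_of_ne_zero (NeZero.ne W)
  set G : ℝ → ℝ := fun x => Real.exp (-u) * Real.exp (ρ * (psi0 x - 3 / 2)) with hG
  have hGc : Continuous G := by
    simp only [hG]
    have := psi0_cont
    fun_prop
  have h1 := eqd_cont V X Y hV hVX hE hX G hGc W c.val hW
  have e1 : (∫ x in (0:ℝ)..1, G x) = cst ρ * Real.exp (-u) := by
    simp only [hG, psi0]
    rw [intervalIntegral.integral_const_mul]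
    unfold cst
    ring
  rw [e1] at h1
  have hf : ∀ i, (V i).filter (fun n : ℕ => (n : ZMod W) = c) = (V i).filter (fun n : ℕ => n % W = c.val % W) := by
    intro i
    apply filter_congr
    intro n _
    constructor
    · intro h
      rw [← h, ZMod.val_natCast, Nat.mod_mod]
    · intro h
      rw [← ZMod.natCast_zmod_val c]
      exact (ZMod.natCast_eq_natCast_iff' _ _ _).2 h
  have h2 : Tendsto (fun i => ∑ n ∈ (V i).filter (fun n : ℕ => (n : ZMod W) = c), (1 - th Q (Y i) n) ^ (k i) -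
      (∑ n ∈ (V i).filter (fun n : ℕ => n % W = c.val % W), G ((n : ℝ) / Y i)) / X i) atTop (𝓝 0) := by
    refine squeeze_zero_norm' (a := δ) ?_ hδ
    filter_upwards [hkey, hX.eventually_ge_atTop 1] with i hi hXi
    have hX0 : (0 : ℝ) < X i := by exact_mod_cast hXi
    rw [hf i, Real.norm_eq_abs]
    have e2 : ∑ n ∈ (V i).filter (fun n : ℕ => n % W = c.val % W), (1 - th Q (Y i) n) ^ (k i) -
        (∑ n ∈ (V i).filter (fun n : ℕ => n % W = c.val % W), G ((n : ℝ) / Y i)) / X i =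
        (∑ n ∈ (V i).filter (fun n : ℕ => n % W = c.val % W), ((X i : ℝ) * (1 - th Q (Y i) n) ^ (k i) - G ((n : ℝ) / Y i))) / X i := by
      have e3 : ∑ n ∈ (V i).filter (fun n : ℕ => n % W = c.val % W), (X i : ℝ) * (1 - th Q (Y i) n) ^ (k i) =
          X i * ∑ n ∈ (V i).filter (fun n : ℕ => n % W = c.val % W), (1 - th Q (Y i) n) ^ (k i) := by rw [mul_sum]
      rw [sum_sub_distrib, e3, sub_div, mul_div_cancel_left₀ _ hX0.ne']
    rw [e2, abs_div, abs_of_pos hX0, div_le_iff₀ hX0]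
    refine (abs_sum_le_sum_abs _ _).trans ?_
    have hδ0 : 0 ≤ δ i ∨ (V i).filter (fun n : ℕ => n % W = c.val % W) = ∅ := by
      rcases ((V i).filter (fun n : ℕ => n % W = c.val % W)).eq_empty_or_nonempty with h | ⟨n, hn⟩
      · right
        exact h
      · left
        exact (abs_nonneg _).trans (hi n (hV i (mem_filter.1 hn).1))
    rcases hδ0 with h0 | h0
    · refine (sum_le_sum (fun n hn => hi n (hV i (mem_filter.1 hn).1))).trans ?_
      rw [sum_const, nsmul_eq_mul, mul_comm]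
      apply mul_le_mul_of_nonneg_left _ h0
      rw [← hVX i]
      exact_mod_cast card_le_card (filter_subset _ _)
    · rw [h0, sum_empty]
      have hne : (Icc 1 (Y i)).Nonempty := ⟨1, mem_Icc.2 ⟨le_rfl, hXi.trans (hXY i)⟩⟩
      obtain ⟨n, hn⟩ := hne
      have := (abs_nonneg _).trans (hi n hn)
      positivity
  have h3 := h2.add h1
  rw [zero_add] at h3
  refine h3.congr fun i => ?_
  ring

/-- the primes -/
theorem cnt_prime : Cnt Nat.Prime := by
  obtain ⟨C, hC, h⟩ := pc_err3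
  obtain ⟨Y₀, hY₀⟩ := eventually_atTop.1 (growth3 4)
  refine ⟨C + 1, Y₀, by linarith, fun Y hY n hn hnY => ?_⟩
  obtain ⟨h1, h2, h3⟩ := hY₀ Y hY
  have h4 := h Y n hn hnY h3
  rw [lis_eq n Y hn, ← count_eq] at h4
  refine (le_of_eq (congrArg (fun t : ℕ => |(t : ℝ) - ∑ m ∈ Ioc n (n + Y), 1 / Real.log m|)
    (Pool.Agent.Q145.RA.card_filter_inst _ _ _ _))).trans (h4.trans ?_)
  have h6 : (C + 1) * ((Y : ℝ) / Real.log Y ^ 3) = C * (Y / Real.log Y ^ 3) + Y / Real.log Y ^ 3 := by ring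
  rw [h6]
  linarith

end Pool.Agent.Q145.GQ
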