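import Pool.Agent.Q145.GQ.Proc
import Pool.Agent.Q145.GC.Fin
import Pool.Agent.Q178.GC.Sub

set_option autoImplicit false
set_option maxHeartbeats 4000000

/-! # The limit law for sets without correlations -/

namespace Pool.Agent.Q145.GQ

open Finset MeasureTheory ProbabilityTheory Filter Topology
open Pool.Agent.Q145.RA (seqs card_seqs surv card_filter_inst card_restrict missed_surv)
open Pool.Agent.Q145.GP (poi freq poi_nonneg)
open Pool.Agent.Q162.GC (log_one_sub_ge)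
open Pool.Agent.Q145.GC (free cheb bad bad_mono bad_le poi_lip poi_cont poi_le_one Cond engine dg cl qd ud jn jp d2 c2 pm cme ell
  cst cst_pos bino S_Sub2)

open scoped Classical

/-- the relation -/
def Rq (Q : ℕ → Prop) (n s : ℕ) : Prop := Q (n + s)

/-- one class -/
def uu (_ : ℕ) : Unit := ()

theorem joint_one (Q : ℕ → Prop) (V : Finset ℕ) (Y K k b : ℕ) (h : k ≤ K) (hY : 1 ≤ Y) :
    joint Q V Y K (fun _ : Fin 1 => k) (fun _ => b) = freq (Icc 1 Y) V (Rq Q) k b := by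
  unfold joint freq
  have hc : (Icc 1 Y).card = Y := by rw [Nat.card_Icc, Nat.add_sub_cancel]
  have h1 : ((Fintype.piFinset (fun _ : Fin K => Icc 1 Y)).filter (fun a => ∀ l : Fin 1, mis Q V a k = b)) =
      (seqs (Icc 1 Y) K).filter (fun s => surv (Rq Q) V (fun i => s (Fin.castLE h i)) = b) := by
    unfold seqs
    apply filter_congr
    intro s _
    rw [← missed_surv (Rq Q) V h s]
    have h5 : mis Q V s k = (Pool.Agent.Q145.RA.missed (Rq Q) V k s).card := by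
      unfold mis Pool.Agent.Q145.RA.missed Rq
      exact card_filter_inst _ _ _ _
    rw [h5]
    constructor
    · intro h2
      exact h2 0
    · intro h2 _
      exact h2
  have h3 : (((seqs (Icc 1 Y) K).filter (fun s => surv (Rq Q) V (fun i => s (Fin.castLE h i)) = b)).card : ℝ) =
      (((seqs (Icc 1 Y) k).filter (fun s => surv (Rq Q) V s = b)).card : ℝ) * (Y : ℝ) ^ (K - k) := by
    have h4 := free (Icc 1 Y) h (fun s => surv (Rq Q) V s = b)
    rw [hc] at h4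
    exact_mod_cast (card_filter_inst _ _ _ _).trans (h4.trans (congrArg (· * Y ^ (K - k)) (card_filter_inst _ _ _ _)))
  rw [h1, h3, hc]
  have hY0 : (0 : ℝ) < Y := by exact_mod_cast hY
  have h2 : (Y : ℝ) ^ K = (Y : ℝ) ^ k * (Y : ℝ) ^ (K - k) := by rw [← pow_add, Nat.add_sub_cancel' h]
  rw [h2]
  push_cast
  field_simp


theorem cl_uu (S : Finset ℕ) (t : Unit) : cl S uu t = S := by
  unfold cl
  exact @Finset.filter_true_of_mem _ _ (fun a => Classical.propDecidable (uu a = t)) _ (fun s _ => rfl)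

theorem qd_uu (S : Finset ℕ) (hS : S.Nonempty) (t : Unit) : qd S uu t = 1 := by
  unfold qd
  rw [cl_uu, div_self]
  exact_mod_cast hS.card_pos.ne'

theorem ud_uu (S : Finset ℕ) (R : ℕ → ℕ → Prop) (n : ℕ) (t : Unit) : ud S uu R n t = dg S R n := by
  unfold ud dg
  rw [cl_uu]

theorem dg_th (Q : ℕ → Prop) (Y n : ℕ) : dg (Icc 1 Y) (Rq Q) n = th Q Y n := by
  unfold dg th Rq
  rw [Nat.card_Icc, Nat.add_sub_cancel]

theorem th_nonneg (Q : ℕ → Prop) (Y n : ℕ) : 0 ≤ th Q Y n := by unfold th; positivity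

theorem th_le_one (Q : ℕ → Prop) (Y n : ℕ) : th Q Y n ≤ 1 := by
  unfold th
  apply div_le_one_of_le₀ _ (Nat.cast_nonneg _)
  have := card_filter_le (Icc 1 Y) (fun s => Q (n + s))
  rw [Nat.card_Icc, Nat.add_sub_cancel] at this
  exact_mod_cast this

theorem jn_two (Q : ℕ → Prop) (Y n m : ℕ) (t : Unit) : jn (Icc 1 Y) uu (Rq Q) {n, m} t =
    (((Icc 1 Y).filter (fun s => Q (n + s) ∧ Q (m + s))).card : ℝ) / Y := by
  unfold jn
  rw [cl_uu, Nat.card_Icc, Nat.add_sub_cancel]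
  congr 3
  apply filter_congr
  intro s _
  unfold Rq
  simp

theorem jn_three (Q : ℕ → Prop) (Y n m l : ℕ) (t : Unit) : jn (Icc 1 Y) uu (Rq Q) {n, m, l} t =
    (((Icc 1 Y).filter (fun s => Q (n + s) ∧ Q (m + s) ∧ Q (l + s))).card : ℝ) / Y := by
  unfold jn
  rw [cl_uu, Nat.card_Icc, Nat.add_sub_cancel]
  congr 3
  apply filter_congr
  intro s _
  unfold Rq
  simp

theorem pr2_sym (Q : ℕ → Prop) (h : Pr2 Q) : ∃ (C : ℝ) (Y₀ : ℕ), 0 < C ∧ ∀ Y : ℕ, Y₀ ≤ Y → ∀ n m : ℕ, 1 ≤ n → n ≤ Y → 1 ≤ m → m ≤ Y → n ≠ m →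
    |(((Icc 1 Y).filter (fun s => Q (n + s) ∧ Q (m + s))).card : ℝ) - Y / Real.log Y ^ 2| ≤ C * (Y / Real.log Y ^ 3) := by
  obtain ⟨C, Y₀, hC, h1⟩ := h
  refine ⟨C, Y₀, hC, fun Y hY n m n1 n2 m1 m2 hnm => ?_⟩
  rcases lt_or_gt_of_ne hnm with h2 | h2
  · exact h1 Y hY n m n1 h2 m2
  · have h3 := h1 Y hY m n m1 h2 n2
    have e : (Icc 1 Y).filter (fun s => Q (n + s) ∧ Q (m + s)) = (Icc 1 Y).filter (fun s => Q (m + s) ∧ Q (n + s)) :=
      filter_congr fun s _ => and_comm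
    rw [e]
    exact h3

theorem tr3_sym (Q : ℕ → Prop) (h : Tr3 Q) : ∃ (C : ℝ) (Y₀ : ℕ), 0 < C ∧ ∀ Y : ℕ, Y₀ ≤ Y → ∀ n m l : ℕ, 1 ≤ n → n ≤ Y → 1 ≤ m → m ≤ Y →
    1 ≤ l → l ≤ Y → n ≠ m → n ≠ l → m ≠ l →
    (((Icc 1 Y).filter (fun s => Q (n + s) ∧ Q (m + s) ∧ Q (l + s))).card : ℝ) ≤ C * (Y / Real.log Y ^ 3) := by
  obtain ⟨C, Y₀, hC, h1⟩ := h
  refine ⟨C, Y₀, hC, fun Y hY n m l n1 n2 m1 m2 l1 l2 hnm hnl hml => ?_⟩
  have key : ∀ x y z : ℕ, 1 ≤ x → x < y → y < z → z ≤ Y → (∀ s, (Q (n + s) ∧ Q (m + s) ∧ Q (l + s)) → Q (x + s) ∧ Q (y + s) ∧ Q (z + s)) →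
      (((Icc 1 Y).filter (fun s => Q (n + s) ∧ Q (m + s) ∧ Q (l + s))).card : ℝ) ≤ C * (Y / Real.log Y ^ 3) := by
    intro x y z hx hxy hyz hz h2
    refine le_trans ?_ (h1 Y hY x y z hx hxy hyz hz)
    exact_mod_cast card_le_card (fun s hs => by
      rw [mem_filter] at hs ⊢
      exact ⟨hs.1, h2 s hs.2⟩)
  rcases lt_or_gt_of_ne hnm with a | a
  · rcases lt_or_gt_of_ne hml with b | b
    · exact key n m l n1 a b l2 (fun s h => h)
    · rcases lt_or_gt_of_ne hnl with c | c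
      · exact key n l m n1 c b m2 (fun s h => ⟨h.1, h.2.2, h.2.1⟩)
      · exact key l n m l1 c a m2 (fun s h => ⟨h.2.2, h.1, h.2.1⟩)
  · rcases lt_or_gt_of_ne hml with b | b
    · rcases lt_or_gt_of_ne hnl with c | c
      · exact key m n l m1 a c l2 (fun s h => ⟨h.2.1, h.1, h.2.2⟩)
      · exact key m l n m1 b c n2 (fun s h => ⟨h.2.1, h.2.2, h.1⟩)
    · exact key l m n l1 b a n2 (fun s h => ⟨h.2.2, h.2.1, h.1⟩)

theorem pairQ_of (Q : ℕ → Prop) (h : Pr2 Q) : PairQ Q := by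
  obtain ⟨C, Y₀, hC, h1⟩ := pr2_sym Q h
  have hl : Tendsto (fun Y : ℕ => Real.log Y) atTop atTop := Real.tendsto_log_atTop.comp tendsto_natCast_atTop_atTop
  obtain ⟨Y₁, h2⟩ := eventually_atTop.1 ((hl.eventually_ge_atTop 1).and ((Real.tendsto_log_atTop.comp hl).eventually_ge_atTop 1))
  refine ⟨C + 1, by linarith, max Y₀ Y₁, fun Y hY n m n1 n2 m1 m2 hnm => ?_⟩
  obtain ⟨g1, g2⟩ := h2 Y ((le_max_right _ _).trans hY)
  simp only [Function.comp] at g2
  have g3 := (abs_le.1 (h1 Y ((le_max_left _ _).trans hY) n m n1 n2 m1 m2 hnm)).2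
  set L := Real.log (Y : ℝ) with hL
  have hL0 : 0 < L := by linarith
  have hY0 : (0 : ℝ) ≤ Y := Nat.cast_nonneg _
  have e1 : (Y : ℝ) / L ^ 3 ≤ Y / L ^ 2 := by
    apply div_le_div_of_nonneg_left hY0 (by positivity)
    exact pow_le_pow_right₀ g1 (by norm_num)
  calc (((Icc 1 Y).filter (fun s => Q (n + s) ∧ Q (m + s))).card : ℝ) ≤ Y / L ^ 2 + C * (Y / L ^ 3) := by linarith
    _ ≤ Y / L ^ 2 + C * (Y / L ^ 2) := by
        have := mul_le_mul_of_nonneg_left e1 hC.le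
        linarith
    _ = (C + 1) * (1 / L ^ 2) * Y := by ring
    _ ≤ (C + 1) * (Real.log L / L ^ 2) * Y := by
        apply mul_le_mul_of_nonneg_right _ hY0
        apply mul_le_mul_of_nonneg_left _ (by linarith)
        exact div_le_div_of_nonneg_right g2 (by positivity)


/-- **One threshold, all sets.** -/
theorem one_all (Q : ℕ → Prop) (h1 : Cnt Q) (h2 : Pr2 Q) (h3 : Tr3 Q) (ρ u : ℝ) (hρ : 0 ≤ ρ) (X Y k : ℕ → ℕ)
    (hX : Tendsto X atTop atTop) (hXY : ∀ i, X i ≤ Y i)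
    (hr : Tendsto (fun i => Real.log (X i) / Real.log (Y i)) atTop (𝓝 ρ))
    (hk : Tendsto (fun i => ((k i : ℝ) - Real.log (X i) * Real.log (Y i)) / Real.log (Y i)) atTop (𝓝 u))
    (j : ℕ) (ε : ℝ) (hε : 0 < ε) : ∃ C : ℝ, 1 ≤ C ∧ ∀ᶠ i in atTop,
    (∀ n ∈ Icc 1 (Y i), (1 - th Q (Y i) n) ^ (k i) ≤ C / X i) ∧ ∀ V ∈ powersetCard (X i) (Icc 1 (Y i)),
    |freq (Icc 1 (Y i)) V (Rq Q) (k i) j - poi (∑ n ∈ V, (1 - th Q (Y i) n) ^ (k i)) j| ≤ ε := by
  obtain ⟨hk2, M, hM, hpt⟩ := point_bd Q h1 ρ u X Y k hρ hX hXY hr hk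
  obtain ⟨CT, Y₅, hT⟩ := thb Q h1
  obtain ⟨C₂, Y₂, hC₂, hP2⟩ := pr2_sym Q h2
  obtain ⟨C₃, Y₃, hC₃, hP3⟩ := tr3_sym Q h3
  have hYt : Tendsto Y atTop atTop := tendsto_atTop_mono hXY hX
  have hXr : Tendsto (fun i => (X i : ℝ)) atTop atTop := (tendsto_natCast_atTop_atTop (R := ℝ)).comp hX
  have hL : Tendsto (fun i => Real.log (Y i : ℝ)) atTop atTop :=
    Real.tendsto_log_atTop.comp ((tendsto_natCast_atTop_atTop (R := ℝ)).comp hYt)
  set κ : ℝ := ρ + 1 with hκ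
  have hκ0 : 0 < κ := by linarith
  set CT' : ℝ := max CT 0 with hCT'
  have hCT0 : 0 ≤ CT' := le_max_right _ _
  set C : ℝ := Real.exp (8 * κ) * (M + 1) with hC
  have hC1 : 1 ≤ C := by
    have : 1 ≤ Real.exp (8 * κ) := Real.one_le_exp (by positivity)
    rw [hC]
    nlinarith
  have hMC : M ≤ C := by
    have : 1 ≤ Real.exp (8 * κ) := Real.one_le_exp (by positivity)
    rw [hC]
    nlinarith
  obtain ⟨B, hB, hE1⟩ := engine (α := ℕ) (β := ℕ) C C (by linarith) hC1 j ε hε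
  obtain ⟨η, hη, hE⟩ := hE1 (Real.exp (B * (κ * (5 + C₂)))) (Real.exp_pos _).le
  have hinv : ∀ c : ℝ, Tendsto (fun i => c / Real.log (Y i : ℝ)) atTop (𝓝 0) := fun c => hL.const_div_atTop c
  have v1 : ∀ᶠ i in atTop, (k i : ℝ) ≤ κ * Real.log (Y i) ^ 2 := by
    filter_upwards [hk2.eventually (gt_mem_nhds (show ρ < κ by linarith)), hL.eventually_gt_atTop 0] with i h1 h2
    have := (div_lt_iff₀ (show 0 < Real.log (Y i : ℝ) ^ 2 by positivity)).1 h1
    linarith
  refine ⟨C, hC1, ?_⟩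
  filter_upwards [hpt, v1, hL.eventually_ge_atTop (4 + CT'), (hinv (κ * (C₂ + 3 * CT'))).eventually (gt_mem_nhds hη),
    (hinv (κ * (C₃ + 8))).eventually (gt_mem_nhds hη), (hXr.const_div_atTop (C ^ 2)).eventually (gt_mem_nhds hη),
    hX.eventually_ge_atTop 1, hYt.eventually_ge_atTop (max Y₅ (max Y₂ Y₃))] with i gp g1 gL g2 g3 g4 gX gY
  have gY₅ : Y₅ ≤ Y i := (le_max_left _ _).trans gY
  have gY₂ : Y₂ ≤ Y i := ((le_max_left _ _).trans (le_max_right _ _)).trans gY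
  have gY₃ : Y₃ ≤ Y i := ((le_max_right _ _).trans (le_max_right _ _)).trans gY
  have gXY := hXY i
  have gY1 : 1 ≤ Y i := gX.trans gXY
  clear_value CT'
  set x := X i with hx
  set y := Y i with hy
  set K := k i with hK
  set L := Real.log (y : ℝ) with hLd
  have hL0 : 0 < L := by linarith
  have hL1 : 1 ≤ L := by linarith
  have hy0 : (0 : ℝ) < y := by exact_mod_cast gY1
  have hx0 : (0 : ℝ) < x := by exact_mod_cast gX
  have hK0 : (0 : ℝ) ≤ K := Nat.cast_nonneg K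
  -- degrees
  have hdeg : ∀ n ∈ Icc 1 y, |th Q y n - 1 / L| ≤ CT' / L ^ 2 := by
    intro n hn
    obtain ⟨n1, n2⟩ := mem_Icc.1 hn
    refine (hT y gY₅ n n1 n2).trans ?_
    apply div_le_div_of_nonneg_right _ (by positivity)
    rw [hCT']
    exact le_max_left _ _
  have hCL : CT' / L ^ 2 ≤ 1 / L := by
    rw [div_le_div_iff₀ (by positivity) hL0]
    nlinarith
  have hth2 : ∀ n ∈ Icc 1 y, th Q y n ≤ 2 / L := by
    intro n hn
    have h1 := (abs_le.1 (hdeg n hn)).2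
    have : (2 : ℝ) / L = 1 / L + 1 / L := by ring
    linarith
  have hK2 : (K : ℝ) / L ^ 2 ≤ κ := by
    rw [div_le_iff₀ (by positivity)]
    exact g1
  have hexp : ∀ n ∈ Icc 1 y, Real.exp (-(K * th Q y n)) ≤ C / x := by
    intro n hn
    have e1 := hth2 n hn
    have e0 := th_nonneg Q y n
    have e2 : th Q y n ≤ 1 / 2 := e1.trans (by
      rw [div_le_div_iff₀ hL0 (by norm_num)]
      linarith)
    have e3 := log_one_sub_ge e0 e2
    have e4 : (1 - th Q y n) ^ K = Real.exp (K * Real.log (1 - th Q y n)) := by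
      rw [mul_comm, Real.exp_mul, Real.exp_log (by linarith), Real.rpow_natCast]
    have e5 : (K : ℝ) * th Q y n ^ 2 ≤ 4 * κ := by
      calc (K : ℝ) * th Q y n ^ 2 ≤ K * (2 / L) ^ 2 := mul_le_mul_of_nonneg_left (pow_le_pow_left₀ e0 e1 2) hK0
        _ = 4 * (K / L ^ 2) := by ring
        _ ≤ 4 * κ := by linarith
    have e6 : -(K * th Q y n) ≤ K * Real.log (1 - th Q y n) + 8 * κ := by
      have := mul_le_mul_of_nonneg_left e3 hK0
      have e7 : (K : ℝ) * (-th Q y n - 2 * th Q y n ^ 2) = -(K * th Q y n) - 2 * (K * th Q y n ^ 2) := by ring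
      linarith
    have e8 := gp n hn
    calc Real.exp (-(K * th Q y n)) ≤ Real.exp (K * Real.log (1 - th Q y n) + 8 * κ) := Real.exp_le_exp.2 e6
      _ = (1 - th Q y n) ^ K * Real.exp (8 * κ) := by rw [Real.exp_add, e4]
      _ ≤ C / x := by
          rw [le_div_iff₀ hx0, hC]
          have e9 : (x : ℝ) * (1 - th Q y n) ^ K ≤ M + 1 := by linarith
          calc (1 - th Q y n) ^ K * Real.exp (8 * κ) * x = Real.exp (8 * κ) * (x * (1 - th Q y n) ^ K) := by ring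
            _ ≤ _ := mul_le_mul_of_nonneg_left e9 (Real.exp_pos _).le
  have hpow : ∀ n ∈ Icc 1 y, (1 - th Q y n) ^ K ≤ C / x := by
    intro n hn
    rw [le_div_iff₀ hx0]
    have := gp n hn
    linarith
  refine ⟨hpow, fun V hV => ?_⟩
  obtain ⟨hVU, hVc⟩ := mem_powersetCard.1 hV
  have hVc' : (V.card : ℝ) = x := by rw [hVc]
  have hVne : V.Nonempty := card_pos.1 (by omega)
  have hS : (Icc 1 y).Nonempty := ⟨1, mem_Icc.2 ⟨le_rfl, gY1⟩⟩
  have card2 : ((powersetCard 2 V).card : ℝ) ≤ (x : ℝ) ^ 2 := by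
    rw [← hVc', card_powersetCard]
    exact_mod_cast Nat.choose_le_pow V.card 2
  have card3 : ((powersetCard 3 V).card : ℝ) ≤ (x : ℝ) ^ 3 := by
    rw [← hVc', card_powersetCard]
    exact_mod_cast Nat.choose_le_pow V.card 3
  -- the joint densities
  have hj2 : ∀ n ∈ V, ∀ m ∈ V, n ≠ m → |jn (Icc 1 y) uu (Rq Q) {n, m} () - 1 / L ^ 2| ≤ C₂ / L ^ 3 := by
    intro n hn m hm hnm
    obtain ⟨n1, n2⟩ := mem_Icc.1 (hVU hn)
    obtain ⟨m1, m2⟩ := mem_Icc.1 (hVU hm)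
    have e1 := hP2 y gY₂ n m n1 n2 m1 m2 hnm
    rw [jn_two]
    have e2 : (((Icc 1 y).filter (fun s => Q (n + s) ∧ Q (m + s))).card : ℝ) / y - 1 / L ^ 2 =
        ((((Icc 1 y).filter (fun s => Q (n + s) ∧ Q (m + s))).card : ℝ) - y / L ^ 2) / y := by
      field_simp
    rw [e2, abs_div, abs_of_pos hy0, div_le_iff₀ hy0]
    refine e1.trans (le_of_eq ?_)
    rw [← hLd]
    ring
  have hjp2 : ∀ n m : ℕ, n ≠ m → jp (Icc 1 y) uu (Rq Q) {n, m} () = th Q y n * th Q y m := by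
    intro n m hnm
    unfold jp
    rw [qd_uu _ hS, one_mul, prod_pair hnm, ud_uu, ud_uu, dg_th, dg_th]
  have hth : ∀ n ∈ V, ∀ m ∈ V, |th Q y n * th Q y m - 1 / L ^ 2| ≤ 3 * CT' / L ^ 3 := by
    intro n hn m hm
    have e1 := hdeg n (hVU hn)
    have e2 := hdeg m (hVU hm)
    have e3 := hth2 m (hVU hm)
    have e4 : th Q y n * th Q y m - 1 / L ^ 2 = (th Q y n - 1 / L) * th Q y m + 1 / L * (th Q y m - 1 / L) := by
      field_simp
      ring
    rw [e4]
    refine (abs_add_le _ _).trans ?_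
    rw [abs_mul, abs_mul, abs_of_nonneg (th_nonneg Q y m), abs_of_pos (show 0 < 1 / L by positivity)]
    calc |th Q y n - 1 / L| * th Q y m + 1 / L * |th Q y m - 1 / L| ≤ CT' / L ^ 2 * (2 / L) + 1 / L * (CT' / L ^ 2) := by
          apply add_le_add
          · exact mul_le_mul e1 e3 (th_nonneg _ _ _) (by positivity)
          · exact mul_le_mul_of_nonneg_left e2 (by positivity)
      _ = _ := by
          field_simp
          ring
  have hcond : Cond (Icc 1 y) uu V (Rq Q) K η C C B (Real.exp (B * (κ * (5 + C₂)))) := by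
    refine ⟨fun n hn => ?_, ?_, ?_, ?_, ?_, ?_⟩
    · rw [dg_th, hVc']
      exact hexp n (hVU hn)
    · have h1 : ∀ n ∈ V, (1 - dg (Icc 1 y) (Rq Q) n) ^ K ≤ C / x := by
        intro n hn
        rw [dg_th]
        exact hpow n (hVU hn)
      refine (sum_le_sum h1).trans (le_of_eq ?_)
      rw [sum_const, nsmul_eq_mul, hVc']
      field_simp
    · have h1 : ∀ A ∈ powersetCard 2 V, K * d2 (Icc 1 y) uu (Rq Q) A ≤ η := by
        intro A hA
        obtain ⟨hAV, hAc⟩ := mem_powersetCard.1 hA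
        obtain ⟨n, m, hnm, rfl⟩ := card_eq_two.1 hAc
        have hn : n ∈ V := hAV (by simp)
        have hm : m ∈ V := hAV (by simp)
        unfold d2
        rw [Fintype.sum_unique]
        have e1 : |jn (Icc 1 y) uu (Rq Q) {n, m} () - jp (Icc 1 y) uu (Rq Q) {n, m} ()| ≤ (C₂ + 3 * CT') / L ^ 3 := by
          rw [hjp2 n m hnm]
          have e2 := hj2 n hn m hm hnm
          have e3 := hth n hn m hm
          have e4 : jn (Icc 1 y) uu (Rq Q) {n, m} () - th Q y n * th Q y m =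
              (jn (Icc 1 y) uu (Rq Q) {n, m} () - 1 / L ^ 2) - (th Q y n * th Q y m - 1 / L ^ 2) := by ring
          rw [e4]
          refine (abs_sub _ _).trans ((add_le_add e2 e3).trans (le_of_eq ?_))
          ring
        calc (K : ℝ) * |jn (Icc 1 y) uu (Rq Q) {n, m} default - jp (Icc 1 y) uu (Rq Q) {n, m} default| ≤
              κ * L ^ 2 * ((C₂ + 3 * CT') / L ^ 3) := mul_le_mul g1 e1 (abs_nonneg _) (by positivity)
          _ = κ * (C₂ + 3 * CT') / L := by field_simp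
          _ ≤ η := g2.le
      refine (sum_le_sum h1).trans ?_
      rw [sum_const, nsmul_eq_mul, hVc', mul_comm]
      exact mul_le_mul_of_nonneg_left card2 hη.le
    · have h1 : ∀ A ∈ powersetCard 2 V, Real.exp (B * (K * c2 (Icc 1 y) uu (Rq Q) A)) ≤ Real.exp (B * (κ * (5 + C₂))) := by
        intro A hA
        obtain ⟨hAV, hAc⟩ := mem_powersetCard.1 hA
        obtain ⟨n, m, hnm, rfl⟩ := card_eq_two.1 hAc
        have hn : n ∈ V := hAV (by simp)
        have hm : m ∈ V := hAV (by simp)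
        unfold c2
        rw [Fintype.sum_unique]
        apply Real.exp_le_exp.2
        apply mul_le_mul_of_nonneg_left _ hB.le
        have e1 : jn (Icc 1 y) uu (Rq Q) {n, m} () + jp (Icc 1 y) uu (Rq Q) {n, m} () ≤ (5 + C₂) / L ^ 2 := by
          rw [hjp2 n m hnm]
          have e2 := (abs_le.1 (hj2 n hn m hm hnm)).2
          have e3 : th Q y n * th Q y m ≤ 2 / L * (2 / L) :=
            mul_le_mul (hth2 n (hVU hn)) (hth2 m (hVU hm)) (th_nonneg _ _ _) (by positivity)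
          have e4 : C₂ / L ^ 3 ≤ C₂ / L ^ 2 := by
            apply div_le_div_of_nonneg_left hC₂.le (by positivity)
            exact pow_le_pow_right₀ hL1 (by norm_num)
          have e5 : (5 + C₂) / L ^ 2 = 1 / L ^ 2 + 2 / L * (2 / L) + C₂ / L ^ 2 := by
            field_simp
            ring
          rw [e5]
          linarith
        have e0 : 0 ≤ jn (Icc 1 y) uu (Rq Q) {n, m} () + jp (Icc 1 y) uu (Rq Q) {n, m} () :=
          add_nonneg (Pool.Agent.Q145.GC.jn_nonneg _ _ _ _ _) (Pool.Agent.Q145.GC.jp_nonneg _ _ _ _ _)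
        calc (K : ℝ) * (jn (Icc 1 y) uu (Rq Q) {n, m} default + jp (Icc 1 y) uu (Rq Q) {n, m} default) ≤
              κ * L ^ 2 * ((5 + C₂) / L ^ 2) := mul_le_mul g1 e1 e0 (by positivity)
          _ = κ * (5 + C₂) := by field_simp
      refine (sum_le_sum h1).trans ?_
      rw [sum_const, nsmul_eq_mul, hVc', mul_comm]
      exact mul_le_mul_of_nonneg_left card2 (Real.exp_pos _).le
    · have h1 : ∀ A ∈ powersetCard 3 V, K * c2 (Icc 1 y) uu (Rq Q) A ≤ η := by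
        intro A hA
        obtain ⟨hAV, hAc⟩ := mem_powersetCard.1 hA
        obtain ⟨n, m, l, hnm, hnl, hml, rfl⟩ := card_eq_three.1 hAc
        have hn : n ∈ V := hAV (by simp)
        have hm : m ∈ V := hAV (by simp)
        have hl : l ∈ V := hAV (by simp)
        obtain ⟨n1, n2⟩ := mem_Icc.1 (hVU hn)
        obtain ⟨m1, m2⟩ := mem_Icc.1 (hVU hm)
        obtain ⟨l1, l2⟩ := mem_Icc.1 (hVU hl)
        unfold c2
        rw [Fintype.sum_unique]
        have e1 : jn (Icc 1 y) uu (Rq Q) {n, m, l} () ≤ C₃ / L ^ 3 := by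
          rw [jn_three, div_le_iff₀ hy0]
          refine (hP3 y gY₃ n m l n1 n2 m1 m2 l1 l2 hnm hnl hml).trans (le_of_eq ?_)
          rw [← hLd]
          ring
        have e2 : jp (Icc 1 y) uu (Rq Q) {n, m, l} () ≤ 8 / L ^ 3 := by
          have e3 : jp (Icc 1 y) uu (Rq Q) {n, m, l} () = th Q y n * (th Q y m * th Q y l) := by
            unfold jp
            rw [qd_uu _ hS, one_mul, prod_insert (by simp [hnm, hnl]), prod_pair hml, ud_uu, ud_uu, ud_uu, dg_th, dg_th, dg_th]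
          rw [e3]
          have e4 : th Q y m * th Q y l ≤ 2 / L * (2 / L) :=
            mul_le_mul (hth2 m (hVU hm)) (hth2 l (hVU hl)) (th_nonneg _ _ _) (by positivity)
          have e5 : th Q y n * (th Q y m * th Q y l) ≤ 2 / L * (2 / L * (2 / L)) :=
            mul_le_mul (hth2 n (hVU hn)) e4 (mul_nonneg (th_nonneg _ _ _) (th_nonneg _ _ _)) (by positivity)
          refine e5.trans (le_of_eq ?_)
          field_simp
          norm_num
        have e0 : 0 ≤ jn (Icc 1 y) uu (Rq Q) {n, m, l} () + jp (Icc 1 y) uu (Rq Q) {n, m, l} () :=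
          add_nonneg (Pool.Agent.Q145.GC.jn_nonneg _ _ _ _ _) (Pool.Agent.Q145.GC.jp_nonneg _ _ _ _ _)
        have e6 : jn (Icc 1 y) uu (Rq Q) {n, m, l} () + jp (Icc 1 y) uu (Rq Q) {n, m, l} () ≤ (C₃ + 8) / L ^ 3 := by
          have : (C₃ + 8) / L ^ 3 = C₃ / L ^ 3 + 8 / L ^ 3 := by ring
          linarith
        calc (K : ℝ) * (jn (Icc 1 y) uu (Rq Q) {n, m, l} default + jp (Icc 1 y) uu (Rq Q) {n, m, l} default) ≤
              κ * L ^ 2 * ((C₃ + 8) / L ^ 3) := mul_le_mul g1 e6 e0 (by positivity)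
          _ = κ * (C₃ + 8) / L := by field_simp
          _ ≤ η := g3.le
      refine (sum_le_sum h1).trans ?_
      rw [sum_const, nsmul_eq_mul, hVc', mul_comm]
      exact mul_le_mul_of_nonneg_left card3 hη.le
    · have h1 : ∀ n ∈ V, (∑ t : Unit, qd (Icc 1 y) uu t * (1 - ud (Icc 1 y) uu (Rq Q) n t) ^ 2) ^ K ≤ C / x * (C / x) := by
        intro n hn
        rw [Fintype.sum_unique, qd_uu _ hS, one_mul, ud_uu, dg_th, ← pow_mul, mul_comm, pow_mul, sq]
        have e1 := hpow n (hVU hn)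
        have e2 : 0 ≤ (1 - th Q y n) ^ K := pow_nonneg (by linarith [th_le_one Q y n]) _
        exact mul_le_mul e1 e1 e2 (by positivity)
      refine (sum_le_sum h1).trans ?_
      rw [sum_const, nsmul_eq_mul, hVc']
      refine le_trans (le_of_eq ?_) g4.le
      field_simp
  have r1 := hE Unit (Icc 1 y) uu V (Rq Q) K hS hVne hcond
  have r2 : ∑ t : Fin K → Unit, pm (Icc 1 y) uu t * poi (cme (Icc 1 y) uu V (Rq Q) t) j =
      poi (∑ n ∈ V, (1 - th Q y n) ^ K) j := by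
    rw [Fintype.sum_unique]
    have e1 : pm (Icc 1 y) uu (default : Fin K → Unit) = 1 := by
      unfold pm
      exact prod_eq_one fun i _ => qd_uu _ hS _
    have e2 : cme (Icc 1 y) uu V (Rq Q) (default : Fin K → Unit) = ∑ n ∈ V, (1 - th Q y n) ^ K := by
      unfold cme ell
      apply sum_congr rfl
      intro n _
      have : ∀ i : Fin K, 1 - ud (Icc 1 y) uu (Rq Q) n ((default : Fin K → Unit) i) = 1 - th Q y n := by
        intro i
        rw [ud_uu, dg_th]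
      rw [prod_congr rfl fun i _ => this i, prod_const, card_univ, Fintype.card_fin]
    rw [e1, e2, one_mul]
  rw [r2] at r1
  exact r1

/-- **The process of the missed points for sets without correlations.** -/
theorem process (Q : ℕ → Prop) (h1 : Cnt Q) (h2 : Pr2 Q) (h3 : Tr3 Q) (ρ : ℝ) (hρ : 0 ≤ ρ)
    (r : ℕ) (u : Fin (r + 1) → ℝ) (X Y K : ℕ → ℕ) (k : ℕ → Fin (r + 1) → ℕ)
    (hX : Tendsto X atTop atTop) (hXY : ∀ i, X i ≤ Y i)
    (hr : Tendsto (fun i => Real.log (X i) / Real.log (Y i)) atTop (𝓝 ρ))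
    (hm : ∀ i, Monotone (k i)) (hK : ∀ i l, k i l ≤ K i)
    (hk : ∀ l, Tendsto (fun i => ((k i l : ℝ) - Real.log (X i) * Real.log (Y i)) / Real.log (Y i)) atTop (𝓝 (u l)))
    (b : Fin (r + 1) → ℕ) (ε δ : ℝ) (hε : 0 < ε) (hδ : 0 < δ) : ∀ᶠ i in atTop,
    bad (X i) (Y i) (fun V => ¬ |joint Q V (Y i) (K i) (k i) b -
      poi (cst ρ * Real.exp (-(u 0))) (b 0) *
        ∏ l : Fin r, bino (b l.castSucc) (b l.succ) (Real.exp (-(u l.succ - u l.castSucc)))| ≤ ε) ≤ δ := by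
  set lam : Fin (r + 1) → ℝ := fun l => cst ρ * Real.exp (-(u l)) with hlam
  have hc := cst_pos ρ
  have hlam0 : ∀ l, 0 < lam l := fun l => mul_pos hc (Real.exp_pos _)
  have hmean : ∀ l, Tendsto (fun i => mean Q (X i) (Y i) (k i l)) atTop (𝓝 (lam l)) := by
    intro l
    have h1 := mean_lim Q h1 ρ (u l) X Y (fun i => k i l) hρ hX hXY hr (hk l)
    unfold mean
    rw [hlam]
    simp only
    rw [mul_comm (cst ρ)]
    exact h1
  set P : ℝ := ∏ l : Fin r, bino (b l.castSucc) (b l.succ) (Real.exp (-(u l.succ - u l.castSucc))) with hP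
  have hq : ∀ l : Fin r, lam l.succ / lam l.castSucc = Real.exp (-(u l.succ - u l.castSucc)) := by
    intro l
    rw [hlam]
    simp only
    rw [mul_div_mul_left _ _ hc.ne', ← Real.exp_sub]
    congr 1
    ring
  have g1 := proc Q (thb Q h1) (pairQ_of Q h2) r lam X Y K k hX hXY hm hK hlam0 hmean b (ε / 2) (by positivity)
  set ε' : ℝ := ε / (4 * (|P| + 1)) with hε'
  have hε'0 : 0 < ε' := by positivity
  obtain ⟨C, hC1, g2⟩ := one_all Q h1 h2 h3 ρ (u 0) hρ X Y (fun i => k i 0) hX hXY hr (hk 0) (b 0) ε' hε'0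
  have hXr : Tendsto (fun i => (X i : ℝ)) atTop atTop := (tendsto_natCast_atTop_atTop (R := ℝ)).comp hX
  have hYt : Tendsto Y atTop atTop := tendsto_atTop_mono hXY hX
  have v1 : ∀ᶠ i in atTop, C ^ 2 / ((ε' / 2) ^ 2 * X i) ≤ δ := by
    have h1 : Tendsto (fun i => (C ^ 2 / (ε' / 2) ^ 2) / (X i : ℝ)) atTop (𝓝 0) := hXr.const_div_atTop _
    filter_upwards [h1.eventually (gt_mem_nhds hδ)] with i h2
    refine le_trans (le_of_eq ?_) h2.le
    rw [div_mul_eq_div_div]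
  have v2 : ∀ᶠ i in atTop, |mean Q (X i) (Y i) (k i 0) - lam 0| ≤ ε' / 2 := by
    have := (tendsto_order.1 (((hmean 0).sub_const (lam 0)).abs)).2 (ε' / 2) (by simp; positivity)
    exact this.mono fun i h => h.le
  filter_upwards [g1, g2, v1, v2, hX.eventually_ge_atTop 1] with i f1 f2 f3 f4 gX
  have gXY := hXY i
  have gY1 : 1 ≤ Y i := gX.trans gXY
  have hcU : (Icc 1 (Y i)).card = Y i := by rw [Nat.card_Icc, Nat.add_sub_cancel]
  have b1 : bad (X i) (Y i) (fun V => ¬ |∑ n ∈ V, (1 - th Q (Y i) n) ^ (k i 0) -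
      (X i : ℝ) / Y i * ∑ n ∈ Icc 1 (Y i), (1 - th Q (Y i) n) ^ (k i 0)| ≤ ε' / 2) ≤ δ := by
    have h2 := cheb Pool.Agent.Q178.GC.sub2 (Icc 1 (Y i)) (X i) (fun n => (1 - th Q (Y i) n) ^ (k i 0))
      (by rw [hcU]; exact gXY) gX C (ε' / 2) (by linarith) (by positivity) (fun n hn => by
        rw [abs_of_nonneg (pow_nonneg (by linarith [th_le_one Q (Y i) n]) _)]
        exact f2.1 n hn)
    rw [hcU] at h2
    exact (bad_le (X i) (Y i) gXY _ _ h2).trans f3
  refine (bad_mono _ _ _ _ ?_).trans b1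
  intro V hV
  contrapose!
  intro g4
  have g5 := f1 V hV
  have g6 : ∏ l : Fin r, bino (b l.castSucc) (b l.succ) (lam l.succ / lam l.castSucc) = P := by
    rw [hP]
    exact prod_congr rfl fun l _ => by rw [hq l]
  rw [g6, joint_one Q V (Y i) (K i) (k i 0) (b 0) (hK i 0) gY1] at g5
  have g7 := f2.2 V hV
  set T : ℝ := ∑ n ∈ V, (1 - th Q (Y i) n) ^ (k i 0) with hT
  have hT0 : 0 ≤ T := sum_nonneg fun n _ => pow_nonneg (by linarith [th_le_one Q (Y i) n]) _
  have g8 : (X i : ℝ) / Y i * ∑ n ∈ Icc 1 (Y i), (1 - th Q (Y i) n) ^ (k i 0) = mean Q (X i) (Y i) (k i 0) := by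
    unfold mean
    ring
  rw [g8] at g4
  have g9 : |T - lam 0| ≤ ε' := by
    have := abs_add_le (T - mean Q (X i) (Y i) (k i 0)) (mean Q (X i) (Y i) (k i 0) - lam 0)
    rw [sub_add_sub_cancel] at this
    linarith
  have g10 : |poi T (b 0) - poi (lam 0) (b 0)| ≤ ε' := by
    have := poi_lip (b 0) T (lam 0) hT0 (hlam0 0).le
    linarith
  have g11 : |freq (Icc 1 (Y i)) V (Rq Q) (k i 0) (b 0) - poi (lam 0) (b 0)| ≤ 2 * ε' := by
    have := abs_add_le (freq (Icc 1 (Y i)) V (Rq Q) (k i 0) (b 0) - poi T (b 0)) (poi T (b 0) - poi (lam 0) (b 0))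
    rw [sub_add_sub_cancel] at this
    linarith
  have g12 : |freq (Icc 1 (Y i)) V (Rq Q) (k i 0) (b 0) * P - poi (lam 0) (b 0) * P| ≤ ε / 2 := by
    rw [← sub_mul, abs_mul]
    calc |freq (Icc 1 (Y i)) V (Rq Q) (k i 0) (b 0) - poi (lam 0) (b 0)| * |P| ≤ 2 * ε' * (|P| + 1) := by
          apply mul_le_mul g11 _ (abs_nonneg _) (by positivity)
          linarith
      _ = ε / 2 := by
          rw [hε']
          field_simp
          norm_num
  have g13 := abs_add_le (joint Q V (Y i) (K i) (k i) b - freq (Icc 1 (Y i)) V (Rq Q) (k i 0) (b 0) * P)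
    (freq (Icc 1 (Y i)) V (Rq Q) (k i 0) (b 0) * P - poi (lam 0) (b 0) * P)
  rw [sub_add_sub_cancel] at g13
  linarith

end Pool.Agent.Q145.GQ
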