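import Pool.Agent.Q145.GQ.Spec

set_option autoImplicit false
set_option maxHeartbeats 4000000

/-! # The method of bounded differences for independent events -/

namespace Pool.Agent.Q145.GQ

open Finset MeasureTheory ProbabilityTheory Filter Topology

open scoped Classical

variable {Ω : Type} [MeasurableSpace Ω] {P : Measure Ω} [IsProbabilityMeasure P] {E : ℕ → Set Ω}

/-- the random set -/
noncomputable def rs (E : ℕ → Set Ω) (F : Finset ℕ) (ω : Ω) : Finset ℕ := F.filter (fun n => ω ∈ E n)

/-- the elementary sets -/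
def gs (E : ℕ → Set Ω) (T : Finset ℕ) (n : ℕ) : Set Ω := if n ∈ T then E n else (E n)ᶜ

omit [MeasurableSpace Ω] in
theorem rs_eq (F T : Finset ℕ) (hT : T ⊆ F) : {ω | rs E F ω = T} = ⋂ n ∈ F, gs E T n := by
  ext ω
  simp only [Set.mem_ofPred_eq, Set.mem_iInter]
  unfold rs gs
  constructor
  · intro h n hn
    split_ifs with h1
    · rw [← h] at h1
      exact (mem_filter.1 h1).2
    · intro h2
      exact h1 (by rw [← h]; exact mem_filter.2 ⟨hn, h2⟩)
  · intro h
    ext n
    rw [mem_filter]
    constructor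
    · rintro ⟨h1, h2⟩
      by_contra h3
      have := h n h1
      rw [if_neg h3] at this
      exact this h2
    · intro h1
      have := h n (hT h1)
      rw [if_pos h1] at this
      exact ⟨hT h1, this⟩

omit [MeasurableSpace Ω] in
theorem gs_meas (T : Finset ℕ) (n : ℕ) : MeasurableSet[MeasurableSpace.generateFrom {E n}] (gs E T n) := by
  unfold gs
  split_ifs
  · exact MeasurableSpace.measurableSet_generateFrom (Set.mem_singleton _)
  · exact (MeasurableSpace.measurableSet_generateFrom (Set.mem_singleton _)).compl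

theorem rs_measurable (hE : ∀ n, MeasurableSet (E n)) (F T : Finset ℕ) : MeasurableSet {ω | rs E F ω = T} := by
  by_cases hT : T ⊆ F
  · rw [rs_eq F T hT]
    refine Finset.measurableSet_biInter _ fun n _ => ?_
    unfold gs
    split_ifs
    · exact hE n
    · exact (hE n).compl
  · have : {ω | rs E F ω = T} = ∅ := by
      ext ω
      simp only [Set.mem_ofPred_eq, Set.mem_empty_iff_false, iff_false]
      intro h
      exact hT (by rw [← h]; exact filter_subset _ _)
    rw [this]
    exact MeasurableSet.empty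

omit [MeasurableSpace Ω] in
theorem fun_eq (F : Finset ℕ) (G : Finset ℕ → ℝ) (ω : Ω) :
    G (rs E F ω) = ∑ T ∈ F.powerset, G T * ({ω | rs E F ω = T} : Set Ω).indicator 1 ω := by
  rw [sum_eq_single (rs E F ω)]
  · simp
  · intro T _ hT
    rw [Set.indicator_of_notMem, mul_zero]
    exact fun h => hT h.symm
  · intro h
    exact absurd (mem_powerset.2 (filter_subset _ _)) h

theorem fun_meas (hE : ∀ n, MeasurableSet (E n)) (F : Finset ℕ) (G : Finset ℕ → ℝ) : Measurable (fun ω => G (rs E F ω)) := by
  simp_rw [fun_eq F G]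
  refine Finset.measurable_sum _ fun T _ => ?_
  exact ((measurable_const (a := (1 : ℝ))).indicator (rs_measurable hE F T)).const_mul _

theorem fun_int (hE : ∀ n, MeasurableSet (E n)) (F : Finset ℕ) (G : Finset ℕ → ℝ) : Integrable (fun ω => G (rs E F ω)) P := by
  refine Integrable.of_bound (fun_meas hE F G).aestronglyMeasurable (∑ T ∈ F.powerset, |G T|) (Eventually.of_forall fun ω => ?_)
  rw [Real.norm_eq_abs]
  exact single_le_sum (f := fun T => |G T|) (fun T _ => abs_nonneg _) (mem_powerset.2 (filter_subset _ _))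

theorem prob_split (hE : ∀ n, MeasurableSet (E n)) (hi : iIndepSet E P) (F T : Finset ℕ) (z : ℕ) (hz : z ∉ F) (hT : T ⊆ F) :
    P.real (E z ∩ {ω | rs E F ω = T}) = P.real (E z) * P.real {ω | rs E F ω = T} := by
  have h1 := (iIndepSet_iff E P).1 hi (insert z F) (f := fun n => if n = z then E z else gs E T n) (fun n _ => by
    split_ifs with h
    · rw [h]
      exact MeasurableSpace.measurableSet_generateFrom (Set.mem_singleton _)
    · exact gs_meas T n)
  have h2 := (iIndepSet_iff E P).1 hi F (f := gs E T) (fun n _ => gs_meas T n)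
  have h3 : ∀ n ∈ F, (if n = z then E z else gs E T n) = gs E T n := fun n hn => by
    rw [if_neg]
    rintro rfl
    exact hz hn
  rw [prod_insert hz, if_pos rfl, prod_congr rfl fun n hn => by rw [h3 n hn], ← h2, ← rs_eq F T hT] at h1
  have h4 : (⋂ n ∈ insert z F, (if n = z then E z else gs E T n)) = E z ∩ {ω | rs E F ω = T} := by
    rw [rs_eq F T hT, set_biInter_insert, if_pos rfl]
    congr 1
    exact Set.iInter₂_congr h3
  rw [h4] at h1
  unfold Measure.real
  rw [h1, ENNReal.toReal_mul]

omit [MeasurableSpace Ω] in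
theorem rs_insert (F : Finset ℕ) (z : ℕ) (hz : z ∉ F) (ω : Ω) :
    rs E (insert z F) ω = if ω ∈ E z then insert z (rs E F ω) else rs E F ω := by
  unfold rs
  rw [filter_insert]

theorem ind_int {S : Set Ω} (hS : MeasurableSet S) (a : ℝ) : Integrable (fun ω => a * S.indicator 1 ω) P := by
  have h1 : Integrable (S.indicator (1 : Ω → ℝ)) P := (integrable_const (1 : ℝ)).indicator hS
  exact h1.const_mul a

theorem split (hE : ∀ n, MeasurableSet (E n)) (hi : iIndepSet E P) (F : Finset ℕ) (z : ℕ) (hz : z ∉ F) (h : Finset ℕ → ℝ) :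
    ∫ ω, h (rs E (insert z F) ω) ∂P = ∫ ω, (P.real (E z) * h (insert z (rs E F ω)) + (1 - P.real (E z)) * h (rs E F ω)) ∂P := by
  have key : ∀ G : Finset ℕ → ℝ, ∫ ω, (E z).indicator 1 ω * G (rs E F ω) ∂P = P.real (E z) * ∫ ω, G (rs E F ω) ∂P := by
    intro G
    have e1 : ∀ ω, (E z).indicator 1 ω * G (rs E F ω) =
        ∑ T ∈ F.powerset, G T * (E z ∩ {ω | rs E F ω = T} : Set Ω).indicator 1 ω := by
      intro ω
      rw [fun_eq F G ω, mul_sum]
      apply sum_congr rfl
      intro T _
      rw [Set.inter_indicator_one]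
      simp only [Pi.mul_apply]
      ring
    simp_rw [e1]
    rw [integral_finsetSum _ fun T _ => ind_int ((hE z).inter (rs_measurable hE F T)) (G T)]
    have e2 : ∫ ω, G (rs E F ω) ∂P = ∑ T ∈ F.powerset, G T * P.real {ω | rs E F ω = T} := by
      simp_rw [fun_eq F G]
      rw [integral_finsetSum _ fun T _ => ind_int (rs_measurable hE F T) (G T)]
      apply sum_congr rfl
      intro T _
      rw [integral_const_mul, integral_indicator_one (rs_measurable hE F T)]
    rw [e2, mul_sum]
    apply sum_congr rfl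
    intro T hT
    rw [integral_const_mul, integral_indicator_one ((hE z).inter (rs_measurable hE F T)), prob_split hE hi F T z hz (mem_powerset.1 hT)]
    ring
  have e1 : ∀ ω, h (rs E (insert z F) ω) = (E z).indicator 1 ω * h (insert z (rs E F ω)) +
      (h (rs E F ω) - (E z).indicator 1 ω * h (rs E F ω)) := by
    intro ω
    rw [rs_insert F z hz ω]
    by_cases hω : ω ∈ E z
    · rw [if_pos hω, Set.indicator_of_mem hω]
      simp
    · rw [if_neg hω, Set.indicator_of_notMem hω]
      simp
  have i1 : ∀ G : Finset ℕ → ℝ, Integrable (fun ω => (E z).indicator 1 ω * G (rs E F ω)) P := by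
    intro G
    refine (fun_int hE F G).bdd_mul (c := 1) ((measurable_const (a := (1 : ℝ))).indicator (hE z)).aestronglyMeasurable
      (Eventually.of_forall fun ω => ?_)
    rw [Real.norm_eq_abs]
    by_cases hω : ω ∈ E z
    · simp [Set.indicator_of_mem hω]
    · simp [Set.indicator_of_notMem hω]
  simp_rw [e1]
  have i2 : Integrable (fun ω => h (rs E F ω) - (E z).indicator 1 ω * h (rs E F ω)) P := (fun_int hE F h).sub (i1 h)
  rw [integral_add (i1 (fun T => h (insert z T))) i2, integral_sub (fun_int hE F h) (i1 h),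
    key (fun T => h (insert z T)), key h]
  rw [integral_add ((fun_int hE F (fun T => h (insert z T))).const_mul _) ((fun_int hE F h).const_mul _),
    integral_const_mul, integral_const_mul]
  ring

/-- Hoeffding's lemma for an event -/
theorem hoeff (hE : ∀ n, MeasurableSet (E n)) (z : ℕ) (y : ℝ) :
    P.real (E z) * Real.exp ((1 - P.real (E z)) * y) + (1 - P.real (E z)) * Real.exp (-(P.real (E z)) * y) ≤
      Real.exp (y ^ 2 / 8) := by
  set p := P.real (E z) with hp
  have h1 : HasSubgaussianMGF (fun ω => (E z).indicator (fun _ => y) ω - ∫ ω', (E z).indicator (fun _ => y) ω' ∂P)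
      ((‖max y 0 - min y 0‖₊ / 2) ^ 2) P := by
    apply hasSubgaussianMGF_of_mem_Icc
    · exact (measurable_const.indicator (hE z)).aemeasurable
    · refine Eventually.of_forall fun ω => ?_
      by_cases hω : ω ∈ E z
      · rw [Set.indicator_of_mem hω]
        exact ⟨min_le_left _ _, le_max_left _ _⟩
      · rw [Set.indicator_of_notMem hω]
        exact ⟨min_le_right _ _, le_max_right _ _⟩
  have h2 := h1.mgf_le 1
  have h3 : ∫ ω', (E z).indicator (fun _ => y) ω' ∂P = p * y := by
    rw [integral_indicator_const _ (hE z), smul_eq_mul]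
  rw [h3] at h2
  unfold mgf at h2
  have h4 : ∀ ω, Real.exp (1 * ((E z).indicator (fun _ => y) ω - p * y)) =
      (E z).indicator (fun _ => Real.exp ((1 - p) * y) - Real.exp (-p * y)) ω + Real.exp (-p * y) := by
    intro ω
    by_cases hω : ω ∈ E z
    · rw [Set.indicator_of_mem hω, Set.indicator_of_mem hω]
      ring_nf
    · rw [Set.indicator_of_notMem hω, Set.indicator_of_notMem hω]
      ring_nf
  simp_rw [h4] at h2
  rw [integral_add ((integrable_const _).indicator (hE z)) (integrable_const _), integral_indicator_const _ (hE z),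
    integral_const, smul_eq_mul, smul_eq_mul, probReal_univ, one_mul] at h2
  have h5 : (max y 0 - min y 0) ^ 2 = y ^ 2 := by
    rcases le_total y 0 with h | h
    · rw [max_eq_right h, min_eq_left h]; ring
    · rw [max_eq_left h, min_eq_right h]; ring
  have h6 : ((((‖max y 0 - min y 0‖₊ / 2) ^ 2 : NNReal) : ℝ)) * 1 ^ 2 / 2 = y ^ 2 / 8 := by
    push_cast
    rw [Real.norm_eq_abs, div_pow, sq_abs, h5]
    ring
  rw [h6] at h2
  refine le_trans (le_of_eq ?_) h2
  ring

theorem mgf_bd (hE : ∀ n, MeasurableSet (E n)) (hi : iIndepSet E P) (c s : ℝ) (hc : 0 ≤ c) : ∀ (F : Finset ℕ) (f : Finset ℕ → ℝ),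
    (∀ (A : Finset ℕ) (x : ℕ), |f (insert x A) - f A| ≤ c) →
    ∫ ω, Real.exp (s * (f (rs E F ω) - ∫ ω', f (rs E F ω') ∂P)) ∂P ≤ Real.exp (s ^ 2 * c ^ 2 * F.card / 8) := by
  intro F
  induction F using Finset.induction_on with
  | empty =>
    intro f _
    have : ∀ ω, rs E ∅ ω = ∅ := fun ω => by simp [rs]
    simp_rw [this]
    simp
  | insert z F hz ih =>
    intro f hf
    set p := P.real (E z) with hp
    have hp0 : 0 ≤ p := measureReal_nonneg
    have hp1 : p ≤ 1 := measureReal_le_one
    set g : Finset ℕ → ℝ := fun T => p * f (insert z T) + (1 - p) * f T with hg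
    have hgc : ∀ (A : Finset ℕ) (x : ℕ), |g (insert x A) - g A| ≤ c := by
      intro A x
      have e1 : g (insert x A) - g A = p * (f (insert x (insert z A)) - f (insert z A)) + (1 - p) * (f (insert x A) - f A) := by
        rw [hg]
        simp only
        rw [Finset.insert_comm x z A]
        ring
      rw [e1]
      refine (abs_add_le _ _).trans ?_
      rw [abs_mul, abs_mul, abs_of_nonneg hp0, abs_of_nonneg (by linarith : 0 ≤ 1 - p)]
      have e2 := mul_le_mul_of_nonneg_left (hf (insert z A) x) hp0
      have e3 := mul_le_mul_of_nonneg_left (hf A x) (by linarith : 0 ≤ 1 - p)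
      linarith
    have hih := ih g hgc
    have ha : ∫ ω, f (rs E (insert z F) ω) ∂P = ∫ ω, g (rs E F ω) ∂P := split hE hi F z hz f
    set a := ∫ ω, g (rs E F ω) ∂P with had
    rw [ha, split hE hi F z hz (fun T => Real.exp (s * (f T - a)))]
    have hpt : ∀ T : Finset ℕ, p * Real.exp (s * (f (insert z T) - a)) + (1 - p) * Real.exp (s * (f T - a)) ≤
        Real.exp (s ^ 2 * c ^ 2 / 8) * Real.exp (s * (g T - a)) := by
      intro T
      set d := f (insert z T) - f T with hd
      have hdc : |d| ≤ c := hf T z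
      have e1 : Real.exp (s * (f (insert z T) - a)) = Real.exp (s * (g T - a)) * Real.exp ((1 - p) * (s * d)) := by
        rw [← Real.exp_add]
        congr 1
        rw [hg, hd]
        ring
      have e2 : Real.exp (s * (f T - a)) = Real.exp (s * (g T - a)) * Real.exp (-p * (s * d)) := by
        rw [← Real.exp_add]
        congr 1
        rw [hg, hd]
        ring
      have e3 := hoeff (P := P) hE z (s * d)
      rw [← hp] at e3
      have e4 : (s * d) ^ 2 / 8 ≤ s ^ 2 * c ^ 2 / 8 := by
        rw [mul_pow]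
        have : d ^ 2 ≤ c ^ 2 := by
          rw [← sq_abs]
          exact pow_le_pow_left₀ (abs_nonneg _) hdc 2
        have h5 := mul_le_mul_of_nonneg_left this (sq_nonneg s)
        linarith
      rw [e1, e2]
      calc p * (Real.exp (s * (g T - a)) * Real.exp ((1 - p) * (s * d))) +
            (1 - p) * (Real.exp (s * (g T - a)) * Real.exp (-p * (s * d))) =
            (p * Real.exp ((1 - p) * (s * d)) + (1 - p) * Real.exp (-p * (s * d))) * Real.exp (s * (g T - a)) := by ring
        _ ≤ Real.exp (s ^ 2 * c ^ 2 / 8) * Real.exp (s * (g T - a)) := by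
            apply mul_le_mul_of_nonneg_right _ (Real.exp_pos _).le
            exact e3.trans (Real.exp_le_exp.2 e4)
    calc ∫ ω, (p * Real.exp (s * (f (insert z (rs E F ω)) - a)) + (1 - p) * Real.exp (s * (f (rs E F ω) - a))) ∂P
        ≤ ∫ ω, Real.exp (s ^ 2 * c ^ 2 / 8) * Real.exp (s * (g (rs E F ω) - a)) ∂P := by
          apply integral_mono _ _ (fun ω => hpt _)
          · exact fun_int hE F (fun T => p * Real.exp (s * (f (insert z T) - a)) + (1 - p) * Real.exp (s * (f T - a)))
          · exact fun_int hE F (fun T => Real.exp (s ^ 2 * c ^ 2 / 8) * Real.exp (s * (g T - a)))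
      _ = Real.exp (s ^ 2 * c ^ 2 / 8) * ∫ ω, Real.exp (s * (g (rs E F ω) - a)) ∂P := integral_const_mul _ _
      _ ≤ Real.exp (s ^ 2 * c ^ 2 / 8) * Real.exp (s ^ 2 * c ^ 2 * F.card / 8) :=
          mul_le_mul_of_nonneg_left hih (Real.exp_pos _).le
      _ = _ := by
          rw [← Real.exp_add, card_insert_of_notMem hz]
          congr 1
          push_cast
          ring

theorem mcd : S_Mcd := by
  intro Ω _ P _ E hE hi N c f hc hf
  refine ⟨fun_int hE (Icc 1 N) f, fun t ht => ?_⟩
  rcases Nat.eq_zero_or_pos N with hN | hN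
  · subst hN
    have : P.real {ω | t ≤ |f ((Icc 1 0).filter (fun n => ω ∈ E n)) - ∫ ω', f ((Icc 1 0).filter (fun n => ω' ∈ E n)) ∂P|} ≤ 1 :=
      measureReal_le_one
    refine this.trans ?_
    simp
  · have hN0 : (0 : ℝ) < N := by exact_mod_cast hN
    have hcard : ((Icc 1 N).card : ℝ) = N := by rw [Nat.card_Icc, Nat.add_sub_cancel]
    set a := ∫ ω', f (rs E (Icc 1 N) ω') ∂P with ha
    set s : ℝ := 4 * t / (N * c ^ 2) with hs
    have hs0 : 0 < s := by positivity
    have key : ∀ g : Finset ℕ → ℝ, (∀ (A : Finset ℕ) (x : ℕ), |g (insert x A) - g A| ≤ c) →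
        P.real {ω | t ≤ g (rs E (Icc 1 N) ω) - ∫ ω', g (rs E (Icc 1 N) ω') ∂P} ≤ Real.exp (-(2 * t ^ 2 / (N * c ^ 2))) := by
      intro g hg
      have h1 := measure_ge_le_exp_mul_mgf (μ := P) (X := fun ω => g (rs E (Icc 1 N) ω) - ∫ ω', g (rs E (Icc 1 N) ω') ∂P)
        (t := s) t hs0.le (fun_int hE (Icc 1 N) (fun T => Real.exp (s * (g T - ∫ ω', g (rs E (Icc 1 N) ω') ∂P))))
      refine h1.trans ?_
      have h2 := mgf_bd hE hi c s hc.le (Icc 1 N) g hg
      rw [hcard] at h2
      unfold mgf
      refine (mul_le_mul_of_nonneg_left h2 (Real.exp_pos _).le).trans (le_of_eq ?_)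
      rw [← Real.exp_add]
      congr 1
      rw [hs]
      field_simp
      ring
    have k1 := key f hf
    have k2 := key (fun T => -f T) (fun A x => by
      have : -f (insert x A) - -f A = -(f (insert x A) - f A) := by ring
      rw [this, abs_neg]
      exact hf A x)
    rw [integral_neg] at k2
    have h3 : {ω | t ≤ |f ((Icc 1 N).filter (fun n => ω ∈ E n)) - ∫ ω', f ((Icc 1 N).filter (fun n => ω' ∈ E n)) ∂P|} ⊆
        {ω | t ≤ f (rs E (Icc 1 N) ω) - a} ∪ {ω | t ≤ -f (rs E (Icc 1 N) ω) - -a} := by
      intro ω hω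
      simp only [Set.mem_ofPred_eq, Set.mem_union] at hω ⊢
      rcases le_abs.1 hω with h | h
      · left
        exact h
      · right
        have : -f (rs E (Icc 1 N) ω) - -a = -(f ((Icc 1 N).filter (fun n => ω ∈ E n)) - ∫ ω', f ((Icc 1 N).filter (fun n => ω' ∈ E n)) ∂P) := by
          rw [ha]
          unfold rs
          ring
        rw [this]
        exact h
    refine (measureReal_mono h3).trans ((measureReal_union_le _ _).trans ?_)
    linarith

end Pool.Agent.Q145.GQ
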