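import Pool.Agent.Q145.GQ.Spec
import Pool.Agent.Q178.GC.Mean

set_option autoImplicit false
set_option maxHeartbeats 4000000

/-! # Degrees for a general set (adapted from `Pool.Agent.Q178.GC.Th` and `Mean` of helper178) -/

namespace Pool.Agent.Q145.GQ

open Finset Filter Topology
open Pool.Agent.Q178.GC (growth3 psi0 sum_log_sq sum_log psi0_bd psi0_cont riemann)

open scoped Classical

/-- the second order asymptotic formula -/
theorem th_asym (Q : ℕ → Prop) (hQ : Cnt Q) : ∃ (C : ℝ) (Y₀ : ℕ), 0 < C ∧ ∀ Y : ℕ, Y₀ ≤ Y → 3 ≤ Real.log Y ∧ 4 ≤ Y ∧ ∀ n : ℕ, 1 ≤ n → n ≤ Y →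
    |th Q Y n - (1 / Real.log Y + (1 - psi0 ((n : ℝ) / Y)) / Real.log Y ^ 2)| ≤ C / Real.log Y ^ 3 := by
  obtain ⟨C1, Y1, hC1, h1⟩ := hQ
  obtain ⟨Y0, hY0⟩ := eventually_atTop.1 (growth3 20)
  refine ⟨C1 + 100, max Y0 Y1, by linarith, fun Y hYY => ?_⟩
  have hY := (le_max_left _ _).trans hYY
  have hY' := (le_max_right _ _).trans hYY
  obtain ⟨hL3, hg, hY4⟩ := hY0 Y hY
  refine ⟨hL3, hY4, fun n hn hnY => ?_⟩
  have hYr : (4 : ℝ) ≤ Y := by exact_mod_cast hY4
  have hYp : (0 : ℝ) < Y := by linarith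
  set L := Real.log Y with hL
  have hL0 : 0 < L := by linarith
  have hn0 : (0:ℝ) < n := by exact_mod_cast hn
  have hsq : 0 < √(Y : ℝ) := Real.sqrt_pos.2 hYp
  -- the counts
  have hth : th Q Y n * Y = (((Icc 1 Y).filter (fun s => Q (n + s))).card : ℝ) := by
    unfold th
    rw [div_mul_cancel₀ _ hYp.ne']
  have h2 := h1 Y hY' n hn hnY
  set cq : ℝ := (((Icc 1 Y).filter (fun s => Q (n + s))).card : ℝ) with hcq
  replace h2 : |cq - ∑ m ∈ Ioc n (n + Y), 1 / Real.log m| ≤ C1 * (Y / L ^ 3) + 4 * √(Y : ℝ) :=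
    h2.trans (le_add_of_nonneg_right (by positivity))
  -- the sum of the 1 / log m
  have h3 : |∑ m ∈ Ioc n (n + Y), 1 / Real.log m - ∑ m ∈ Ioc n (n + Y), (1 / L - (Real.log m - L) / L ^ 2)| ≤
      2 / L ^ 3 * (33 * Y) + 4 * √(Y : ℝ) := by
    rw [← sum_sub_distrib]
    refine (abs_sum_le_sum_abs _ _).trans ?_
    have h4 : ∀ m ∈ Ioc n (n + Y), |1 / Real.log m - (1 / L - (Real.log m - L) / L ^ 2)| ≤
        2 / L ^ 3 * (Real.log m - L) ^ 2 + (if (m : ℝ) < √(Y : ℝ) then 4 else 0) := by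
      intro m hm
      rw [mem_Ioc] at hm
      have hm2 : (2:ℝ) ≤ m := by exact_mod_cast (by omega : 2 ≤ m)
      have hm0 : (0:ℝ) < m := by linarith
      have hlm : 0 < Real.log m := Real.log_pos (by linarith)
      have hlm2 : (1/2:ℝ) ≤ Real.log m := by
        have h5 : Real.log 2 ≤ Real.log m := Real.log_le_log (by norm_num) hm2
        have := Real.log_two_gt_d9
        linarith
      have e : 1 / Real.log m - (1 / L - (Real.log m - L) / L ^ 2) = (Real.log m - L) ^ 2 / (L ^ 2 * Real.log m) := by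
        field_simp
        ring
      split_ifs with h
      · -- small m
        have h6 : Real.log m ≤ L := by
          apply Real.log_le_log hm0
          have : √(Y : ℝ) ≤ Y := by
            have h7 : √(Y : ℝ) * √(Y : ℝ) = Y := Real.mul_self_sqrt hYp.le
            have h8 : (1:ℝ) ≤ √(Y : ℝ) := by
              rw [show (1:ℝ) = √1 by simp]
              exact Real.sqrt_le_sqrt (by linarith)
            nlinarith
          linarith
        rw [e, abs_of_nonneg (by positivity)]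
        have h9 : (Real.log m - L) ^ 2 / (L ^ 2 * Real.log m) ≤ 4 := by
          rw [div_le_iff₀ (by positivity)]
          have h10 : (Real.log m - L) ^ 2 ≤ L ^ 2 := by
            have : (Real.log m - L) ^ 2 = (L - Real.log m) ^ 2 := by ring
            rw [this]
            exact pow_le_pow_left₀ (by linarith) (by linarith) 2
          nlinarith [sq_nonneg L]
        have h11 : 0 ≤ 2 / L ^ 3 * (Real.log m - L) ^ 2 := by positivity
        linarith
      · push Not at h
        have h6 : L / 2 ≤ Real.log m := by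
          rw [hL, ← Real.log_sqrt hYp.le]
          exact Real.log_le_log hsq h
        rw [e, abs_of_nonneg (by positivity), add_zero]
        rw [div_le_iff₀ (by positivity)]
        have h7 : 2 / L ^ 3 * (Real.log m - L) ^ 2 * (L ^ 2 * (L / 2)) = (Real.log m - L) ^ 2 := by
          field_simp
        have h8 : 2 / L ^ 3 * (Real.log m - L) ^ 2 * (L ^ 2 * (L / 2)) ≤
            2 / L ^ 3 * (Real.log m - L) ^ 2 * (L ^ 2 * Real.log m) := by gcongr
        linarith
    refine (sum_le_sum h4).trans ?_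
    rw [sum_add_distrib, ← mul_sum]
    apply add_le_add
    · exact mul_le_mul_of_nonneg_left (sum_log_sq (by omega) hnY) (by positivity)
    · rw [← sum_filter, sum_const, nsmul_eq_mul]
      have h5 : (((Ioc n (n + Y)).filter (fun m : ℕ => (m : ℝ) < √(Y : ℝ))).card : ℝ) ≤ √(Y : ℝ) := by
        have h6 : (Ioc n (n + Y)).filter (fun m : ℕ => (m : ℝ) < √(Y : ℝ)) ⊆ Icc 1 ⌊√(Y : ℝ)⌋₊ := by
          intro m hm
          rw [mem_filter, mem_Ioc] at hm
          rw [mem_Icc]
          exact ⟨by omega, Nat.le_floor hm.2.le⟩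
        have h7 := card_le_card h6
        rw [Nat.card_Icc, Nat.add_sub_cancel] at h7
        calc (((Ioc n (n + Y)).filter (fun m : ℕ => (m : ℝ) < √(Y : ℝ))).card : ℝ) ≤ ⌊√(Y : ℝ)⌋₊ := by
              exact_mod_cast h7
          _ ≤ _ := Nat.floor_le hsq.le
      linarith
  -- the sum of the logarithms
  have h5 : ∑ m ∈ Ioc n (n + Y), (1 / L - (Real.log m - L) / L ^ 2) =
      Y / L - (∑ m ∈ Ioc n (n + Y), Real.log m - Y * L) / L ^ 2 := by
    have hc : ((Ioc n (n + Y)).card : ℝ) = Y := by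
      rw [Nat.card_Ioc]
      have : n + Y - n = Y := by omega
      rw [this]
    have e1 : ∑ m ∈ Ioc n (n + Y), (1 / L) = Y / L := by
      rw [sum_const, nsmul_eq_mul, hc]
      ring
    have e2 : ∑ m ∈ Ioc n (n + Y), (Real.log m - L) / L ^ 2 =
        (∑ m ∈ Ioc n (n + Y), Real.log m - Y * L) / L ^ 2 := by
      rw [← sum_div, sum_sub_distrib, sum_const, nsmul_eq_mul, hc]
    rw [sum_sub_distrib, e1, e2]
  obtain ⟨h6, h7⟩ := sum_log (n := n) (Y := Y) hn
  have hnYr : (0:ℝ) < ((n + Y : ℕ) : ℝ) := by exact_mod_cast (by omega : 0 < n + Y)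
  have h8 : (((n + Y : ℕ) : ℝ) * Real.log ((n + Y : ℕ) : ℝ) - (n + Y : ℕ)) - ((n : ℝ) * Real.log n - n) =
      Y * L + Y * (psi0 ((n : ℝ) / Y) - 1) := by
    have e1 : (n : ℝ) / Y + 1 = ((n + Y : ℕ) : ℝ) / Y := by
      push_cast
      field_simp
    unfold psi0
    rw [e1, Real.log_div hnYr.ne' hYp.ne', Real.log_div hn0.ne' hYp.ne', ← hL]
    field_simp
    push_cast
    ring
  have h9 : Real.log ((n + Y : ℕ) : ℝ) - Real.log n ≤ 8 * √(Y : ℝ) := by
    have h10 : 0 ≤ Real.log n := Real.log_natCast_nonneg n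
    have h11 : Real.log ((n + Y : ℕ) : ℝ) ≤ Real.log (Y ^ 2) := by
      apply Real.log_le_log hnYr
      have : (n : ℝ) ≤ Y := by exact_mod_cast hnY
      push_cast
      nlinarith
    have h12 : Real.log ((Y : ℝ) ^ 2) = 4 * Real.log (√(Y : ℝ)) := by
      rw [Real.log_sqrt hYp.le, Real.log_pow]
      push_cast
      ring
    have h13 : Real.log (√(Y : ℝ)) ≤ √(Y : ℝ) := (Real.log_le_sub_one_of_pos hsq).trans (by linarith)
    linarith
  have h14 : |(∑ m ∈ Ioc n (n + Y), Real.log m - Y * L) - Y * (psi0 ((n : ℝ) / Y) - 1)| ≤ 8 * √(Y : ℝ) := by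
    rw [abs_le]
    constructor
    · have : 0 ≤ 8 * √(Y : ℝ) := by positivity
      linarith
    · linarith
  -- assembly
  have h15 : |th Q Y n * Y - (Y / L + Y * (1 - psi0 ((n : ℝ) / Y)) / L ^ 2)| ≤ (C1 + 100) * (Y / L ^ 3) := by
    rw [hth]
    have e : cq - (Y / L + Y * (1 - psi0 ((n : ℝ) / Y)) / L ^ 2) =
        (cq - ∑ m ∈ Ioc n (n + Y), 1 / Real.log m) +
        (∑ m ∈ Ioc n (n + Y), 1 / Real.log m - ∑ m ∈ Ioc n (n + Y), (1 / L - (Real.log m - L) / L ^ 2)) -
        ((∑ m ∈ Ioc n (n + Y), Real.log m - Y * L) - Y * (psi0 ((n : ℝ) / Y) - 1)) / L ^ 2 := by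
      rw [h5]
      field_simp
      ring
    rw [e]
    have h16 : |((∑ m ∈ Ioc n (n + Y), Real.log m - Y * L) - Y * (psi0 ((n : ℝ) / Y) - 1)) / L ^ 2| ≤ 8 * √(Y : ℝ) := by
      rw [abs_div, abs_of_pos (show 0 < L ^ 2 by positivity)]
      rw [div_le_iff₀ (by positivity)]
      have : (1:ℝ) ≤ L ^ 2 := by nlinarith
      nlinarith [Real.sqrt_nonneg (Y : ℝ)]
    have h17 : 2 / L ^ 3 * (33 * Y) = 66 * (Y / L ^ 3) := by ring
    rw [h17] at h3
    calc _ ≤ |cq - ∑ m ∈ Ioc n (n + Y), 1 / Real.log m| +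
          |∑ m ∈ Ioc n (n + Y), 1 / Real.log m - ∑ m ∈ Ioc n (n + Y), (1 / L - (Real.log m - L) / L ^ 2)| +
          |((∑ m ∈ Ioc n (n + Y), Real.log m - Y * L) - Y * (psi0 ((n : ℝ) / Y) - 1)) / L ^ 2| :=
          (abs_sub _ _).trans (add_le_add (abs_add_le _ _) le_rfl)
      _ ≤ (C1 * (Y / L ^ 3) + 4 * √(Y : ℝ)) + (66 * (Y / L ^ 3) + 4 * √(Y : ℝ)) + 8 * √(Y : ℝ) := by
          gcongr
      _ ≤ _ := by
          have h18 : 0 ≤ (Y : ℝ) / L ^ 3 := by positivity
          nlinarith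
  have h19 : th Q Y n * Y - (Y / L + Y * (1 - psi0 ((n : ℝ) / Y)) / L ^ 2) =
      (th Q Y n - (1 / L + (1 - psi0 ((n : ℝ) / Y)) / L ^ 2)) * Y := by ring
  rw [h19, abs_mul, abs_of_pos hYp] at h15
  have h20 : (C1 + 100) * ((Y : ℝ) / L ^ 3) = ((C1 + 100) / L ^ 3) * Y := by ring
  rw [h20] at h15
  exact le_of_mul_le_mul_right h15 hYp



/-- N1: degrees -/
theorem thb (Q : ℕ → Prop) (hQ : Cnt Q) : ∃ (C : ℝ) (Y₀ : ℕ), ∀ Y : ℕ, Y₀ ≤ Y → ∀ n : ℕ, 1 ≤ n → n ≤ Y →
    |th Q Y n - 1 / Real.log Y| ≤ C / Real.log Y ^ 2 := by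
  obtain ⟨C, Y₀, hC, h⟩ := th_asym Q hQ
  obtain ⟨B, hB1, hB⟩ := psi0_bd
  refine ⟨C + 1 + B, Y₀, fun Y hY n hn hnY => ?_⟩
  obtain ⟨hL3, hY4, h1⟩ := h Y hY
  have h2 := h1 n hn hnY
  have hYp : (0:ℝ) < Y := by exact_mod_cast (by omega : 0 < Y)
  have hx : (n : ℝ) / Y ∈ Set.Icc (0:ℝ) 1 := ⟨by positivity, by
    rw [div_le_one hYp]; exact_mod_cast hnY⟩
  have h3 := hB _ hx
  set L := Real.log Y with hL
  have hL0 : 0 < L := by linarith
  set v := psi0 ((n : ℝ) / Y) with hv
  have h4 : C / L ^ 3 ≤ C / L ^ 2 :=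
    div_le_div_of_nonneg_left hC.le (by positivity) (pow_le_pow_right₀ (by linarith) (by norm_num))
  have h5 : |(1 - v) / L ^ 2| ≤ (1 + B) / L ^ 2 := by
    rw [abs_div, abs_of_pos (show (0:ℝ) < L ^ 2 by positivity)]
    apply div_le_div_of_nonneg_right _ (by positivity)
    rw [abs_le] at h3 ⊢
    constructor <;> linarith [h3.1, h3.2]
  have h6 : th Q Y n - 1 / L = (th Q Y n - (1 / L + (1 - v) / L ^ 2)) + (1 - v) / L ^ 2 := by ring
  rw [h6]
  refine (abs_add_le _ _).trans ?_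
  have h7 : (C + 1 + B) / L ^ 2 = C / L ^ 2 + (1 + B) / L ^ 2 := by ring
  rw [h7]
  linarith


/-- pointwise asymptotics -/
theorem point_key (Q : ℕ → Prop) (hQ : Cnt Q) (ρ u : ℝ) (X Y k : ℕ → ℕ) (hρ : 0 ≤ ρ) (hX : Tendsto X atTop atTop)
    (hXY : ∀ i, X i ≤ Y i) (hrho : Tendsto (fun i => Real.log (X i) / Real.log (Y i)) atTop (𝓝 ρ))
    (hk : Tendsto (fun i => ((k i : ℝ) - Real.log (X i) * Real.log (Y i)) / Real.log (Y i)) atTop (𝓝 u)) :
    Tendsto (fun i => (k i : ℝ) / Real.log (Y i) ^ 2) atTop (𝓝 ρ) ∧ ∃ M : ℝ, 0 < M ∧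
    (∃ δ : ℕ → ℝ, Tendsto δ atTop (𝓝 0) ∧ ∀ᶠ i in atTop, ∀ n ∈ Icc 1 (Y i), |(X i : ℝ) * (1 - th Q (Y i) n) ^ (k i) -
      Real.exp (-u) * Real.exp (ρ * (psi0 ((n : ℝ) / Y i) - 3 / 2))| ≤ δ i) ∧
    ∀ᶠ i in atTop, ∀ n ∈ Icc 1 (Y i), (X i : ℝ) * (1 - th Q (Y i) n) ^ (k i) ≤ M := by
  obtain ⟨C, Y0, hC, hth⟩ := th_asym Q hQ
  obtain ⟨B, hB1, hB⟩ := psi0_bd
  -- sequences
  have hXr : Tendsto (fun i => (X i : ℝ)) atTop atTop := tendsto_natCast_atTop_atTop.comp hX
  have hY : Tendsto Y atTop atTop := tendsto_atTop_mono hXY hX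
  have hL : Tendsto (fun i => Real.log (Y i)) atTop atTop :=
    Real.tendsto_log_atTop.comp (tendsto_natCast_atTop_atTop.comp hY)
  set a : ℕ → ℝ := fun i => ((k i : ℝ) - Real.log (X i) * Real.log (Y i)) / Real.log (Y i) - u with ha
  set b : ℕ → ℝ := fun i => (k i : ℝ) / Real.log (Y i) ^ 2 with hb
  have ha0 : Tendsto a atTop (𝓝 0) := by
    have := hk.sub_const u
    rwa [sub_self] at this
  have hLi : Tendsto (fun i => (Real.log (Y i))⁻¹) atTop (𝓝 0) := tendsto_inv_atTop_zero.comp hL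
  have hb0 : Tendsto b atTop (𝓝 ρ) := by
    have h1 := (hk.mul hLi).add hrho
    rw [mul_zero, zero_add] at h1
    refine h1.congr' ?_
    filter_upwards [hL.eventually_ge_atTop 1] with i hi
    simp only [hb]
    have : Real.log (Y i) ≠ 0 := by linarith
    field_simp
    ring
  set K : ℝ := C + 3 * (1 + B + C) + 16 with hK
  set δ : ℕ → ℝ := fun i => |a i| + (2 + B) * |b i - ρ| + |b i| * K * (Real.log (Y i))⁻¹ with hδ
  have hδ0 : Tendsto δ atTop (𝓝 0) := by
    have h1 : Tendsto (fun i => |a i|) atTop (𝓝 0) := by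
      have := ha0.abs
      rwa [abs_zero] at this
    have h2 : Tendsto (fun i => (2 + B) * |b i - ρ|) atTop (𝓝 0) := by
      have := ((hb0.sub_const ρ).abs).const_mul (2 + B)
      rwa [sub_self, abs_zero, mul_zero] at this
    have h3 : Tendsto (fun i => |b i| * K * (Real.log (Y i))⁻¹) atTop (𝓝 0) := by
      have := (hb0.abs.mul_const K).mul hLi
      rwa [mul_zero] at this
    have := (h1.add h2).add h3
    rwa [add_zero, add_zero] at this
  set G : ℝ → ℝ := fun x => Real.exp (-u) * Real.exp (ρ * (psi0 x - 3 / 2)) with hG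
  have hGc : Continuous G := by
    simp only [hG]
    have := psi0_cont
    fun_prop
  set M : ℝ := Real.exp (-u) * Real.exp (ρ * (B + 3 / 2)) with hM
  have hGM : ∀ x ∈ Set.Icc (0:ℝ) 1, G x ≤ M := by
    intro x hx
    simp only [hG, hM]
    have h1 := hB x hx
    have h2 := (abs_le.1 h1).2
    gcongr
    linarith
  -- the main estimate
  have key : ∀ᶠ i in atTop, ∀ n ∈ Icc 1 (Y i),
      |(X i : ℝ) * (1 - th Q (Y i) n) ^ (k i) - G ((n : ℝ) / Y i)| ≤ 2 * M * δ i := by
    filter_upwards [hY.eventually_ge_atTop Y0, hL.eventually_ge_atTop (2 * (1 + B + C) + 2), hδ0.eventually_le_const one_pos,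
      hXr.eventually_ge_atTop 1] with i hi0 hiL hi1 hiX
    obtain ⟨hL3, hY4, hn⟩ := hth (Y i) hi0
    intro n hnm
    rw [mem_Icc] at hnm
    set L := Real.log (Y i) with hLd
    set t := th Q (Y i) n with ht
    set x : ℝ := (n : ℝ) / Y i with hx
    have hYp : (0:ℝ) < Y i := by exact_mod_cast (by omega : 0 < Y i)
    have hx01 : x ∈ Set.Icc (0:ℝ) 1 := by
      refine ⟨by positivity, ?_⟩
      rw [hx, div_le_one hYp]
      exact_mod_cast hnm.2
    have hps := hB x hx01
    have hLp : 0 < L := by linarith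
    have hL1 : 1 ≤ L := by linarith
    set κ : ℝ := 1 - psi0 x with hκ
    have hκB : |κ| ≤ 1 + B := by
      rw [hκ]
      refine (abs_sub _ _).trans ?_
      rw [abs_one]
      linarith
    have h1 := hn n hnm.1 hnm.2
    set r : ℝ := t - (1 / L + κ / L ^ 2) with hr
    have hr1 : |r| ≤ C / L ^ 3 := h1
    have ht1 : |t - 1 / L| ≤ (1 + B + C) / L ^ 2 := by
      have e : t - 1 / L = κ / L ^ 2 + r := by rw [hr]; ring
      rw [e]
      refine (abs_add_le _ _).trans ?_
      rw [abs_div, abs_of_pos (show 0 < L ^ 2 by positivity)]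
      have h2 : C / L ^ 3 ≤ C / L ^ 2 := by
        apply div_le_div_of_nonneg_left hC.le (by positivity)
        exact pow_le_pow_right₀ hL1 (by norm_num)
      calc |κ| / L ^ 2 + |r| ≤ (1 + B) / L ^ 2 + C / L ^ 2 := by
            gcongr
            exact hr1.trans h2
        _ = _ := by ring
    have ht2 : |t - 1 / L| ≤ 1 / L := by
      refine ht1.trans ?_
      rw [div_le_div_iff₀ (by positivity) hLp]
      nlinarith
    have ht3 : |t| ≤ 2 / L := by
      have e : t = (t - 1 / L) + 1 / L := by ring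
      rw [e]
      refine (abs_add_le _ _).trans ?_
      rw [abs_of_pos (show 0 < 1 / L by positivity)]
      calc |t - 1 / L| + 1 / L ≤ 1 / L + 1 / L := by gcongr
        _ = _ := by ring
    have ht4 : |t| ≤ 1 / 2 := by
      refine ht3.trans ?_
      rw [div_le_div_iff₀ hLp (by norm_num)]
      nlinarith
    have ht5 : 0 < 1 - t := by
      have := (abs_le.1 ht4).2
      linarith
    have hlog := Real.abs_log_sub_add_sum_range_le (x := t) (by linarith) 2
    have hsum : ∑ i ∈ range 2, t ^ (i + 1) / ((i : ℝ) + 1) = t + t ^ 2 / 2 := by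
      rw [sum_range_succ, sum_range_one]
      norm_num
    rw [hsum] at hlog
    have hlog2 : |t + t ^ 2 / 2 + Real.log (1 - t)| ≤ 2 * |t| ^ 3 := by
      refine hlog.trans ?_
      rw [div_le_iff₀ (by linarith)]
      have h3 : 0 ≤ |t| ^ 3 := by positivity
      show |t| ^ 3 ≤ 2 * |t| ^ 3 * (1 - |t|)
      have h4 : 0 ≤ |t| ^ 3 * (1 / 2 - |t|) := mul_nonneg h3 (by linarith)
      linarith
    -- the exponent
    set E : ℝ := Real.log (X i) + k i * Real.log (1 - t) - (-u + ρ * (psi0 x - 3 / 2)) with hE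
    have hkb : (k i : ℝ) = b i * L ^ 2 := by
      have : b i = (k i : ℝ) / L ^ 2 := rfl
      rw [this]
      field_simp
    have hb00 : 0 ≤ b i := by simp only [hb]; positivity
    have hai : a i = k i / L - Real.log (X i) - u := by
      show ((k i : ℝ) - Real.log (X i) * L) / L - u = _
      field_simp
    have e1 : E = -(a i) + (κ + 1 / 2) * (ρ - b i) - k i * r - k i * ((t - 1 / L) * (t + 1 / L)) / 2 +
        k i * (t + t ^ 2 / 2 + Real.log (1 - t)) := by
      rw [hE, hai]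
      have e2 : t = 1 / L + κ / L ^ 2 + r := by rw [hr]; ring
      have e3 : (k i : ℝ) * t = k i / L + b i * κ + k i * r := by
        rw [e2]
        have : b i = (k i : ℝ) / L ^ 2 := rfl
        rw [this]
        field_simp
      have e4 : (k i : ℝ) * (t ^ 2 / 2) = k i * ((t - 1 / L) * (t + 1 / L)) / 2 + b i / 2 := by
        have : b i = (k i : ℝ) / L ^ 2 := rfl
        rw [this]
        field_simp
        ring
      have e5 : psi0 x = 1 - κ := by rw [hκ]; ring
      rw [e5]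
      linear_combination (-1 : ℝ) * e3 - e4
    have hEb : |E| ≤ δ i := by
      rw [e1]
      have g1 : |(κ + 1 / 2) * (ρ - b i)| ≤ (2 + B) * |b i - ρ| := by
        rw [abs_mul, abs_sub_comm ρ (b i)]
        gcongr
        refine (abs_add_le _ _).trans ?_
        rw [abs_of_pos (show (0:ℝ) < 1 / 2 by norm_num)]
        linarith
      have g2 : |k i * r| ≤ b i * C * L⁻¹ := by
        rw [abs_mul, Nat.abs_cast, hkb]
        calc b i * L ^ 2 * |r| ≤ b i * L ^ 2 * (C / L ^ 3) := by gcongr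
          _ = _ := by field_simp
      have g3 : |k i * ((t - 1 / L) * (t + 1 / L)) / 2| ≤ b i * (3 * (1 + B + C)) * L⁻¹ := by
        rw [abs_div, abs_mul, abs_mul, Nat.abs_cast, hkb, abs_two]
        have g4 : |t + 1 / L| ≤ 3 / L := by
          refine (abs_add_le _ _).trans ?_
          rw [abs_of_pos (show 0 < 1 / L by positivity)]
          calc |t| + 1 / L ≤ 2 / L + 1 / L := by gcongr
            _ = _ := by ring
        calc b i * L ^ 2 * (|t - 1 / L| * |t + 1 / L|) / 2 ≤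
            b i * L ^ 2 * ((1 + B + C) / L ^ 2 * (3 / L)) / 2 := by gcongr
          _ = b i * (3 * (1 + B + C)) * L⁻¹ / 2 := by field_simp
          _ ≤ _ := by
              have : 0 ≤ b i * (3 * (1 + B + C)) * L⁻¹ := by positivity
              linarith
      have g5 : |k i * (t + t ^ 2 / 2 + Real.log (1 - t))| ≤ b i * 16 * L⁻¹ := by
        rw [abs_mul, Nat.abs_cast, hkb]
        calc b i * L ^ 2 * |t + t ^ 2 / 2 + Real.log (1 - t)| ≤ b i * L ^ 2 * (2 * |t| ^ 3) := by gcongr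
          _ ≤ b i * L ^ 2 * (2 * (2 / L) ^ 3) := by gcongr
          _ = _ := by field_simp; norm_num
      have g6 : δ i = |a i| + (2 + B) * |b i - ρ| + (b i * C * L⁻¹ + b i * (3 * (1 + B + C)) * L⁻¹ + b i * 16 * L⁻¹) := by
        simp only [hδ]
        rw [abs_of_nonneg hb00, hK]
        ring
      rw [g6]
      have g7 : ∀ p q s v w : ℝ, |-p + q - s - v + w| ≤ |p| + |q| + |s| + |v| + |w| := by
        intro p q s v w
        calc |-p + q - s - v + w| ≤ |-p + q - s - v| + |w| := abs_add_le _ _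
          _ ≤ |-p + q - s| + |v| + |w| := by gcongr; exact abs_sub _ _
          _ ≤ |-p + q| + |s| + |v| + |w| := by gcongr; exact abs_sub _ _
          _ ≤ |-p| + |q| + |s| + |v| + |w| := by gcongr; exact abs_add_le _ _
          _ = _ := by rw [abs_neg]
      refine (g7 _ _ _ _ _).trans ?_
      linarith
    have hXp : (0:ℝ) < X i := by linarith
    have e6 : (X i : ℝ) * (1 - t) ^ (k i) = G x * Real.exp E := by
      simp only [hG]
      rw [← Real.exp_add, ← Real.exp_add, hE]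
      have : -u + ρ * (psi0 x - 3 / 2) + (Real.log (X i) + k i * Real.log (1 - t) - (-u + ρ * (psi0 x - 3 / 2))) =
          Real.log (X i) + k i * Real.log (1 - t) := by ring
      rw [this, Real.exp_add, Real.exp_log hXp, Real.exp_nat_mul, Real.exp_log ht5]
    rw [e6]
    have e7 : G x * Real.exp E - G x = G x * (Real.exp E - 1) := by ring
    have hGp : 0 < G x := by simp only [hG]; positivity
    rw [e7, abs_mul, abs_of_pos hGp]
    have h9 := Real.abs_exp_sub_one_le (hEb.trans hi1)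
    calc G x * |Real.exp E - 1| ≤ M * (2 * δ i) := by
          have := hGM x hx01
          have hM0 : 0 ≤ M := by simp only [hM]; positivity
          gcongr
          linarith
      _ = _ := by ring
  refine ⟨hb0, 3 * M, by simp only [hM]; positivity, ⟨fun i => 2 * M * δ i, ?_, key⟩, ?_⟩
  · have := hδ0.const_mul (2 * M)
    rwa [mul_zero] at this
  filter_upwards [key, hδ0.eventually_le_const one_pos, hY.eventually_ge_atTop 1] with i g1 g2 g3 n hn
  have g4 := (abs_le.1 (g1 n hn)).2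
  have hYp : (0:ℝ) < Y i := by exact_mod_cast (by omega : 0 < Y i)
  have hM0 : 0 < M := by simp only [hM]; positivity
  have g5 := hGM ((n : ℝ) / Y i) ⟨by positivity, by
    rw [div_le_one hYp]
    exact_mod_cast (mem_Icc.1 hn).2⟩
  nlinarith

/-- pointwise upper bound -/
theorem point_bd (Q : ℕ → Prop) (hQ : Cnt Q) (ρ u : ℝ) (X Y k : ℕ → ℕ) (hρ : 0 ≤ ρ) (hX : Tendsto X atTop atTop)
    (hXY : ∀ i, X i ≤ Y i) (hrho : Tendsto (fun i => Real.log (X i) / Real.log (Y i)) atTop (𝓝 ρ))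
    (hk : Tendsto (fun i => ((k i : ℝ) - Real.log (X i) * Real.log (Y i)) / Real.log (Y i)) atTop (𝓝 u)) :
    Tendsto (fun i => (k i : ℝ) / Real.log (Y i) ^ 2) atTop (𝓝 ρ) ∧ ∃ M : ℝ, 0 < M ∧
    ∀ᶠ i in atTop, ∀ n ∈ Icc 1 (Y i), (X i : ℝ) * (1 - th Q (Y i) n) ^ (k i) ≤ M := by
  obtain ⟨h1, M, h2, h3, h4⟩ := point_key Q hQ ρ u X Y k hρ hX hXY hrho hk
  exact ⟨h1, M, h2, h4⟩

/-- the mean number of missed points -/
theorem mean_lim (Q : ℕ → Prop) (hQ : Cnt Q) (ρ u : ℝ) (X Y k : ℕ → ℕ) (hρ : 0 ≤ ρ) (hX : Tendsto X atTop atTop)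
    (hXY : ∀ i, X i ≤ Y i) (hrho : Tendsto (fun i => Real.log (X i) / Real.log (Y i)) atTop (𝓝 ρ))
    (hk : Tendsto (fun i => ((k i : ℝ) - Real.log (X i) * Real.log (Y i)) / Real.log (Y i)) atTop (𝓝 u)) :
    Tendsto (fun i => (X i : ℝ) * ((∑ n ∈ Icc 1 (Y i), (1 - th Q (Y i) n) ^ (k i)) / Y i)) atTop
      (𝓝 (Real.exp (-u) * ∫ x in (0 : ℝ)..1, Real.exp (ρ * ((x + 1) * Real.log (x + 1) - x * Real.log x - 3 / 2)))) := by
  obtain ⟨C, Y0, hC, hth⟩ := th_asym Q hQ
  obtain ⟨B, hB1, hB⟩ := psi0_bd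
  -- sequences
  have hXr : Tendsto (fun i => (X i : ℝ)) atTop atTop := tendsto_natCast_atTop_atTop.comp hX
  have hY : Tendsto Y atTop atTop := tendsto_atTop_mono hXY hX
  have hL : Tendsto (fun i => Real.log (Y i)) atTop atTop :=
    Real.tendsto_log_atTop.comp (tendsto_natCast_atTop_atTop.comp hY)
  set a : ℕ → ℝ := fun i => ((k i : ℝ) - Real.log (X i) * Real.log (Y i)) / Real.log (Y i) - u with ha
  set b : ℕ → ℝ := fun i => (k i : ℝ) / Real.log (Y i) ^ 2 with hb
  have ha0 : Tendsto a atTop (𝓝 0) := by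
    have := hk.sub_const u
    rwa [sub_self] at this
  have hLi : Tendsto (fun i => (Real.log (Y i))⁻¹) atTop (𝓝 0) := tendsto_inv_atTop_zero.comp hL
  have hb0 : Tendsto b atTop (𝓝 ρ) := by
    have h1 := (hk.mul hLi).add hrho
    rw [mul_zero, zero_add] at h1
    refine h1.congr' ?_
    filter_upwards [hL.eventually_ge_atTop 1] with i hi
    simp only [hb]
    have : Real.log (Y i) ≠ 0 := by linarith
    field_simp
    ring
  set K : ℝ := C + 3 * (1 + B + C) + 16 with hK
  set δ : ℕ → ℝ := fun i => |a i| + (2 + B) * |b i - ρ| + |b i| * K * (Real.log (Y i))⁻¹ with hδ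
  have hδ0 : Tendsto δ atTop (𝓝 0) := by
    have h1 : Tendsto (fun i => |a i|) atTop (𝓝 0) := by
      have := ha0.abs
      rwa [abs_zero] at this
    have h2 : Tendsto (fun i => (2 + B) * |b i - ρ|) atTop (𝓝 0) := by
      have := ((hb0.sub_const ρ).abs).const_mul (2 + B)
      rwa [sub_self, abs_zero, mul_zero] at this
    have h3 : Tendsto (fun i => |b i| * K * (Real.log (Y i))⁻¹) atTop (𝓝 0) := by
      have := (hb0.abs.mul_const K).mul hLi
      rwa [mul_zero] at this
    have := (h1.add h2).add h3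
    rwa [add_zero, add_zero] at this
  set G : ℝ → ℝ := fun x => Real.exp (-u) * Real.exp (ρ * (psi0 x - 3 / 2)) with hG
  have hGc : Continuous G := by
    simp only [hG]
    have := psi0_cont
    fun_prop
  set M : ℝ := Real.exp (-u) * Real.exp (ρ * (B + 3 / 2)) with hM
  have hGM : ∀ x ∈ Set.Icc (0:ℝ) 1, G x ≤ M := by
    intro x hx
    simp only [hG, hM]
    have h1 := hB x hx
    have h2 := (abs_le.1 h1).2
    gcongr
    linarith
  -- the main estimate
  have key : ∀ᶠ i in atTop, ∀ n ∈ Icc 1 (Y i),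
      |(X i : ℝ) * (1 - th Q (Y i) n) ^ (k i) - G ((n : ℝ) / Y i)| ≤ 2 * M * δ i := by
    filter_upwards [hY.eventually_ge_atTop Y0, hL.eventually_ge_atTop (2 * (1 + B + C) + 2), hδ0.eventually_le_const one_pos,
      hXr.eventually_ge_atTop 1] with i hi0 hiL hi1 hiX
    obtain ⟨hL3, hY4, hn⟩ := hth (Y i) hi0
    intro n hnm
    rw [mem_Icc] at hnm
    set L := Real.log (Y i) with hLd
    set t := th Q (Y i) n with ht
    set x : ℝ := (n : ℝ) / Y i with hx
    have hYp : (0:ℝ) < Y i := by exact_mod_cast (by omega : 0 < Y i)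
    have hx01 : x ∈ Set.Icc (0:ℝ) 1 := by
      refine ⟨by positivity, ?_⟩
      rw [hx, div_le_one hYp]
      exact_mod_cast hnm.2
    have hps := hB x hx01
    have hLp : 0 < L := by linarith
    have hL1 : 1 ≤ L := by linarith
    set κ : ℝ := 1 - psi0 x with hκ
    have hκB : |κ| ≤ 1 + B := by
      rw [hκ]
      refine (abs_sub _ _).trans ?_
      rw [abs_one]
      linarith
    have h1 := hn n hnm.1 hnm.2
    set r : ℝ := t - (1 / L + κ / L ^ 2) with hr
    have hr1 : |r| ≤ C / L ^ 3 := h1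
    have ht1 : |t - 1 / L| ≤ (1 + B + C) / L ^ 2 := by
      have e : t - 1 / L = κ / L ^ 2 + r := by rw [hr]; ring
      rw [e]
      refine (abs_add_le _ _).trans ?_
      rw [abs_div, abs_of_pos (show 0 < L ^ 2 by positivity)]
      have h2 : C / L ^ 3 ≤ C / L ^ 2 := by
        apply div_le_div_of_nonneg_left hC.le (by positivity)
        exact pow_le_pow_right₀ hL1 (by norm_num)
      calc |κ| / L ^ 2 + |r| ≤ (1 + B) / L ^ 2 + C / L ^ 2 := by
            gcongr
            exact hr1.trans h2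
        _ = _ := by ring
    have ht2 : |t - 1 / L| ≤ 1 / L := by
      refine ht1.trans ?_
      rw [div_le_div_iff₀ (by positivity) hLp]
      nlinarith
    have ht3 : |t| ≤ 2 / L := by
      have e : t = (t - 1 / L) + 1 / L := by ring
      rw [e]
      refine (abs_add_le _ _).trans ?_
      rw [abs_of_pos (show 0 < 1 / L by positivity)]
      calc |t - 1 / L| + 1 / L ≤ 1 / L + 1 / L := by gcongr
        _ = _ := by ring
    have ht4 : |t| ≤ 1 / 2 := by
      refine ht3.trans ?_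
      rw [div_le_div_iff₀ hLp (by norm_num)]
      nlinarith
    have ht5 : 0 < 1 - t := by
      have := (abs_le.1 ht4).2
      linarith
    have hlog := Real.abs_log_sub_add_sum_range_le (x := t) (by linarith) 2
    have hsum : ∑ i ∈ range 2, t ^ (i + 1) / ((i : ℝ) + 1) = t + t ^ 2 / 2 := by
      rw [sum_range_succ, sum_range_one]
      norm_num
    rw [hsum] at hlog
    have hlog2 : |t + t ^ 2 / 2 + Real.log (1 - t)| ≤ 2 * |t| ^ 3 := by
      refine hlog.trans ?_
      rw [div_le_iff₀ (by linarith)]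
      have h3 : 0 ≤ |t| ^ 3 := by positivity
      show |t| ^ 3 ≤ 2 * |t| ^ 3 * (1 - |t|)
      have h4 : 0 ≤ |t| ^ 3 * (1 / 2 - |t|) := mul_nonneg h3 (by linarith)
      linarith
    -- the exponent
    set E : ℝ := Real.log (X i) + k i * Real.log (1 - t) - (-u + ρ * (psi0 x - 3 / 2)) with hE
    have hkb : (k i : ℝ) = b i * L ^ 2 := by
      have : b i = (k i : ℝ) / L ^ 2 := rfl
      rw [this]
      field_simp
    have hb00 : 0 ≤ b i := by simp only [hb]; positivity
    have hai : a i = k i / L - Real.log (X i) - u := by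
      show ((k i : ℝ) - Real.log (X i) * L) / L - u = _
      field_simp
    have e1 : E = -(a i) + (κ + 1 / 2) * (ρ - b i) - k i * r - k i * ((t - 1 / L) * (t + 1 / L)) / 2 +
        k i * (t + t ^ 2 / 2 + Real.log (1 - t)) := by
      rw [hE, hai]
      have e2 : t = 1 / L + κ / L ^ 2 + r := by rw [hr]; ring
      have e3 : (k i : ℝ) * t = k i / L + b i * κ + k i * r := by
        rw [e2]
        have : b i = (k i : ℝ) / L ^ 2 := rfl
        rw [this]
        field_simp
      have e4 : (k i : ℝ) * (t ^ 2 / 2) = k i * ((t - 1 / L) * (t + 1 / L)) / 2 + b i / 2 := by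
        have : b i = (k i : ℝ) / L ^ 2 := rfl
        rw [this]
        field_simp
        ring
      have e5 : psi0 x = 1 - κ := by rw [hκ]; ring
      rw [e5]
      linear_combination (-1 : ℝ) * e3 - e4
    have hEb : |E| ≤ δ i := by
      rw [e1]
      have g1 : |(κ + 1 / 2) * (ρ - b i)| ≤ (2 + B) * |b i - ρ| := by
        rw [abs_mul, abs_sub_comm ρ (b i)]
        gcongr
        refine (abs_add_le _ _).trans ?_
        rw [abs_of_pos (show (0:ℝ) < 1 / 2 by norm_num)]
        linarith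
      have g2 : |k i * r| ≤ b i * C * L⁻¹ := by
        rw [abs_mul, Nat.abs_cast, hkb]
        calc b i * L ^ 2 * |r| ≤ b i * L ^ 2 * (C / L ^ 3) := by gcongr
          _ = _ := by field_simp
      have g3 : |k i * ((t - 1 / L) * (t + 1 / L)) / 2| ≤ b i * (3 * (1 + B + C)) * L⁻¹ := by
        rw [abs_div, abs_mul, abs_mul, Nat.abs_cast, hkb, abs_two]
        have g4 : |t + 1 / L| ≤ 3 / L := by
          refine (abs_add_le _ _).trans ?_
          rw [abs_of_pos (show 0 < 1 / L by positivity)]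
          calc |t| + 1 / L ≤ 2 / L + 1 / L := by gcongr
            _ = _ := by ring
        calc b i * L ^ 2 * (|t - 1 / L| * |t + 1 / L|) / 2 ≤
            b i * L ^ 2 * ((1 + B + C) / L ^ 2 * (3 / L)) / 2 := by gcongr
          _ = b i * (3 * (1 + B + C)) * L⁻¹ / 2 := by field_simp
          _ ≤ _ := by
              have : 0 ≤ b i * (3 * (1 + B + C)) * L⁻¹ := by positivity
              linarith
      have g5 : |k i * (t + t ^ 2 / 2 + Real.log (1 - t))| ≤ b i * 16 * L⁻¹ := by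
        rw [abs_mul, Nat.abs_cast, hkb]
        calc b i * L ^ 2 * |t + t ^ 2 / 2 + Real.log (1 - t)| ≤ b i * L ^ 2 * (2 * |t| ^ 3) := by gcongr
          _ ≤ b i * L ^ 2 * (2 * (2 / L) ^ 3) := by gcongr
          _ = _ := by field_simp; norm_num
      have g6 : δ i = |a i| + (2 + B) * |b i - ρ| + (b i * C * L⁻¹ + b i * (3 * (1 + B + C)) * L⁻¹ + b i * 16 * L⁻¹) := by
        simp only [hδ]
        rw [abs_of_nonneg hb00, hK]
        ring
      rw [g6]
      have g7 : ∀ p q s v w : ℝ, |-p + q - s - v + w| ≤ |p| + |q| + |s| + |v| + |w| := by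
        intro p q s v w
        calc |-p + q - s - v + w| ≤ |-p + q - s - v| + |w| := abs_add_le _ _
          _ ≤ |-p + q - s| + |v| + |w| := by gcongr; exact abs_sub _ _
          _ ≤ |-p + q| + |s| + |v| + |w| := by gcongr; exact abs_sub _ _
          _ ≤ |-p| + |q| + |s| + |v| + |w| := by gcongr; exact abs_add_le _ _
          _ = _ := by rw [abs_neg]
      refine (g7 _ _ _ _ _).trans ?_
      linarith
    have hXp : (0:ℝ) < X i := by linarith
    have e6 : (X i : ℝ) * (1 - t) ^ (k i) = G x * Real.exp E := by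
      simp only [hG]
      rw [← Real.exp_add, ← Real.exp_add, hE]
      have : -u + ρ * (psi0 x - 3 / 2) + (Real.log (X i) + k i * Real.log (1 - t) - (-u + ρ * (psi0 x - 3 / 2))) =
          Real.log (X i) + k i * Real.log (1 - t) := by ring
      rw [this, Real.exp_add, Real.exp_log hXp, Real.exp_nat_mul, Real.exp_log ht5]
    rw [e6]
    have e7 : G x * Real.exp E - G x = G x * (Real.exp E - 1) := by ring
    have hGp : 0 < G x := by simp only [hG]; positivity
    rw [e7, abs_mul, abs_of_pos hGp]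
    have h9 := Real.abs_exp_sub_one_le (hEb.trans hi1)
    calc G x * |Real.exp E - 1| ≤ M * (2 * δ i) := by
          have := hGM x hx01
          have hM0 : 0 ≤ M := by simp only [hM]; positivity
          gcongr
          linarith
      _ = _ := by ring
  have hR : Tendsto (fun i => (∑ n ∈ Icc 1 (Y i), G ((n : ℝ) / Y i)) / Y i) atTop (𝓝 (∫ x in (0:ℝ)..1, G x)) :=
    (riemann hGc).comp hY
  have hD : Tendsto (fun i => (X i : ℝ) * ((∑ n ∈ Icc 1 (Y i), (1 - th Q (Y i) n) ^ (k i)) / Y i) -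
      (∑ n ∈ Icc 1 (Y i), G ((n : ℝ) / Y i)) / Y i) atTop (𝓝 0) := by
    refine squeeze_zero_norm' (a := fun i => 2 * M * δ i) ?_ ?_
    · filter_upwards [key, hY.eventually_ge_atTop 1] with i hi hYi
      have hYp : (0:ℝ) < Y i := by exact_mod_cast (by omega : 0 < Y i)
      have e : (X i : ℝ) * ((∑ n ∈ Icc 1 (Y i), (1 - th Q (Y i) n) ^ (k i)) / Y i) -
          (∑ n ∈ Icc 1 (Y i), G ((n : ℝ) / Y i)) / Y i =
          (∑ n ∈ Icc 1 (Y i), ((X i : ℝ) * (1 - th Q (Y i) n) ^ (k i) - G ((n : ℝ) / Y i))) / Y i := by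
        have e0 : ∑ n ∈ Icc 1 (Y i), ((X i : ℝ) * (1 - th Q (Y i) n) ^ (k i) - G ((n : ℝ) / Y i)) =
            (X i : ℝ) * ∑ n ∈ Icc 1 (Y i), (1 - th Q (Y i) n) ^ (k i) - ∑ n ∈ Icc 1 (Y i), G ((n : ℝ) / Y i) := by
          rw [sum_sub_distrib, mul_sum]
        rw [e0, mul_div_assoc', sub_div]
      rw [e, Real.norm_eq_abs, abs_div, abs_of_pos hYp, div_le_iff₀ hYp]
      refine (abs_sum_le_sum_abs _ _).trans ((sum_le_sum hi).trans ?_)
      rw [sum_const, Nat.card_Icc, nsmul_eq_mul, Nat.add_sub_cancel]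
      exact le_of_eq (by ring)
    · have := hδ0.const_mul (2 * M)
      rwa [mul_zero] at this
  have hfin := hD.add hR
  rw [zero_add] at hfin
  have e8 : ∫ x in (0:ℝ)..1, G x = Real.exp (-u) * ∫ x in (0 : ℝ)..1,
      Real.exp (ρ * ((x + 1) * Real.log (x + 1) - x * Real.log x - 3 / 2)) := by
    simp only [hG, psi0]
    rw [intervalIntegral.integral_const_mul]
  rw [e8] at hfin
  refine hfin.congr fun i => ?_
  ring



end Pool.Agent.Q145.GQ
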