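import Pool.Agent.Q145.GQ.Mean
import Pool.Agent.Q162.GC.Proc

set_option autoImplicit false
set_option maxHeartbeats 4000000

/-! # The missed points disappear independently, for a general set
(adapted from `Pool.Agent.Q162.GC` of helper162) -/

namespace Pool.Agent.Q145.GQ

open Finset Filter Topology
open Pool.Agent.Q145.GC (bino)
open Pool.Agent.Q162.GC (Om mem_Om card_Om one_coord indep cf cf_abs bino_sum bino_powerset bino_one ind_powerset bino_abs pow_sum bonf
  log_one_sub_ge log_one_sub_le exp_lip)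

open scoped Classical

/-- degrees -/
def ThQ (Q : ℕ → Prop) : Prop := ∃ (C : ℝ) (Y₀ : ℕ), ∀ Y : ℕ, Y₀ ≤ Y → ∀ n : ℕ, 1 ≤ n → n ≤ Y →
  |th Q Y n - 1 / Real.log Y| ≤ C / Real.log Y ^ 2

/-- pairs -/
def PairQ (Q : ℕ → Prop) : Prop := ∃ C : ℝ, 0 < C ∧ ∃ Y₀ : ℕ, ∀ Y : ℕ, Y₀ ≤ Y → ∀ n m : ℕ, 1 ≤ n → n ≤ Y → 1 ≤ m → m ≤ Y → n ≠ m →
  (((Icc 1 Y).filter (fun s => Q (n + s) ∧ Q (m + s))).card : ℝ) ≤ C * (Real.log (Real.log Y) / Real.log Y ^ 2) * Y

/-- the points missed by the first `m` shifts -/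
noncomputable def Mi (Q : ℕ → Prop) (V : Finset ℕ) {K : ℕ} (a : Fin K → ℕ) (m : ℕ) : Finset ℕ :=
  V.filter (fun n => ∀ i : Fin K, (i : ℕ) < m → ¬ Q (n + a i))

lemma card_Mi (Q : ℕ → Prop) (V : Finset ℕ) {K : ℕ} (a : Fin K → ℕ) (m : ℕ) : (Mi Q V a m).card = mis Q V a m := rfl

/-- proportion of the shifts missing all of `H` -/
noncomputable def ww (Q : ℕ → Prop) (Y : ℕ) (H : Finset ℕ) : ℝ := (((Icc 1 Y).filter (fun s => ∀ n ∈ H, ¬ Q (n + s))).card : ℝ) / Y

/-- **one stage** -/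
lemma stage (Q : ℕ → Prop) (V : Finset ℕ) (Y K m m' B b : ℕ) (hY : 1 ≤ Y) (hm : m ≤ m') (hK : m' ≤ K) (E : (Fin K → ℕ) → Prop)
    (hE : ∀ j : Fin K, m ≤ (j : ℕ) → ∀ a s, (E (Function.update a j s) ↔ E a))
    (hEB : ∀ a, E a → mis Q V a m = B) (q ε : ℝ) (hε : 0 ≤ ε)
    (hw : ∀ H ⊆ V, H.card ≤ B → |ww Q Y H ^ (m' - m) - q ^ H.card| ≤ ε) :
    |(((Om K (Icc 1 Y)).filter (fun a => E a ∧ mis Q V a m' = b)).card : ℝ) / (Y : ℝ) ^ K -
      (((Om K (Icc 1 Y)).filter E).card : ℝ) / (Y : ℝ) ^ K * bino B b q| ≤ 4 ^ B * ε := by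
  have hY0 : (0 : ℝ) < Y := by exact_mod_cast hY
  have hcY : ((Icc 1 Y).card : ℝ) = Y := by simp
  obtain ⟨J, hJ⟩ : ∃ J : Finset (Fin K), J = univ.filter (fun i : Fin K => m ≤ (i : ℕ) ∧ (i : ℕ) < m') := ⟨_, rfl⟩
  have hJc : J.card = m' - m := by
    rw [hJ]
    have : (univ.filter (fun i : Fin K => m ≤ (i : ℕ) ∧ (i : ℕ) < m')).card = (Ico m m').card := by
      apply card_bij (fun (i : Fin K) _ => (i : ℕ))
      · intro i hi
        rw [mem_filter] at hi
        rw [mem_Ico]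
        exact hi.2
      · intro i _ j _ h
        exact Fin.ext h
      · intro x hx
        rw [mem_Ico] at hx
        exact ⟨⟨x, by omega⟩, by simp [hx.1, hx.2], rfl⟩
    rw [this, Nat.card_Ico]
  -- the weights
  obtain ⟨f, hf⟩ : ∃ f : Finset ℕ → (Fin K → ℕ) → ℝ, f = fun H a => if E a ∧ H ⊆ Mi Q V a m then 1 else 0 := ⟨_, rfl⟩
  obtain ⟨φ, hφ⟩ : ∃ φ : Finset ℕ → ℕ → ℝ, φ = fun H s => if ∀ n ∈ H, ¬ Q (n + s) then 1 else 0 := ⟨_, rfl⟩
  have hφs : ∀ H, ∑ s ∈ Icc 1 Y, φ H s = ww Q Y H * Y := by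
    intro H
    rw [hφ]
    unfold ww
    rw [div_mul_cancel₀ _ hY0.ne']
    simp only
    rw [sum_boole]
  have hupd : ∀ H, ∀ j ∈ J, ∀ a s, f H (Function.update a j s) = f H a := by
    intro H j hj a s
    rw [hJ, mem_filter] at hj
    rw [hf]
    simp only
    have e1 : Mi Q V (Function.update a j s) m = Mi Q V a m := by
      unfold Mi
      apply filter_congr
      intro n _
      apply forall_congr'
      intro i
      constructor
      · intro h hi
        have hij : i ≠ j := by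
          intro h'
          rw [h'] at hi
          omega
        have := h hi
        rwa [Function.update_of_ne hij] at this
      · intro h hi
        have hij : i ≠ j := by
          intro h'
          rw [h'] at hi
          omega
        rw [Function.update_of_ne hij]
        exact h hi
    rw [e1, hE j hj.2.1 a s]
  have hind : ∀ H, ∑ a ∈ Om K (Icc 1 Y), f H a * ∏ i ∈ J, φ H (a i) = (∑ a ∈ Om K (Icc 1 Y), f H a) * ww Q Y H ^ (m' - m) := by
    intro H
    have h1 := indep (Icc 1 Y) (φ H) J (f H) (hupd H)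
    rw [hcY, hφs, mul_pow, ← mul_assoc, hJc] at h1
    exact mul_right_cancel₀ (by positivity) h1
  -- the first count
  have c1 : (((Om K (Icc 1 Y)).filter (fun a => E a ∧ mis Q V a m' = b)).card : ℝ) =
      ∑ H ∈ V.powerset, cf b H.card * ((∑ a ∈ Om K (Icc 1 Y), f H a) * ww Q Y H ^ (m' - m)) := by
    calc (((Om K (Icc 1 Y)).filter (fun a => E a ∧ mis Q V a m' = b)).card : ℝ) =
        ∑ a ∈ Om K (Icc 1 Y), ∑ H ∈ V.powerset, cf b H.card * (f H a * ∏ i ∈ J, φ H (a i)) := by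
          rw [card_filter, Nat.cast_sum]
          apply sum_congr rfl
          intro a _
          have hkey : ∀ H ∈ V.powerset, cf b H.card * (f H a * ∏ i ∈ J, φ H (a i)) =
              if E a ∧ H ⊆ Mi Q V a m' then cf b H.card else 0 := by
            intro H hH
            rw [mem_powerset] at hH
            have hprod : ∏ i ∈ J, φ H (a i) = if ∀ i ∈ J, ∀ n ∈ H, ¬ Q (n + a i) then 1 else 0 := by
              rw [hφ]
              simp only
              rw [prod_boole]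
              congr
            have hiff : (E a ∧ H ⊆ Mi Q V a m) ∧ (∀ i ∈ J, ∀ n ∈ H, ¬ Q (n + a i)) ↔ E a ∧ H ⊆ Mi Q V a m' := by
              rw [and_assoc]
              apply and_congr_right
              intro _
              constructor
              · rintro ⟨h1, h2⟩ n hn
                unfold Mi
                rw [mem_filter]
                refine ⟨hH hn, ?_⟩
                intro i hi
                rcases lt_or_ge (i : ℕ) m with h3 | h3
                · have := h1 hn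
                  unfold Mi at this
                  rw [mem_filter] at this
                  exact this.2 i h3
                · exact h2 i (by rw [hJ, mem_filter]; exact ⟨mem_univ _, h3, hi⟩) n hn
              · intro h1
                constructor
                · intro n hn
                  have := h1 hn
                  unfold Mi at this ⊢
                  rw [mem_filter] at this ⊢
                  exact ⟨this.1, fun i hi => this.2 i (by omega)⟩
                · intro i hi n hn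
                  rw [hJ, mem_filter] at hi
                  have := h1 hn
                  unfold Mi at this
                  rw [mem_filter] at this
                  exact this.2 i hi.2.2
            rw [hprod, hf]
            simp only
            by_cases h1 : E a ∧ H ⊆ Mi Q V a m
            · by_cases h2 : ∀ i ∈ J, ∀ n ∈ H, ¬ Q (n + a i)
              · rw [if_pos h1, if_pos h2, if_pos (hiff.1 ⟨h1, h2⟩)]; ring
              · rw [if_neg h2, if_neg (fun h => h2 (hiff.2 h).2)]; ring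
            · rw [if_neg h1, if_neg (fun h => h1 (hiff.2 h).1)]; ring
          rw [sum_congr rfl hkey]
          by_cases hEa : E a
          · simp only [hEa, true_and]
            rw [pow_sum V (Mi Q V a m') (filter_subset _ _), ind_powerset, card_Mi]
            split_ifs <;> simp
          · simp only [hEa, false_and, if_false]
            simp
      _ = ∑ H ∈ V.powerset, cf b H.card * ∑ a ∈ Om K (Icc 1 Y), f H a * ∏ i ∈ J, φ H (a i) := by
          rw [sum_comm]
          apply sum_congr rfl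
          intro H _
          rw [mul_sum]
      _ = _ := by
          apply sum_congr rfl
          intro H _
          rw [hind]
  -- sums of `f`
  have hfsum : ∀ g : ℕ → ℝ, ∀ a, ∑ H ∈ V.powerset, g H.card * f H a =
      if E a then ∑ H ∈ (Mi Q V a m).powerset, g H.card else 0 := by
    intro g a
    rw [hf]
    by_cases hEa : E a
    · simp only [hEa, true_and, if_true, mul_ite, mul_one, mul_zero]
      rw [pow_sum V (Mi Q V a m) (filter_subset _ _) (fun H => g H.card)]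
    · simp only [hEa, false_and, if_false, mul_zero]
      simp
  have hcE : (((Om K (Icc 1 Y)).filter E).card : ℝ) = ∑ a ∈ Om K (Icc 1 Y), if E a then 1 else 0 := by
    rw [card_filter, Nat.cast_sum]
    apply sum_congr rfl
    intro a _
    split_ifs <;> simp
  have c2 : (((Om K (Icc 1 Y)).filter E).card : ℝ) * bino B b q =
      ∑ H ∈ V.powerset, cf b H.card * ((∑ a ∈ Om K (Icc 1 Y), f H a) * q ^ H.card) := by
    calc (((Om K (Icc 1 Y)).filter E).card : ℝ) * bino B b q = ∑ a ∈ Om K (Icc 1 Y), ∑ H ∈ V.powerset, (cf b H.card * q ^ H.card) * f H a := by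
          rw [hcE, sum_mul]
          apply sum_congr rfl
          intro a _
          rw [hfsum (fun h => cf b h * q ^ h) a, bino_powerset, card_Mi]
          split_ifs with hEa
          · rw [hEB a hEa, one_mul]
          · rw [zero_mul]
      _ = ∑ H ∈ V.powerset, ∑ a ∈ Om K (Icc 1 Y), (cf b H.card * q ^ H.card) * f H a := sum_comm
      _ = _ := by
          apply sum_congr rfl
          intro H _
          rw [← mul_sum]
          ring
  have hYK : (0 : ℝ) < (Y : ℝ) ^ K := by positivity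
  have hf0 : ∀ H a, 0 ≤ f H a := by
    intro H a
    rw [hf]
    simp only
    split_ifs <;> norm_num
  rw [div_mul_eq_mul_div, div_sub_div_same, abs_div, abs_of_pos hYK, div_le_iff₀ hYK, c1, c2, ← sum_sub_distrib]
  calc |∑ H ∈ V.powerset, (cf b H.card * ((∑ a ∈ Om K (Icc 1 Y), f H a) * ww Q Y H ^ (m' - m)) -
        cf b H.card * ((∑ a ∈ Om K (Icc 1 Y), f H a) * q ^ H.card))| ≤
      ∑ H ∈ V.powerset, |cf b H.card * ((∑ a ∈ Om K (Icc 1 Y), f H a) * ww Q Y H ^ (m' - m)) -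
        cf b H.card * ((∑ a ∈ Om K (Icc 1 Y), f H a) * q ^ H.card)| := abs_sum_le_sum_abs _ _
    _ ≤ ∑ H ∈ V.powerset, ∑ a ∈ Om K (Icc 1 Y), (2 : ℝ) ^ H.card * f H a * ε := by
        apply sum_le_sum
        intro H hH
        rw [mem_powerset] at hH
        rw [← sum_mul, ← mul_sum]
        have hF : 0 ≤ ∑ a ∈ Om K (Icc 1 Y), f H a := sum_nonneg fun a _ => hf0 H a
        have e1 : cf b H.card * ((∑ a ∈ Om K (Icc 1 Y), f H a) * ww Q Y H ^ (m' - m)) -
          cf b H.card * ((∑ a ∈ Om K (Icc 1 Y), f H a) * q ^ H.card) =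
          cf b H.card * (∑ a ∈ Om K (Icc 1 Y), f H a) * (ww Q Y H ^ (m' - m) - q ^ H.card) := by ring
        rw [e1, abs_mul, abs_mul, abs_of_nonneg hF]
        rcases le_or_gt H.card B with hHB | hHB
        · apply mul_le_mul (mul_le_mul_of_nonneg_right (cf_abs _ _) hF) (hw H hH hHB) (abs_nonneg _) (by positivity)
        · have e2 : ∑ a ∈ Om K (Icc 1 Y), f H a = 0 := by
            apply sum_eq_zero
            intro a _
            rw [hf]
            simp only
            rw [if_neg]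
            rintro ⟨h1, h2⟩
            have := card_le_card h2
            rw [card_Mi, hEB a h1] at this
            omega
          rw [e2]
          simp
    _ = ∑ a ∈ Om K (Icc 1 Y), ∑ H ∈ V.powerset, (2 : ℝ) ^ H.card * f H a * ε := sum_comm
    _ = ∑ a ∈ Om K (Icc 1 Y), (if E a then ∑ H ∈ (Mi Q V a m).powerset, (2 : ℝ) ^ H.card else 0) * ε := by
        apply sum_congr rfl
        intro a _
        rw [← sum_mul, hfsum (fun h => (2 : ℝ) ^ h) a]
    _ ≤ ∑ a ∈ Om K (Icc 1 Y), (4 : ℝ) ^ B * ε := by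
        apply sum_le_sum
        intro a _
        apply mul_le_mul_of_nonneg_right _ hε
        split_ifs with hEa
        · have hc : (Mi Q V a m).card = B := by rw [card_Mi, hEB a hEa]
          calc ∑ H ∈ (Mi Q V a m).powerset, (2 : ℝ) ^ H.card ≤ ∑ H ∈ (Mi Q V a m).powerset, (2 : ℝ) ^ B := by
                apply sum_le_sum
                intro H hH
                rw [mem_powerset] at hH
                apply pow_le_pow_right₀ (by norm_num)
                rw [← hc]
                exact card_le_card hH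
            _ = 4 ^ B := by
                rw [sum_const, card_powerset, hc, nsmul_eq_mul]
                push_cast
                rw [← mul_pow]
                norm_num
        · positivity
    _ = _ := by
        rw [sum_const, card_Om, nsmul_eq_mul]
        push_cast
        rw [hcY]
        ring



theorem ww_bd (Q : ℕ → Prop) (hTh : ThQ Q) (hP : PairQ Q) (B : ℕ) : ∃ C : ℝ, 0 < C ∧ ∃ Y₀ : ℕ, ∀ Y : ℕ, Y₀ ≤ Y → ∀ H ⊆ Icc 1 Y, H.card ≤ B →
    |Real.log Y * (1 - ww Q Y H) - H.card| ≤ C * (Real.log (Real.log Y) / Real.log Y) := by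
  obtain ⟨C₁, Y₁, h1⟩ := hTh
  obtain ⟨C₂, hC₂, Y₂, h2⟩ := hP
  have hl : Tendsto (fun Y : ℕ => Real.log Y) atTop atTop := Real.tendsto_log_atTop.comp tendsto_natCast_atTop_atTop
  obtain ⟨Y₃, h3⟩ := eventually_atTop.1 ((hl.eventually_ge_atTop 3).and ((Real.tendsto_log_atTop.comp hl).eventually_ge_atTop 1))
  refine ⟨B * |C₁| + B ^ 2 * C₂ + 1, by positivity, max (max Y₁ Y₂) (max Y₃ 1), ?_⟩
  intro Y hY H hH hHB
  have g1 : Y₁ ≤ Y := ((le_max_left _ _).trans (le_max_left _ _)).trans hY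
  have g2 : Y₂ ≤ Y := ((le_max_right _ _).trans (le_max_left _ _)).trans hY
  have g3 : Y₃ ≤ Y := ((le_max_left _ _).trans (le_max_right _ _)).trans hY
  have g4 : 1 ≤ Y := ((le_max_right _ _).trans (le_max_right _ _)).trans hY
  obtain ⟨hL3, hl1⟩ := h3 Y g3
  simp only [Function.comp] at hl1
  obtain ⟨L, hL⟩ : ∃ L, L = Real.log (Y : ℝ) := ⟨_, rfl⟩
  rw [← hL] at hL3 hl1 ⊢
  obtain ⟨l, hll⟩ : ∃ l, l = Real.log L := ⟨_, rfl⟩
  rw [← hll] at hl1 ⊢
  have hY0 : (0 : ℝ) < Y := by exact_mod_cast g4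
  have hL0 : 0 < L := by linarith
  obtain ⟨A, hA⟩ : ∃ A : ℕ → Finset ℕ, A = fun n => (Icc 1 Y).filter (fun s => Q (n + s)) := ⟨_, rfl⟩
  have hAth : ∀ n, ((A n).card : ℝ) = th Q Y n * Y := by
    intro n
    unfold th
    rw [div_mul_cancel₀ _ hY0.ne', hA]
  have hAsub : ∀ n, A n ⊆ Icc 1 Y := by
    intro n
    rw [hA]
    exact filter_subset _ _
  -- complement
  have hU : ((H.biUnion A).card : ℝ) = (1 - ww Q Y H) * Y := by
    have e1 : (Icc 1 Y).filter (fun s => ∀ n ∈ H, ¬ Q (n + s)) = Icc 1 Y \ H.biUnion A := by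
      ext s
      rw [mem_filter, Finset.mem_sdiff, mem_biUnion, hA]
      simp only [mem_filter]
      constructor
      · rintro ⟨a1, a2⟩
        refine ⟨a1, ?_⟩
        rintro ⟨n, hn, _, h'⟩
        exact a2 n hn h'
      · rintro ⟨a1, a2⟩
        exact ⟨a1, fun n hn h' => a2 ⟨n, hn, a1, h'⟩⟩
    have e2 : H.biUnion A ⊆ Icc 1 Y := by
      intro s hs
      rw [mem_biUnion] at hs
      obtain ⟨n, _, h⟩ := hs
      exact hAsub n h
    unfold ww
    rw [e1, card_sdiff_of_subset e2, Nat.cast_sub (card_le_card e2)]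
    simp
    field_simp
    ring
  have hup : (1 - ww Q Y H) ≤ ∑ n ∈ H, th Q Y n := by
    have e1 : ((H.biUnion A).card : ℝ) ≤ ∑ n ∈ H, ((A n).card : ℝ) := by exact_mod_cast card_biUnion_le
    rw [hU, sum_congr rfl (fun n _ => hAth n), ← sum_mul] at e1
    exact le_of_mul_le_mul_right e1 hY0
  have hoff : ∑ p ∈ H.offDiag, ((A p.1 ∩ A p.2).card : ℝ) ≤ (B : ℝ) ^ 2 * (C₂ * (l / L ^ 2) * Y) := by
    have e1 : ∀ p ∈ H.offDiag, ((A p.1 ∩ A p.2).card : ℝ) ≤ C₂ * (l / L ^ 2) * Y := by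
      intro p hp
      rw [mem_offDiag] at hp
      obtain ⟨hp1, hp2, hp3⟩ := hp
      obtain ⟨m1, m2⟩ := mem_Icc.1 (hH hp1)
      obtain ⟨m3, m4⟩ := mem_Icc.1 (hH hp2)
      have e2 := h2 Y g2 p.1 p.2 m1 m2 m3 m4 hp3
      have e3 : A p.1 ∩ A p.2 ⊆ (Icc 1 Y).filter (fun s => Q (p.1 + s) ∧ Q (p.2 + s)) := by
        intro s hs
        rw [hA, mem_inter] at hs
        simp only [mem_filter] at hs
        rw [mem_filter]
        exact ⟨hs.1.1, hs.1.2, hs.2.2⟩
      have e4 : ((A p.1 ∩ A p.2).card : ℝ) ≤ (((Icc 1 Y).filter (fun s => Q (p.1 + s) ∧ Q (p.2 + s))).card : ℝ) := by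
        exact_mod_cast card_le_card e3
      rw [← hL, ← hll] at e2
      exact e4.trans e2
    refine (sum_le_sum e1).trans ?_
    rw [sum_const, nsmul_eq_mul]
    apply mul_le_mul_of_nonneg_right _ (by positivity)
    have e5 : H.offDiag.card ≤ B ^ 2 := by
      rw [offDiag_card]
      calc H.card * H.card - H.card ≤ H.card * H.card := Nat.sub_le _ _
        _ ≤ B * B := Nat.mul_le_mul hHB hHB
        _ = B ^ 2 := by ring
    exact_mod_cast e5
  have hlow : ∑ n ∈ H, th Q Y n ≤ (1 - ww Q Y H) + (B : ℝ) ^ 2 * (C₂ * (l / L ^ 2)) := by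
    have e1 : ∑ n ∈ H, ((A n).card : ℝ) ≤ ((H.biUnion A).card : ℝ) + ∑ p ∈ H.offDiag, ((A p.1 ∩ A p.2).card : ℝ) := by
      exact_mod_cast bonf H A
    rw [hU, sum_congr rfl (fun n _ => hAth n), ← sum_mul] at e1
    have e2 : (∑ n ∈ H, th Q Y n) * Y ≤ ((1 - ww Q Y H) + (B : ℝ) ^ 2 * (C₂ * (l / L ^ 2))) * Y := by
      rw [add_mul]
      linarith
    exact le_of_mul_le_mul_right e2 hY0
  have hsum : |∑ n ∈ H, th Q Y n - H.card * (1 / L)| ≤ B * (|C₁| / L ^ 2) := by
    have e1 : ∑ n ∈ H, th Q Y n - H.card * (1 / L) = ∑ n ∈ H, (th Q Y n - 1 / L) := by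
      rw [sum_sub_distrib, sum_const, nsmul_eq_mul]
    rw [e1]
    calc |∑ n ∈ H, (th Q Y n - 1 / L)| ≤ ∑ n ∈ H, |th Q Y n - 1 / L| := abs_sum_le_sum_abs _ _
      _ ≤ ∑ n ∈ H, |C₁| / L ^ 2 := by
          apply sum_le_sum
          intro n hn
          obtain ⟨n1, n2⟩ := mem_Icc.1 (hH hn)
          have := h1 Y g1 n n1 n2
          rw [← hL] at this
          exact this.trans (div_le_div_of_nonneg_right (le_abs_self _) (by positivity))
      _ = H.card * (|C₁| / L ^ 2) := by rw [sum_const, nsmul_eq_mul]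
      _ ≤ _ := mul_le_mul_of_nonneg_right (by exact_mod_cast hHB) (by positivity)
  obtain ⟨s1, s2⟩ := abs_le.1 hsum
  have hx : |(1 - ww Q Y H) - H.card * (1 / L)| ≤ B * (|C₁| / L ^ 2) + (B : ℝ) ^ 2 * (C₂ * (l / L ^ 2)) := by
    have e0 : 0 ≤ (B : ℝ) ^ 2 * (C₂ * (l / L ^ 2)) := by positivity
    rw [abs_le]
    constructor <;> linarith
  have hfin : L * (1 - ww Q Y H) - H.card = L * ((1 - ww Q Y H) - H.card * (1 / L)) := by
    field_simp
  rw [hfin, abs_mul, abs_of_pos hL0]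
  calc L * |(1 - ww Q Y H) - H.card * (1 / L)| ≤ L * (B * (|C₁| / L ^ 2) + (B : ℝ) ^ 2 * (C₂ * (l / L ^ 2))) :=
        mul_le_mul_of_nonneg_left hx hL0.le
    _ = (B * |C₁|) * (1 / L) + (B : ℝ) ^ 2 * C₂ * (l / L) := by
        field_simp
    _ ≤ (B * |C₁|) * (l / L) + (B : ℝ) ^ 2 * C₂ * (l / L) := by
        have : 1 / L ≤ l / L := div_le_div_of_nonneg_right hl1 hL0.le
        have h0 : 0 ≤ B * |C₁| := by positivity
        nlinarith
    _ ≤ _ := by
        have : 0 ≤ l / L := div_nonneg (by linarith) hL0.le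
        nlinarith


/-- two values of the mean -/
theorem mean_bd (Q : ℕ → Prop) (hTh : ThQ Q) : ∃ C : ℝ, 0 < C ∧ ∃ Y₀ : ℕ, ∀ Y : ℕ, Y₀ ≤ Y → ∀ X k d : ℕ,
    mean Q X Y k * Real.exp (-(d / Real.log Y * (1 + C / Real.log Y))) ≤ mean Q X Y (k + d) ∧
    mean Q X Y (k + d) ≤ mean Q X Y k * Real.exp (-(d / Real.log Y * (1 - C / Real.log Y))) := by
  obtain ⟨C₁, Y₁, h1⟩ := hTh
  have hl : Tendsto (fun Y : ℕ => Real.log Y) atTop atTop := Real.tendsto_log_atTop.comp tendsto_natCast_atTop_atTop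
  obtain ⟨Y₃, h3⟩ := eventually_atTop.1 (hl.eventually_ge_atTop (4 + |C₁|))
  refine ⟨|C₁| + 8, by positivity, max (max Y₁ Y₃) 1, ?_⟩
  intro Y hY X k d
  have g1 : Y₁ ≤ Y := ((le_max_left _ _).trans (le_max_left _ _)).trans hY
  have g3 : Y₃ ≤ Y := ((le_max_right _ _).trans (le_max_left _ _)).trans hY
  have g4 : 1 ≤ Y := (le_max_right _ _).trans hY
  have hL3 := h3 Y g3
  obtain ⟨L, hL⟩ : ∃ L, L = Real.log (Y : ℝ) := ⟨_, rfl⟩
  rw [← hL] at hL3 ⊢
  have hC0 := abs_nonneg C₁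
  have hL0 : 0 < L := by linarith
  have hY0 : (0 : ℝ) < Y := by exact_mod_cast g4
  have hinv : 1 / L ≤ 1 / 4 := one_div_le_one_div_of_le (by norm_num) (by linarith)
  have hinv0 : 0 < 1 / L := by positivity
  have hCL : |C₁| / L ^ 2 ≤ 1 / L := by
    rw [div_le_div_iff₀ (by positivity) hL0, one_mul, sq]
    exact mul_le_mul_of_nonneg_right (by linarith) hL0.le
  have key : ∀ n ∈ Icc 1 Y, 0 ≤ 1 - th Q Y n ∧ Real.exp (-(d / L * (1 + (|C₁| + 8) / L))) ≤ (1 - th Q Y n) ^ d ∧
      (1 - th Q Y n) ^ d ≤ Real.exp (-(d / L * (1 - (|C₁| + 8) / L))) := by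
    intro n hn
    obtain ⟨n1, n2⟩ := mem_Icc.1 hn
    have h4 := h1 Y g1 n n1 n2
    rw [← hL] at h4
    obtain ⟨h5, h6⟩ := abs_le.1 (h4.trans (div_le_div_of_nonneg_right (le_abs_self C₁) (by positivity)))
    have h7 : th Q Y n ≤ 2 / L := by
      have : (2 : ℝ) / L = 1 / L + 1 / L := by ring
      linarith
    have h7' : th Q Y n ≤ 1 / 2 := by
      have : (2 : ℝ) / L = 2 * (1 / L) := by ring
      linarith
    have h8 : 0 ≤ th Q Y n := by
      unfold th
      positivity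
    have h9 : 0 < 1 - th Q Y n := by linarith
    have h10 : (1 - th Q Y n) ^ d = Real.exp (d * Real.log (1 - th Q Y n)) := by
      rw [mul_comm, Real.exp_mul, Real.exp_log h9, Real.rpow_natCast]
    refine ⟨h9.le, ?_, ?_⟩
    · rw [h10]
      apply Real.exp_le_exp.2
      have h11 := log_one_sub_ge h8 h7'
      have h12 : th Q Y n ^ 2 ≤ 4 / L ^ 2 := by
        have : th Q Y n ^ 2 ≤ (2 / L) ^ 2 := pow_le_pow_left₀ h8 h7 2
        refine this.trans (le_of_eq ?_)
        rw [div_pow]; norm_num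
      have h13 : -(1 / L) - (|C₁| + 8) / L ^ 2 ≤ Real.log (1 - th Q Y n) := by
        have : (|C₁| + 8) / L ^ 2 = |C₁| / L ^ 2 + 2 * (4 / L ^ 2) := by ring
        linarith
      have h14 : -(d / L * (1 + (|C₁| + 8) / L)) = d * (-(1 / L) - (|C₁| + 8) / L ^ 2) := by
        field_simp
        ring
      rw [h14]
      exact mul_le_mul_of_nonneg_left h13 (Nat.cast_nonneg _)
    · rw [h10]
      apply Real.exp_le_exp.2
      have h11 := log_one_sub_le (t := th Q Y n) (by linarith)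
      have h13 : Real.log (1 - th Q Y n) ≤ -(1 / L) + (|C₁| + 8) / L ^ 2 := by
        have : (|C₁| + 8) / L ^ 2 = |C₁| / L ^ 2 + 8 / L ^ 2 := by ring
        have h0 : 0 ≤ 8 / L ^ 2 := by positivity
        linarith
      have h14 : -(d / L * (1 - (|C₁| + 8) / L)) = d * (-(1 / L) + (|C₁| + 8) / L ^ 2) := by
        field_simp
        ring
      rw [h14]
      exact mul_le_mul_of_nonneg_left h13 (Nat.cast_nonneg _)
  unfold mean
  have hm : ∀ e : ℝ, (X : ℝ) * ((∑ n ∈ Icc 1 Y, (1 - th Q Y n) ^ k) / Y) * e = X * ((∑ n ∈ Icc 1 Y, (1 - th Q Y n) ^ k * e) / Y) := by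
    intro e
    rw [← sum_mul]
    ring
  constructor
  · rw [hm]
    apply mul_le_mul_of_nonneg_left _ (Nat.cast_nonneg _)
    apply div_le_div_of_nonneg_right _ hY0.le
    apply sum_le_sum
    intro n hn
    obtain ⟨k1, k2, k3⟩ := key n hn
    rw [pow_add]
    exact mul_le_mul_of_nonneg_left k2 (pow_nonneg k1 _)
  · rw [hm]
    apply mul_le_mul_of_nonneg_left _ (Nat.cast_nonneg _)
    apply div_le_div_of_nonneg_right _ hY0.le
    apply sum_le_sum
    intro n hn
    obtain ⟨k1, k2, k3⟩ := key n hn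
    rw [pow_add]
    exact mul_le_mul_of_nonneg_left k3 (pow_nonneg k1 _)

/-- the differences of the numbers of shifts -/
theorem kap_lim (Q : ℕ → Prop) (hTh : ThQ Q) (X Y k k' : ℕ → ℕ) (hY : Tendsto Y atTop atTop) (hk : ∀ i, k i ≤ k' i) (lam lam' : ℝ)
    (h0 : 0 < lam) (h0' : 0 < lam') (h1 : Tendsto (fun i => mean Q (X i) (Y i) (k i)) atTop (𝓝 lam))
    (h2 : Tendsto (fun i => mean Q (X i) (Y i) (k' i)) atTop (𝓝 lam')) :
    Tendsto (fun i => ((k' i - k i : ℕ) : ℝ) / Real.log (Y i)) atTop (𝓝 (-Real.log (lam' / lam))) := by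
  obtain ⟨C, hC, Y₀, h3⟩ := mean_bd Q hTh
  have hL : Tendsto (fun i => Real.log (Y i : ℝ)) atTop atTop :=
    Real.tendsto_log_atTop.comp (tendsto_natCast_atTop_atTop.comp hY)
  have hR : Tendsto (fun i => -Real.log (mean Q (X i) (Y i) (k' i) / mean Q (X i) (Y i) (k i))) atTop (𝓝 (-Real.log (lam' / lam))) := by
    apply Tendsto.neg
    apply Tendsto.log (h2.div h1 h0.ne')
    positivity
  have hCL : Tendsto (fun i => C / Real.log (Y i : ℝ)) atTop (𝓝 0) := hL.const_div_atTop C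
  have hlo : Tendsto (fun i => -Real.log (mean Q (X i) (Y i) (k' i) / mean Q (X i) (Y i) (k i)) / (1 + C / Real.log (Y i : ℝ)))
      atTop (𝓝 (-Real.log (lam' / lam))) := by
    have h := hR.div ((tendsto_const_nhds (x := (1 : ℝ))).add hCL) (by norm_num)
    rw [add_zero, div_one] at h
    exact h
  have hhi : Tendsto (fun i => -Real.log (mean Q (X i) (Y i) (k' i) / mean Q (X i) (Y i) (k i)) / (1 - C / Real.log (Y i : ℝ)))
      atTop (𝓝 (-Real.log (lam' / lam))) := by
    have h := hR.div ((tendsto_const_nhds (x := (1 : ℝ))).sub hCL) (by norm_num)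
    rw [sub_zero, div_one] at h
    exact h
  have hev : ∀ᶠ i in atTop, Y₀ ≤ Y i ∧ 2 * C < Real.log (Y i : ℝ) ∧ 0 < Real.log (Y i : ℝ) ∧ 0 < mean Q (X i) (Y i) (k i) ∧
      0 < mean Q (X i) (Y i) (k' i) := by
    filter_upwards [hY.eventually_ge_atTop Y₀, hL.eventually_gt_atTop (2 * C), hL.eventually_gt_atTop 0,
      h1.eventually (lt_mem_nhds h0), h2.eventually (lt_mem_nhds h0')] with i a1 a2 a3 a4 a5
    exact ⟨a1, a2, a3, a4, a5⟩
  have hb : ∀ᶠ i in atTop, (-Real.log (mean Q (X i) (Y i) (k' i) / mean Q (X i) (Y i) (k i)) / (1 + C / Real.log (Y i : ℝ)) ≤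
      ((k' i - k i : ℕ) : ℝ) / Real.log (Y i)) ∧
      (((k' i - k i : ℕ) : ℝ) / Real.log (Y i) ≤ -Real.log (mean Q (X i) (Y i) (k' i) / mean Q (X i) (Y i) (k i)) / (1 - C / Real.log (Y i : ℝ))) := by
    filter_upwards [hev] with i hi
    obtain ⟨a1, a2, a3, a4, a5⟩ := hi
    obtain ⟨b1, b2⟩ := h3 (Y i) a1 (X i) (k i) (k' i - k i)
    rw [Nat.add_sub_cancel' (hk i)] at b1 b2
    have hc0 : 0 < C / Real.log (Y i : ℝ) := by positivity
    have hc1 : C / Real.log (Y i : ℝ) < 1 / 2 := by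
      rw [div_lt_div_iff₀ a3 (by norm_num)]
      linarith
    constructor
    · rw [div_le_iff₀ (by linarith), neg_le]
      rw [Real.le_log_iff_exp_le (by positivity), le_div_iff₀ a4, mul_comm]
      exact b1
    · rw [le_div_iff₀ (by linarith), le_neg]
      rw [Real.log_le_iff_le_exp (by positivity), div_le_iff₀ a4, mul_comm (Real.exp _)]
      exact b2
  exact tendsto_of_tendsto_of_tendsto_of_le_of_le' hlo hhi (hb.mono fun _ h => h.1) (hb.mono fun _ h => h.2)


/-- the probability that a small set is missed -/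
theorem pow_lim (Q : ℕ → Prop) (hTh : ThQ Q) (hP : PairQ Q) (B : ℕ) (Y d : ℕ → ℕ) (hY : Tendsto Y atTop atTop) (κ : ℝ) (hκ : 0 ≤ κ)
    (hd : Tendsto (fun i => (d i : ℝ) / Real.log (Y i)) atTop (𝓝 κ)) (ε : ℝ) (hε : 0 < ε) :
    ∀ᶠ i in atTop, ∀ H ⊆ Icc 1 (Y i), H.card ≤ B → |ww Q (Y i) H ^ (d i) - Real.exp (-κ) ^ H.card| ≤ ε := by
  obtain ⟨C, hC, Y₀, h3⟩ := ww_bd Q hTh hP B
  have hL : Tendsto (fun i => Real.log (Y i : ℝ)) atTop atTop :=
    Real.tendsto_log_atTop.comp (tendsto_natCast_atTop_atTop.comp hY)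
  have hδ : Tendsto (fun i => C * (Real.log (Real.log (Y i : ℝ)) / Real.log (Y i : ℝ))) atTop (𝓝 0) := by
    have h1 : Tendsto (fun x : ℝ => Real.log x / x) atTop (𝓝 0) := by
      have := Real.isLittleO_log_id_atTop.tendsto_div_nhds_zero
      simpa using this
    have := (h1.comp hL).const_mul C
    simpa using this
  have hinv : Tendsto (fun i => 1 / Real.log (Y i : ℝ)) atTop (𝓝 0) := hL.const_div_atTop 1
  have htot : Tendsto (fun i => (d i : ℝ) / Real.log (Y i) * (C * (Real.log (Real.log (Y i : ℝ)) / Real.log (Y i : ℝ))) +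
      |(d i : ℝ) / Real.log (Y i) - κ| * B + 2 * ((d i : ℝ) / Real.log (Y i)) * ((B : ℝ) + 1) ^ 2 * (1 / Real.log (Y i : ℝ)))
      atTop (𝓝 0) := by
    have e1 := hd.mul hδ
    have e2 : Tendsto (fun i => |(d i : ℝ) / Real.log (Y i) - κ| * B) atTop (𝓝 0) := by
      have := ((hd.sub_const κ).abs).mul_const (B : ℝ)
      simpa using this
    have e3 := ((hd.const_mul 2).mul_const (((B : ℝ) + 1) ^ 2)).mul hinv
    have := (e1.add e2).add e3
    simpa using this
  filter_upwards [hY.eventually_ge_atTop Y₀, hδ.eventually (gt_mem_nhds (show (0 : ℝ) < 1 by norm_num)),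
    hL.eventually_ge_atTop (4 * ((B : ℝ) + 1)), htot.eventually (gt_mem_nhds hε)] with i a1 a2 a3 a4
  intro H hH hHB
  have h4 := h3 (Y i) a1 H hH hHB
  obtain ⟨L, hLd⟩ : ∃ L, L = Real.log (Y i : ℝ) := ⟨_, rfl⟩
  rw [← hLd] at h4 a2 a3 a4
  obtain ⟨δ, hδd⟩ : ∃ δ, δ = C * (Real.log L / L) := ⟨_, rfl⟩
  rw [← hδd] at h4 a2 a4
  obtain ⟨κ', hκ'⟩ : ∃ κ', κ' = (d i : ℝ) / L := ⟨_, rfl⟩
  rw [← hκ'] at a4
  have hB0 : (0 : ℝ) ≤ B := Nat.cast_nonneg _
  have hL0 : 0 < L := by linarith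
  have hκ0 : 0 ≤ κ' := by rw [hκ']; positivity
  have hδ0 : 0 ≤ δ := (abs_nonneg _).trans h4
  obtain ⟨u, hu⟩ : ∃ u, u = 1 - ww Q (Y i) H := ⟨_, rfl⟩
  rw [← hu] at h4
  obtain ⟨t, ht⟩ : ∃ t, t = L * u := ⟨_, rfl⟩
  rw [← ht] at h4
  have hHB' : (H.card : ℝ) ≤ B := by exact_mod_cast hHB
  have hH0 : (0 : ℝ) ≤ H.card := Nat.cast_nonneg _
  obtain ⟨b1, b2⟩ := abs_le.1 h4
  have hu0 : 0 ≤ u := by
    rw [hu]
    unfold ww
    rw [sub_nonneg]
    apply div_le_one_of_le₀ _ (Nat.cast_nonneg _)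
    have : ((Icc 1 (Y i)).filter (fun s => ∀ n ∈ H, ¬ Q (n + s))).card ≤ (Icc 1 (Y i)).card := card_filter_le _ _
    rw [Nat.card_Icc, Nat.add_sub_cancel] at this
    exact_mod_cast this
  have ht0 : 0 ≤ t := by rw [ht]; positivity
  have ht1 : t ≤ B + 1 := by linarith
  have hut : u = t / L := by rw [ht]; field_simp
  have hu1 : u ≤ 1 / 2 := by
    rw [hut, div_le_div_iff₀ hL0 (by norm_num)]
    linarith
  have hw : ww Q (Y i) H = 1 - u := by rw [hu]; ring
  have hpow : ww Q (Y i) H ^ (d i) = Real.exp (d i * Real.log (1 - u)) := by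
    rw [hw, mul_comm, Real.exp_mul, Real.exp_log (by linarith), Real.rpow_natCast]
  have hpow' : Real.exp (-κ) ^ H.card = Real.exp (-(κ * H.card)) := by
    rw [← Real.exp_nat_mul]
    ring_nf
  have hlog0 : Real.log (1 - u) ≤ 0 := Real.log_nonpos (by linarith) (by linarith)
  rw [hpow, hpow']
  have hdn : (0 : ℝ) ≤ d i := Nat.cast_nonneg _
  refine (exp_lip (mul_nonpos_of_nonneg_of_nonpos hdn hlog0) (by have := mul_nonneg hκ hH0; linarith)).trans ?_
  have hdu : (d i : ℝ) * u = κ' * t := by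
    rw [hut, hκ']
    field_simp
  have hdu2 : (d i : ℝ) * u ^ 2 = κ' * t ^ 2 * (1 / L) := by
    rw [hut, hκ']
    field_simp
  have c1 : (d i : ℝ) * Real.log (1 - u) ≤ -(κ' * t) := by
    have := mul_le_mul_of_nonneg_left (log_one_sub_le (t := u) (by linarith)) hdn
    linarith
  have c2 : -(κ' * t) - 2 * (κ' * t ^ 2 * (1 / L)) ≤ (d i : ℝ) * Real.log (1 - u) := by
    have := mul_le_mul_of_nonneg_left (log_one_sub_ge hu0 hu1) hdn
    have e1 : (d i : ℝ) * (-u - 2 * u ^ 2) = -(κ' * t) - 2 * (κ' * t ^ 2 * (1 / L)) := by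
      rw [← hdu, ← hdu2]; ring
    linarith
  have c3 : |κ' * t - κ * H.card| ≤ κ' * δ + |κ' - κ| * B := by
    have e1 : κ' * t - κ * H.card = κ' * (t - H.card) + (κ' - κ) * H.card := by ring
    rw [e1]
    refine (abs_add_le _ _).trans ?_
    rw [abs_mul, abs_mul, abs_of_nonneg hκ0, abs_of_nonneg hH0]
    exact add_le_add (mul_le_mul_of_nonneg_left h4 hκ0) (mul_le_mul_of_nonneg_left hHB' (abs_nonneg _))
  have c4 : κ' * t ^ 2 * (1 / L) ≤ κ' * ((B : ℝ) + 1) ^ 2 * (1 / L) := by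
    have : t ^ 2 ≤ ((B : ℝ) + 1) ^ 2 := pow_le_pow_left₀ ht0 ht1 2
    gcongr
  obtain ⟨d1, d2⟩ := abs_le.1 c3
  have c5 : 0 ≤ κ' * t ^ 2 * (1 / L) := by positivity
  rw [abs_le]
  constructor <;> nlinarith [a4, d1, d2, c1, c2, c4, c5]



lemma mis_update (Q : ℕ → Prop) (V : Finset ℕ) {K m : ℕ} (j : Fin K) (h : m ≤ (j : ℕ)) (a : Fin K → ℕ) (s : ℕ) :
    mis Q V (Function.update a j s) m = mis Q V a m := by
  unfold mis
  congr 1
  apply filter_congr
  intro n _
  apply forall_congr'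
  intro i
  constructor
  · intro h1 hi
    have hij : i ≠ j := by
      intro h'
      rw [h'] at hi
      omega
    have := h1 hi
    rwa [Function.update_of_ne hij] at this
  · intro h1 hi
    have hij : i ≠ j := by
      intro h'
      rw [h'] at hi
      omega
    rw [Function.update_of_ne hij]
    exact h1 hi

theorem proc (Q : ℕ → Prop) (hTh : ThQ Q) (hP : PairQ Q) : ∀ (r : ℕ) (lam : Fin (r + 1) → ℝ) (X Y K : ℕ → ℕ) (k : ℕ → Fin (r + 1) → ℕ),
  Tendsto X atTop atTop → (∀ i, X i ≤ Y i) → (∀ i, Monotone (k i)) → (∀ i l, k i l ≤ K i) → (∀ l, 0 < lam l) →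
  (∀ l, Tendsto (fun i => mean Q (X i) (Y i) (k i l)) atTop (𝓝 (lam l))) →
  ∀ (b : Fin (r + 1) → ℕ) (ε : ℝ), 0 < ε → ∀ᶠ i in atTop, ∀ V ∈ powersetCard (X i) (Icc 1 (Y i)),
  |joint Q V (Y i) (K i) (k i) b - joint Q V (Y i) (K i) (fun _ : Fin 1 => k i 0) (fun _ => b 0) *
    ∏ l : Fin r, bino (b l.castSucc) (b l.succ) (lam l.succ / lam l.castSucc)| ≤ ε := by
  intro r
  induction r with
  | zero =>
    intro lam X Y K k hX hXY hk hkK hlam hmean b ε hε
    filter_upwards with i V hV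
    have e1 : joint Q V (Y i) (K i) (k i) b = joint Q V (Y i) (K i) (fun _ : Fin 1 => k i 0) (fun _ => b 0) := by
      have h1 : k i = (fun _ : Fin 1 => k i 0) := by
        funext l
        rw [Subsingleton.elim (α := Fin 1) l 0]
      have h2 : b = (fun _ : Fin 1 => b 0) := by
        funext l
        rw [Subsingleton.elim (α := Fin 1) l 0]
      conv_lhs => rw [h1, h2]
    rw [e1]
    simp [hε.le]
  | succ r ih =>
    intro lam X Y K k hX hXY hk hkK hlam hmean b ε hε
    have hY : Tendsto Y atTop atTop := tendsto_atTop_mono hXY hX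
    obtain ⟨l0, hl0⟩ : ∃ l0 : Fin (r + 2), l0 = (Fin.last r).castSucc := ⟨_, rfl⟩
    obtain ⟨l1, hl1⟩ : ∃ l1 : Fin (r + 2), l1 = Fin.last (r + 1) := ⟨_, rfl⟩
    have hl01 : l0 ≤ l1 := by rw [hl1]; exact Fin.le_last _
    have hd := kap_lim Q hTh X Y (fun i => k i l0) (fun i => k i l1) hY (fun i => hk i hl01) (lam l0) (lam l1)
      (hlam l0) (hlam l1) (hmean l0) (hmean l1)
    obtain ⟨κ, hκ⟩ : ∃ κ, κ = -Real.log (lam l1 / lam l0) := ⟨_, rfl⟩
    rw [← hκ] at hd
    have hκ0 : 0 ≤ κ := by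
      apply ge_of_tendsto' hd
      intro i
      exact div_nonneg (Nat.cast_nonneg _) (Real.log_natCast_nonneg _)
    have hq : Real.exp (-κ) = lam l1 / lam l0 := by
      rw [hκ, neg_neg, Real.exp_log (div_pos (hlam l1) (hlam l0))]
    have hq1 : lam l1 / lam l0 ≤ 1 := by
      rw [← hq]
      exact Real.exp_le_one_iff.2 (by linarith)
    have hq0 : 0 ≤ lam l1 / lam l0 := (div_pos (hlam l1) (hlam l0)).le
    have hpl := pow_lim Q hTh hP (b l0) Y (fun i => k i l1 - k i l0) hY κ hκ0 hd (ε / (2 * 4 ^ (b l0))) (by positivity)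
    rw [hq] at hpl
    have hih := ih (fun l => lam l.castSucc) X Y K (fun i l => k i l.castSucc) hX hXY
      (fun i => (hk i).comp Fin.strictMono_castSucc.monotone) (fun i l => hkK i _) (fun l => hlam _)
      (fun l => hmean _) (fun l => b l.castSucc) (ε / (2 * 2 ^ (b l0))) (by positivity)
    filter_upwards [hpl, hih, hY.eventually_ge_atTop 1] with i h1 h2 h3 V hV
    have h2' := h2 V hV
    rw [mem_powersetCard] at hV
    obtain ⟨E, hE⟩ : ∃ E : (Fin (K i) → ℕ) → Prop, E = fun a => ∀ l : Fin (r + 1), mis Q V a (k i l.castSucc) = b l.castSucc := ⟨_, rfl⟩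
    have hst := stage Q V (Y i) (K i) (k i l0) (k i l1) (b l0) (b l1) h3 (hk i hl01) (hkK i l1) E (by
      intro j hj a s
      rw [hE]
      simp only
      apply forall_congr'
      intro l
      rw [mis_update Q V j (le_trans (hk i (show l.castSucc ≤ l0 by rw [hl0]; exact Fin.castSucc_le_castSucc_iff.2 (Fin.le_last _))) hj)])
      (by
        intro a ha
        rw [hE] at ha
        have := ha (Fin.last r)
        rw [← hl0] at this
        exact this)
      (lam l1 / lam l0) (ε / (2 * 4 ^ (b l0))) (by positivity)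
      (fun H hH hHB => h1 H (hH.trans hV.1) hHB)
    have e1 : (((Om (K i) (Icc 1 (Y i))).filter (fun a => E a ∧ mis Q V a (k i l1) = b l1)).card : ℝ) / (Y i : ℝ) ^ (K i) =
        joint Q V (Y i) (K i) (k i) b := by
      unfold joint Om
      congr 3
      ext a
      rw [mem_filter, mem_filter]
      apply and_congr_right
      intro _
      rw [hE, hl1]
      exact (Fin.forall_fin_succ' (P := fun l => mis Q V a (k i l) = b l)).symm
    have e2 : (((Om (K i) (Icc 1 (Y i))).filter E).card : ℝ) / (Y i : ℝ) ^ (K i) =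
        joint Q V (Y i) (K i) (fun l : Fin (r + 1) => k i l.castSucc) (fun l => b l.castSucc) := by
      unfold joint Om
      congr 3
      ext a
      rw [mem_filter, mem_filter, hE]
    rw [e1, e2] at hst
    rw [Fin.prod_univ_castSucc]
    have e3 : (∏ l : Fin r, bino (b l.castSucc.castSucc) (b l.castSucc.succ) (lam l.castSucc.succ / lam l.castSucc.castSucc)) =
        ∏ l : Fin r, bino (b l.castSucc.castSucc) (b l.succ.castSucc) (lam l.succ.castSucc / lam l.castSucc.castSucc) := by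
      apply prod_congr rfl
      intro l _
      rw [Fin.succ_castSucc]
    rw [e3]
    have e4 : (Fin.last r).succ = l1 := by rw [hl1, Fin.succ_last]
    rw [e4, ← hl0]
    obtain ⟨P, hP⟩ : ∃ P, P = ∏ l : Fin r, bino (b l.castSucc.castSucc) (b l.succ.castSucc) (lam l.succ.castSucc / lam l.castSucc.castSucc) := ⟨_, rfl⟩
    simp only [Fin.castSucc_zero] at h2'
    rw [← hP] at h2' ⊢
    obtain ⟨J, hJ⟩ : ∃ J, J = joint Q V (Y i) (K i) (fun l : Fin (r + 1) => k i l.castSucc) (fun l => b l.castSucc) := ⟨_, rfl⟩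
    obtain ⟨J0, hJ0⟩ : ∃ J0, J0 = joint Q V (Y i) (K i) (fun _ : Fin 1 => k i 0) (fun _ => b 0) := ⟨_, rfl⟩
    obtain ⟨J1, hJ1⟩ : ∃ J1, J1 = joint Q V (Y i) (K i) (k i) b := ⟨_, rfl⟩
    rw [← hJ, ← hJ1] at hst
    rw [← hJ, ← hJ0] at h2'
    rw [← hJ0, ← hJ1]
    have hb := bino_abs (b l0) (b l1) (lam l1 / lam l0) hq0 hq1
    have e5 : J1 - J0 * (P * bino (b l0) (b l1) (lam l1 / lam l0)) =
        (J1 - J * bino (b l0) (b l1) (lam l1 / lam l0)) + (J - J0 * P) * bino (b l0) (b l1) (lam l1 / lam l0) := by ring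
    rw [e5]
    refine (abs_add_le _ _).trans ?_
    rw [abs_mul]
    have e6 : |J - J0 * P| * |bino (b l0) (b l1) (lam l1 / lam l0)| ≤ ε / (2 * 2 ^ (b l0)) * 2 ^ (b l0) :=
      mul_le_mul h2' hb (abs_nonneg _) (by positivity)
    have e7 : ε / (2 * 2 ^ (b l0)) * 2 ^ (b l0) = ε / 2 := by field_simp
    have e8 : 4 ^ (b l0) * (ε / (2 * 4 ^ (b l0))) = ε / 2 := by field_simp
    rw [e7] at e6
    rw [e8] at hst
    linarith



end Pool.Agent.Q145.GQ
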