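import Mathlib

set_option autoImplicit false

/-!
# Project GC, part 2: Cramér's random set

The same process for Cramér's model (`n` belongs to the random set with probability `1 / log n`,
independently): here the limit is a Poisson process.  Definitions and statements of the lemmas.
-/

namespace Pool.Agent.Q145.GQ

open Finset MeasureTheory ProbabilityTheory Filter Topology

open scoped Classical

/-- The number of the `n ∈ V` for which none of the `n + a_i`, `i < m`, has the property `Q`. -/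
noncomputable def mis (Q : ℕ → Prop) (V : Finset ℕ) {K : ℕ} (a : Fin K → ℕ) (m : ℕ) : ℕ :=
  (V.filter (fun n => ∀ i : Fin K, (i : ℕ) < m → ¬ Q (n + a i))).card

/-- The proportion of the sequences of `K` shifts from `[1, Y]` for which exactly `b l` of the `n ∈ V`
are missed by the first `k l` shifts, for all `l`. -/
noncomputable def joint (Q : ℕ → Prop) (V : Finset ℕ) (Y K : ℕ) {r : ℕ} (k b : Fin r → ℕ) : ℝ :=
  (((Fintype.piFinset (fun _ : Fin K => Icc 1 Y)).filter (fun a => ∀ l, mis Q V a (k l) = b l)).card : ℝ) / (Y : ℝ) ^ K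

/-- density of `Q` among `n + 1, ..., n + Y` -/
noncomputable def th (Q : ℕ → Prop) (Y n : ℕ) : ℝ := (((Icc 1 Y).filter (fun s => Q (n + s))).card : ℝ) / Y

/-- the mean number of the missed points of a random set of `X` points of `[1, Y]` -/
noncomputable def mean (Q : ℕ → Prop) (X Y k : ℕ) : ℝ := (X : ℝ) * ((∑ n ∈ Icc 1 Y, (1 - th Q Y n) ^ k) / Y)

/-- the counting function on short intervals -/
def Cnt (Q : ℕ → Prop) : Prop := ∃ (C : ℝ) (Y₀ : ℕ), 0 < C ∧ ∀ Y : ℕ, Y₀ ≤ Y → ∀ n : ℕ, 1 ≤ n → n ≤ Y →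
  |(((Icc 1 Y).filter (fun s => Q (n + s))).card : ℝ) - ∑ m ∈ Ioc n (n + Y), 1 / Real.log m| ≤ C * (Y / Real.log Y ^ 3)

/-- pairs: no correlation -/
def Pr2 (Q : ℕ → Prop) : Prop := ∃ (C : ℝ) (Y₀ : ℕ), 0 < C ∧ ∀ Y : ℕ, Y₀ ≤ Y → ∀ n m : ℕ, 1 ≤ n → n < m → m ≤ Y →
  |(((Icc 1 Y).filter (fun s => Q (n + s) ∧ Q (m + s))).card : ℝ) - Y / Real.log Y ^ 2| ≤ C * (Y / Real.log Y ^ 3)

/-- triples: upper bound -/
def Tr3 (Q : ℕ → Prop) : Prop := ∃ (C : ℝ) (Y₀ : ℕ), 0 < C ∧ ∀ Y : ℕ, Y₀ ≤ Y → ∀ n m l : ℕ, 1 ≤ n → n < m → m < l → l ≤ Y →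
  (((Icc 1 Y).filter (fun s => Q (n + s) ∧ Q (m + s) ∧ Q (l + s))).card : ℝ) ≤ C * (Y / Real.log Y ^ 3)

/-- M1: concentration (method of bounded differences), for functions of the random set `{n ≤ N : E n}` -/
def S_Mcd : Prop := ∀ (Ω : Type) [MeasurableSpace Ω] (P : Measure Ω) [IsProbabilityMeasure P] (E : ℕ → Set Ω),
  (∀ n, MeasurableSet (E n)) → iIndepSet E P → ∀ (N : ℕ) (c : ℝ) (f : Finset ℕ → ℝ), 0 < c →
  (∀ (A : Finset ℕ) (x : ℕ), |f (insert x A) - f A| ≤ c) →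
  Integrable (fun ω => f ((Icc 1 N).filter (fun n => ω ∈ E n))) P ∧
  ∀ t : ℝ, 0 < t → P.real {ω | t ≤ |f ((Icc 1 N).filter (fun n => ω ∈ E n)) - ∫ ω', f ((Icc 1 N).filter (fun n => ω' ∈ E n)) ∂P|} ≤
    2 * Real.exp (-(2 * t ^ 2 / (N * c ^ 2)))

/-- M2: Cramér's random set has the three properties almost surely. -/
def S_Cra : Prop := ∀ (Ω : Type) [MeasurableSpace Ω] (P : Measure Ω) [IsProbabilityMeasure P] (E : ℕ → Set Ω),
  (∀ n, MeasurableSet (E n)) → iIndepSet E P → (∀ n : ℕ, 3 ≤ n → P.real (E n) = 1 / Real.log n) →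
  ∀ᵐ ω ∂P, Cnt (fun n => ω ∈ E n) ∧ Pr2 (fun n => ω ∈ E n) ∧ Tr3 (fun n => ω ∈ E n)

end Pool.Agent.Q145.GQ
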